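import Pool.Agent.ESM.Rei

set_option autoImplicit false

open Finset

namespace Pool.Agent.ESM

theorem cost_le (I : Inst) (M : Finset (ℕ × ℕ)) (hM : I.IsMatching M) : I.cost M ≤ 2 * I.m := by
  have hlt1 : ∀ p ∈ M, p.1 < I.n1 := by
    intro p hp
    by_contra hc
    have h := hM.acc p hp
    rw [I.hm p.1 (by omega)] at h
    exact absurd h List.not_mem_nil
  have hacc2 : ∀ p ∈ M, p.1 ∈ I.wl p.2 := fun p hp => (I.sym p.1 p.2).mp (hM.acc p hp)
  have hlt2 : ∀ p ∈ M, p.2 < I.n2 := by
    intro p hp
    by_contra hc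
    have h := hacc2 p hp
    rw [I.hw p.2 (by omega)] at h
    exact absurd h List.not_mem_nil
  have h1 : ∑ p ∈ M, I.rM p.1 p.2 ≤ I.m := by
    calc ∑ p ∈ M, I.rM p.1 p.2 ≤ ∑ p ∈ M, (I.ml p.1).length := by
          apply Finset.sum_le_sum
          intro p hp
          exact List.idxOf_lt_length_iff.mpr (hM.acc p hp)
      _ = ∑ i ∈ M.image Prod.fst, (I.ml i).length := by
          rw [Finset.sum_image]
          intro p hp q hq h
          exact hM.inj p hp q hq (Or.inl h)
      _ ≤ I.m := by
          apply Finset.sum_le_sum_of_subset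
          intro i hi
          obtain ⟨p, hp, rfl⟩ := Finset.mem_image.mp hi
          exact Finset.mem_range.mpr (hlt1 p hp)
  have h2 : ∑ p ∈ M, I.rW p.1 p.2 ≤ I.m := by
    calc ∑ p ∈ M, I.rW p.1 p.2 ≤ ∑ p ∈ M, (I.wl p.2).length := by
          apply Finset.sum_le_sum
          intro p hp
          exact List.idxOf_lt_length_iff.mpr (hacc2 p hp)
      _ = ∑ i ∈ M.image Prod.snd, (I.wl i).length := by
          rw [Finset.sum_image]
          intro p hp q hq h
          exact hM.inj p hp q hq (Or.inr h)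
      _ ≤ ∑ j ∈ range I.n2, (I.wl j).length := by
          apply Finset.sum_le_sum_of_subset
          intro i hi
          obtain ⟨p, hp, rfl⟩ := Finset.mem_image.mp hi
          exact Finset.mem_range.mpr (hlt2 p hp)
      _ = I.m := size_wl I
  unfold Inst.cost
  rw [Finset.sum_add_distrib]
  omega

end Pool.Agent.ESM
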