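import Pool.Agent.ESM.Core

set_option autoImplicit false

open Finset

namespace Pool.Agent.ESM

/-- choosing one state keeps solvability -/
theorem sol_choose (I : Inst) (t : ℕ → Finset ℕ) (N i : ℕ) (h : I.Sol t N) (hi : i < I.n1) :
    ∃ a ∈ t i, I.Sol (Function.update t i {a}) N := by
  obtain ⟨p, q, z, h1, h2, h3, h4⟩ := h
  refine ⟨p i, h1 i hi, p, q, z, ?_, h2, h3, h4⟩
  intro i' hi'
  by_cases h : i' = i
  · subst h
    rw [Function.update_self]
    exact mem_singleton_self _
  · rw [Function.update_of_ne h]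
    exact h1 i' hi'

/-- the value of the product with one factor exchanged -/
theorem PT_update (I : Inst) (t : ℕ → Finset ℕ) (i a : ℕ) (hi : i < I.n1) (ht : t i = I.full i) :
    I.PT t / I.FM i * I.Z ^ ex 3 (I.lM i) a = I.PT (Function.update t i {a}) := by
  have hmem : i ∈ range I.n1 := mem_range.2 hi
  have hFM : 0 < I.FM i := by
    unfold Inst.FM
    refine Finset.sum_pos (fun b _ => ?_) ⟨0, mem_range.2 (Nat.succ_pos _)⟩
    exact pow_pos (by unfold Inst.Z; positivity) _
  have e1 : I.PT t = I.FM i * ((∏ j ∈ (range I.n1).erase i,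
      ∑ b ∈ t j, I.Z ^ ex 3 (I.lM j) b) * I.CW) := by
    unfold Inst.PT
    rw [← Finset.mul_prod_erase (range I.n1) _ hmem, ht]
    unfold Inst.full Inst.FM
    ring
  have e2 : I.PT (Function.update t i {a}) = I.Z ^ ex 3 (I.lM i) a *
      ((∏ j ∈ (range I.n1).erase i, ∑ b ∈ t j, I.Z ^ ex 3 (I.lM j) b) * I.CW) := by
    unfold Inst.PT
    rw [← Finset.mul_prod_erase (range I.n1) _ hmem, Function.update_self, Finset.sum_singleton]
    have : ∏ j ∈ (range I.n1).erase i, ∑ b ∈ Function.update t i {a} j, I.Z ^ ex 3 (I.lM j) b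
        = ∏ j ∈ (range I.n1).erase i, ∑ b ∈ t j, I.Z ^ ex 3 (I.lM j) b := by
      refine Finset.prod_congr rfl fun j hj => ?_
      rw [Function.update_of_ne (ne_of_mem_erase hj)]
    rw [this]
    ring
  rw [e1, e2, Nat.mul_div_cancel_left _ hFM]
  ring

end Pool.Agent.ESM
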