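import Pool.Agent.ESM.Defs

/-!
# Egalitarian stable matchings on a random access machine: auxiliary definitions, Hoare rules
-/

set_option autoImplicit false

open Finset

namespace Pool.Agent.ESM

/-! ## Hoare triples with cost -/

def Tri (P : Mem → Prop) (c : Cmd) (k : ℕ) (Q : Mem → Prop) : Prop :=
  ∀ s, P s → Q (c.run s) ∧ c.cost s ≤ k

theorem tri_seq {P Q R : Mem → Prop} {c d : Cmd} {k l : ℕ} (h1 : Tri P c k Q) (h2 : Tri Q d l R) :
    Tri P (.seq c d) (k + l) R := by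
  intro s hs
  obtain ⟨a, b⟩ := h1 s hs
  obtain ⟨a', b'⟩ := h2 _ a
  exact ⟨a', Nat.add_le_add b b'⟩

theorem tri_weaken {P P' Q Q' : Mem → Prop} {c : Cmd} {k k' : ℕ} (h : Tri P c k Q)
    (hP : ∀ s, P' s → P s) (hk : k ≤ k') (hQ : ∀ s, Q s → Q' s) : Tri P' c k' Q' := by
  intro s hs
  obtain ⟨a, b⟩ := h s (hP s hs)
  exact ⟨hQ _ a, b.trans hk⟩

/-- the rule for loops: `J j` holds before the `j`-th step -/
theorem tri_loop {x : ℕ} {e : Ex} {c : Cmd} {N : ℕ} (J : ℕ → Mem → Prop) (k : ℕ → ℕ)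
    (he : ∀ s, J 0 s → e.val s = N)
    (hs : ∀ j < N, ∀ s, J j s →
      J (j + 1) (c.run (wr s x 0 0 j)) ∧ c.cost (wr s x 0 0 j) ≤ k j) :
    Tri (J 0) (.loop x e c) (e.ops + 1 + ∑ j ∈ range N, (1 + k j)) (J N) := by
  intro s h0
  have hN := he s h0
  have key : ∀ j ≤ N, J j (iter (fun j s' => c.run (wr s' x 0 0 j)) j s) := by
    intro j
    induction j with
    | zero => intro _; exact h0
    | succ j ih => intro hj; exact (hs j (by omega) _ (ih (by omega))).1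
  refine ⟨?_, ?_⟩
  · have h1 := key N le_rfl
    simp only [Cmd.run, hN]
    exact h1
  · simp only [Cmd.cost, hN]
    apply Nat.add_le_add_left
    apply Finset.sum_le_sum
    intro j hj
    exact Nat.add_le_add_left (hs j (mem_range.mp hj) _ (key j (mem_range.mp hj).le)).2 1

/-! ## Numbers -/

/-- exponent of the state `a` of a person with list of weights `l` (`a = l.length`: unmatched) -/
def ex (c : ℕ) (l : List ℕ) (a : ℕ) : ℕ :=
  if a < l.length then a + 1 + c * l.getD a 0 + (l.drop (a + 1)).sum else 0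

/-- digit of the position `b` in the state `a` -/
def dig (c a b : ℕ) : ℕ := if b = a then c else if a < b then 1 else 0

/-- the sum computed by the inner loops -/
def sm (Z c : ℕ) : List ℕ → ℕ
  | [] => 0
  | w :: l => Z ^ (l.sum + c * w) + Z * sm Z c l

namespace Inst

variable (I : Inst)

def K : ℕ := 2 * I.m + 1

def Z : ℕ := 16 ^ (I.m + 1)

def off (i : ℕ) : ℕ := ∑ i' ∈ range i, (I.ml i').length

/-- number of the pair `(i, j)` -/
def num (i j : ℕ) : ℕ := I.off i + (I.ml i).idxOf j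

/-- weight of the pair `(i, j)` -/
def wt (i j : ℕ) : ℕ := I.K * 16 ^ I.num i j

def lM (i : ℕ) : List ℕ := (I.ml i).map (fun j => I.wt i j)

def lW (j : ℕ) : List ℕ := (I.wl j).map (fun i => I.wt i j)

/-- factor of the man `i` -/
def FM (i : ℕ) : ℕ := ∑ a ∈ range ((I.ml i).length + 1), I.Z ^ ex 3 (I.lM i) a

/-- factor of the woman `j` -/
def FW (j : ℕ) : ℕ := ∑ a ∈ range ((I.wl j).length + 1), I.Z ^ ex 4 (I.lW j) a

/-- factor of the pair with number `e` -/
def FH (e : ℕ) : ℕ := 1 + I.Z ^ (5 * (I.K * 16 ^ e)) + I.Z ^ (6 * (I.K * 16 ^ e))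

def CW : ℕ := (∏ j ∈ range I.n2, I.FW j) * ∏ e ∈ range I.m, I.FH e

/-- the product, the states of the man `i` are restricted to `t i` -/
def PT (t : ℕ → Finset ℕ) : ℕ := (∏ i ∈ range I.n1, ∑ a ∈ t i, I.Z ^ ex 3 (I.lM i) a) * I.CW

def full (i : ℕ) : Finset ℕ := range ((I.ml i).length + 1)

def TGT : ℕ := I.K * ∑ e ∈ range I.m, 7 * 16 ^ e

/-- there are states with total exponent `N` -/
def Sol (t : ℕ → Finset ℕ) (N : ℕ) : Prop := ∃ p q z : ℕ → ℕ,
  (∀ i < I.n1, p i ∈ t i) ∧ (∀ j < I.n2, q j ≤ (I.wl j).length) ∧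
  (∀ e < I.m, z e = 0 ∨ z e = 5 ∨ z e = 6) ∧
  ∑ i ∈ range I.n1, ex 3 (I.lM i) (p i) + ∑ j ∈ range I.n2, ex 4 (I.lW j) (q j)
    + ∑ e ∈ range I.m, z e * (I.K * 16 ^ e) = N

/-- the matching given by the states of the men -/
def Mof (p : ℕ → ℕ) : Finset (ℕ × ℕ) :=
  (range I.n1 ×ˢ range I.n2).filter
    (fun x => p x.1 < (I.ml x.1).length ∧ (I.ml x.1).getD (p x.1) 0 = x.2)

/-- acceptable pairs -/
def AP : Finset (ℕ × ℕ) := (range I.n1 ×ˢ range I.n2).filter (fun x => x.2 ∈ I.ml x.1)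

/-- the condition on the states for every acceptable pair -/
def Good (p q : ℕ → ℕ) : Prop := ∀ i j, j ∈ I.ml i →
  (p i = (I.ml i).idxOf j ∧ q j = (I.wl j).idxOf i) ∨
  (p i ≠ (I.ml i).idxOf j ∧ q j ≠ (I.wl j).idxOf i ∧
    (p i < (I.ml i).idxOf j ∨ q j < (I.wl j).idxOf i))

/-- cost of the states -/
def cpq (p q : ℕ → ℕ) : ℕ :=
  ∑ i ∈ range I.n1, (if p i < (I.ml i).length then p i + 1 else 0) +
  ∑ j ∈ range I.n2, (if q j < (I.wl j).length then q j + 1 else 0)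

/-! ## Assertions about the memory -/

/-- the input part of the memory -/
structure B (s : Mem) : Prop where
  n1 : s 0 0 0 = I.n1
  n2 : s 1 0 0 = I.n2
  ml0 : ∀ i, s 2 i 0 = (I.ml i).length
  ml1 : ∀ i a, s 2 i (a + 1) = (I.ml i).getD a 0
  wl0 : ∀ j, s 3 j 0 = (I.wl j).length
  wl1 : ∀ j a, s 3 j (a + 1) = (I.wl j).getD a 0

/-- after `progA` -/
structure A1 (s : Mem) : Prop where
  b : I.B s
  m : s 5 0 0 = I.m
  E : ∀ i j, j ∈ I.ml i → s 6 i j = I.num i j

/-- after `progB` -/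
structure A2 (s : Mem) : Prop where
  a : I.A1 s
  Z : s 11 0 0 = I.Z

/-- after `progC` -/
structure A3 (s : Mem) : Prop where
  a : I.A2 s
  PW : ∀ e < I.m, s 7 e 0 = I.Z ^ (I.K * 16 ^ e)

/-- the bound for the cost of every part -/
def bd : ℕ := 1000 * (I.n1 + I.n2 + I.m + 1)

end Inst

end Pool.Agent.ESM
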