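import Pool.Agent.ESM.Core

set_option autoImplicit false

open Finset Polynomial

namespace Pool.Agent.ESM

private theorem crd_lt2 (I : Inst) {i j : ℕ} (h : j ∈ I.ml i) : j < I.n2 := by
  by_contra hcon
  have h1 := (I.sym i j).mp h
  rw [I.hw j (not_lt.mp hcon)] at h1
  exact absurd h1 (List.not_mem_nil)

private theorem crd_lt1 (I : Inst) {i j : ℕ} (h : i ∈ I.wl j) : i < I.n1 := by
  by_contra hcon
  have h1 := (I.sym i j).mpr h
  rw [I.hm i (not_lt.mp hcon)] at h1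
  exact absurd h1 (List.not_mem_nil)

private theorem crd_len (n : ℕ) (l : List ℕ) (hl : l.Nodup) (hn : ∀ x ∈ l, x < n) :
    l.length = ∑ j ∈ range n, if j ∈ l then 1 else 0 := by
  rw [Finset.sum_boole, Nat.cast_id, ← List.toFinset_card_of_nodup hl]
  congr 1
  ext x
  simp only [List.mem_toFinset, mem_filter, mem_range]
  exact ⟨fun h => ⟨hn x h, h⟩, fun h => h.2⟩

private theorem crd_size (I : Inst) : ∑ j ∈ range I.n2, (I.wl j).length = I.m := by
  unfold Inst.m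
  have h1 : ∀ j ∈ range I.n2, (I.wl j).length = ∑ i ∈ range I.n1, if j ∈ I.ml i then 1 else 0 := by
    intro j _
    rw [crd_len I.n1 (I.wl j) (I.ndw j) (fun x hx => crd_lt1 I hx)]
    apply Finset.sum_congr rfl
    intro i _
    by_cases h : i ∈ I.wl j
    · rw [if_pos h, if_pos ((I.sym i j).mpr h)]
    · rw [if_neg h, if_neg (fun h' => h ((I.sym i j).mp h'))]
  have h2 : ∀ i ∈ range I.n1, (I.ml i).length = ∑ j ∈ range I.n2, if j ∈ I.ml i then 1 else 0 := by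
    intro i _
    exact crd_len I.n2 (I.ml i) (I.ndm i) (fun x hx => crd_lt2 I hx)
  rw [Finset.sum_congr rfl h1, Finset.sum_congr rfl h2, Finset.sum_comm]

private theorem crd_prod (n : ℕ) (f : ℕ → ℕ) :
    ∏ i ∈ range n, (f i + 1) ≤ 2 ^ (∑ i ∈ range n, f i) := by
  rw [← Finset.prod_pow_eq_pow_sum]
  apply Finset.prod_le_prod'
  intro i _
  exact Nat.lt_two_pow_self

/-- the number of terms is less than `Z` -/
theorem card_lt (I : Inst) : (∏ i ∈ range I.n1, ((I.ml i).length + 1)) *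
    ((∏ j ∈ range I.n2, ((I.wl j).length + 1)) * 3 ^ I.m) < I.Z := by
  have h1 : ∏ i ∈ range I.n1, ((I.ml i).length + 1) ≤ 2 ^ I.m :=
    crd_prod I.n1 (fun i => (I.ml i).length)
  have h2 : ∏ j ∈ range I.n2, ((I.wl j).length + 1) ≤ 2 ^ I.m := by
    have h := crd_prod I.n2 (fun j => (I.wl j).length)
    rw [crd_size] at h
    exact h
  have h3 : 2 ^ I.m * (2 ^ I.m * 3 ^ I.m) = 12 ^ I.m := by
    rw [← mul_pow, ← mul_pow]
    norm_num
  have h4 : (12 : ℕ) ^ I.m ≤ 16 ^ I.m := Nat.pow_le_pow_left (by norm_num) _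
  have h5 : (16 : ℕ) ^ I.m < 16 ^ (I.m + 1) := Nat.pow_lt_pow_right (by norm_num) (Nat.lt_succ_self _)
  calc (∏ i ∈ range I.n1, ((I.ml i).length + 1)) *
      ((∏ j ∈ range I.n2, ((I.wl j).length + 1)) * 3 ^ I.m)
      ≤ 2 ^ I.m * (2 ^ I.m * 3 ^ I.m) :=
        Nat.mul_le_mul h1 (Nat.mul_le_mul h2 le_rfl)
    _ = 12 ^ I.m := h3
    _ ≤ 16 ^ I.m := h4
    _ < I.Z := h5

end Pool.Agent.ESM
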