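import Mathlib

/-!
# Egalitarian stable matchings on a random access machine: definitions

Instances of the stable marriage problem with incomplete lists, stable and egalitarian matchings;
a small programming language for a random access machine (uniform cost) and its cost; the program.
-/

set_option autoImplicit false

open Finset

namespace Pool.Agent.ESM

/-! ## Instances, stable matchings -/

/-- An instance: men `0, ..., n1 - 1`, women `0, ..., n2 - 1`, `ml i` is the preference list of the
man `i` (best woman first), `wl j` the preference list of the woman `j`. Acceptability is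
mutual. -/
structure Inst where
  n1 : ℕ
  n2 : ℕ
  ml : ℕ → List ℕ
  wl : ℕ → List ℕ
  hm : ∀ i, n1 ≤ i → ml i = []
  hw : ∀ j, n2 ≤ j → wl j = []
  ndm : ∀ i, (ml i).Nodup
  ndw : ∀ j, (wl j).Nodup
  sym : ∀ i j, j ∈ ml i ↔ i ∈ wl j

namespace Inst

variable (I : Inst)

/-- the number of acceptable pairs -/
def m : ℕ := ∑ i ∈ range I.n1, (I.ml i).length

/-- position of the woman `j` on the list of the man `i` (1 = first choice) -/
def rM (i j : ℕ) : ℕ := (I.ml i).idxOf j + 1

/-- position of the man `i` on the list of the woman `j` (1 = first choice) -/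
def rW (i j : ℕ) : ℕ := (I.wl j).idxOf i + 1

/-- a set of pairs (man, woman) is a matching -/
structure IsMatching (M : Finset (ℕ × ℕ)) : Prop where
  acc : ∀ p ∈ M, p.2 ∈ I.ml p.1
  inj : ∀ p ∈ M, ∀ q ∈ M, p.1 = q.1 ∨ p.2 = q.2 → p = q

/-- the acceptable pair `(i, j)` blocks `M` -/
def Blocks (M : Finset (ℕ × ℕ)) (i j : ℕ) : Prop :=
  j ∈ I.ml i ∧ (∀ j', (i, j') ∈ M → I.rM i j < I.rM i j') ∧
    ∀ i', (i', j) ∈ M → I.rW i j < I.rW i' j

def Stable (M : Finset (ℕ × ℕ)) : Prop := I.IsMatching M ∧ ∀ i j, ¬ I.Blocks M i j

def cost (M : Finset (ℕ × ℕ)) : ℕ := ∑ p ∈ M, (I.rM p.1 p.2 + I.rW p.1 p.2)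

/-- a stable matching of least cost -/
def Egal (M : Finset (ℕ × ℕ)) : Prop := I.Stable M ∧ ∀ M', I.Stable M' → I.cost M ≤ I.cost M'

end Inst

/-! ## The machine -/

/-- Memory: a register for every triple of natural numbers `(b, i, j)` (entry `(i, j)` of the array
`b`), containing a natural number. The scalar `b` is the entry `(0, 0)` of the array `b`. -/
abbrev Mem := ℕ → ℕ → ℕ → ℕ

/-- write a register -/
def wr (s : Mem) (b i j v : ℕ) : Mem :=
  fun b' i' j' => if b' = b ∧ i' = i ∧ j' = j then v else s b' i' j'

/-- Expressions: constants, array entries, sum, (truncated) difference, product and integer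
quotient. -/
inductive Ex
  | lit (k : ℕ)
  | get (b : ℕ) (i j : Ex)
  | add (e f : Ex)
  | sub (e f : Ex)
  | mul (e f : Ex)
  | div (e f : Ex)

/-- value of an expression -/
def Ex.val (s : Mem) : Ex → ℕ
  | .lit k => k
  | .get b i j => s b (i.val s) (j.val s)
  | .add e f => e.val s + f.val s
  | .sub e f => e.val s - f.val s
  | .mul e f => e.val s * f.val s
  | .div e f => e.val s / f.val s

/-- number of operations in evaluating an expression (one per node) -/
def Ex.ops : Ex → ℕ
  | .lit _ => 1
  | .get _ i j => i.ops + j.ops + 1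
  | .add e f => e.ops + f.ops + 1
  | .sub e f => e.ops + f.ops + 1
  | .mul e f => e.ops + f.ops + 1
  | .div e f => e.ops + f.ops + 1

/-- Programs. `put b i j e` is `b[i, j] := e`, `ifLt e f c d` is `if e < f then c else d`,
`loop x e c` is `for x := 0, 1, ..., N - 1 do c`, `N` the value of `e` when the loop is entered
(`x` is a scalar). -/
inductive Cmd
  | skip
  | put (b : ℕ) (i j e : Ex)
  | seq (c d : Cmd)
  | ifLt (e f : Ex) (c d : Cmd)
  | loop (x : ℕ) (e : Ex) (c : Cmd)

/-- iterate `f 0`, `f 1`, ..., `f (N - 1)` -/
def iter (f : ℕ → Mem → Mem) : ℕ → Mem → Mem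
  | 0, s => s
  | N + 1, s => f N (iter f N s)

/-- effect of a program on the memory -/
def Cmd.run : Cmd → Mem → Mem
  | .skip, s => s
  | .put b i j e, s => wr s b (i.val s) (j.val s) (e.val s)
  | .seq c d, s => d.run (c.run s)
  | .ifLt e f c d, s => if e.val s < f.val s then c.run s else d.run s
  | .loop x e c, s => iter (fun j s' => c.run (wr s' x 0 0 j)) (e.val s) s

/-- number of steps of a program: every node of an expression, assignment, comparison and loop
step counts -/
def Cmd.cost : Cmd → Mem → ℕ
  | .skip, _ => 1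
  | .put _ i j e, _ => i.ops + j.ops + e.ops + 1
  | .seq c d, s => c.cost s + d.cost (c.run s)
  | .ifLt e f c d, s => e.ops + f.ops + 1 + if e.val s < f.val s then c.cost s else d.cost s
  | .loop x e c, s => e.ops + 1 + ∑ j ∈ range (e.val s),
      (1 + c.cost (wr (iter (fun j s' => c.run (wr s' x 0 0 j)) j s) x 0 0 j))

/-! ## Input and output -/

/-- The input: scalars 0 and 1 contain `n1` and `n2`. Row `i` of the array 2 contains the
preference list of the man `i`: entry 0 is its length, entry `r` the woman on position `r`. Array 3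
contains the lists of the women in the same way. All other registers are 0. -/
def Inst.input (I : Inst) : Mem := fun b i j =>
  if b = 0 then (if i = 0 ∧ j = 0 then I.n1 else 0)
  else if b = 1 then (if i = 0 ∧ j = 0 then I.n2 else 0)
  else if b = 2 then (if j = 0 then (I.ml i).length else (I.ml i).getD (j - 1) 0)
  else if b = 3 then (if j = 0 then (I.wl i).length else (I.wl i).getD (j - 1) 0)
  else 0

/-- The output: entry `(i, 0)` of the array 4 is 0 if the man `i` is unmatched and `j + 1` if he is
matched with the woman `j`. -/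
def Inst.out (I : Inst) (s : Mem) : Finset (ℕ × ℕ) :=
  (range I.n1 ×ˢ range I.n2).filter (fun p => s 4 p.1 0 = p.2 + 1)

/-! ## The program -/

/-- the scalar `x` -/
def sc (x : ℕ) : Ex := .get x (.lit 0) (.lit 0)

/-- assignment to the scalar `x` -/
def st (x : ℕ) (e : Ex) : Cmd := .put x (.lit 0) (.lit 0) e

/-- numbering of the acceptable pairs: `6[i, j]` is the number of the pair `(i, j)`, scalar 5 is the
number of pairs -/
def progA : Cmd :=
  .seq (st 5 (.lit 0))
    (.loop 9 (sc 0)
      (.loop 10 (.get 2 (sc 9) (.lit 0))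
        (.seq (.put 6 (sc 9) (.get 2 (sc 9) (.add (sc 10) (.lit 1))) (sc 5))
          (st 5 (.add (sc 5) (.lit 1))))))

/-- scalar 11 is `Z = 16 ^ (m + 1)`, scalar 15 is `Z ^ K`, `K = 2 * m + 1` -/
def progB : Cmd :=
  .seq (st 11 (.lit 16))
    (.seq (.loop 10 (sc 5) (st 11 (.mul (.lit 16) (sc 11))))
      (.seq (st 15 (sc 11))
        (.loop 10 (.mul (.lit 2) (sc 5)) (st 15 (.mul (sc 15) (sc 11))))))

/-- `7[e, 0] = Z ^ (K * 16 ^ e)`, scalar 12 the product of their seventh powers, scalar 13 the product
of the factors of the pairs -/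
def progC : Cmd :=
  .seq (st 12 (.lit 1))
    (.seq (st 13 (.lit 1))
      (.loop 10 (sc 5)
        (.seq (.put 7 (sc 10) (.lit 0) (sc 15))
          (.seq (st 20 (.mul (sc 15) (sc 15)))
            (.seq (st 21 (.mul (sc 20) (sc 20)))
              (.seq (st 12 (.mul (sc 12) (.mul (sc 21) (.mul (sc 20) (sc 15)))))
                (.seq (st 13 (.mul (sc 13)
                    (.add (.lit 1) (.add (.mul (sc 21) (sc 15)) (.mul (sc 21) (sc 20))))))
                  (.seq (st 20 (.mul (sc 21) (sc 21)))
                    (st 15 (.mul (sc 20) (sc 20)))))))))))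

/-- entry `10`-th from the end of the list of the person `9` (array `b`) -/
def ent (b : ℕ) : Ex := .get b (sc 9) (.sub (.get b (sc 9) (.lit 0)) (sc 10))

/-- factors of the men: `8[i, 0]`; scalar 13 is multiplied by them -/
def progD : Cmd :=
  .loop 9 (sc 0)
    (.seq (st 15 (.lit 1))
      (.seq (st 14 (.lit 0))
        (.seq
          (.loop 10 (.get 2 (sc 9) (.lit 0))
            (.seq (st 18 (.get 7 (.get 6 (sc 9) (ent 2)) (.lit 0)))
              (.seq (st 14 (.add (.mul (sc 15) (.mul (sc 18) (.mul (sc 18) (sc 18))))
                  (.mul (sc 11) (sc 14))))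
                (st 15 (.mul (sc 15) (sc 18))))))
          (.seq (.put 8 (sc 9) (.lit 0) (.add (.lit 1) (.mul (sc 11) (sc 14))))
            (st 13 (.mul (sc 13) (.get 8 (sc 9) (.lit 0))))))))

/-- scalar 13 is multiplied by the factors of the women -/
def progE : Cmd :=
  .loop 9 (sc 1)
    (.seq (st 15 (.lit 1))
      (.seq (st 14 (.lit 0))
        (.seq
          (.loop 10 (.get 3 (sc 9) (.lit 0))
            (.seq (st 18 (.get 7 (.get 6 (ent 3) (sc 9)) (.lit 0)))
              (.seq (st 14 (.add (.mul (sc 15) (.mul (.mul (sc 18) (sc 18)) (.mul (sc 18) (sc 18))))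
                  (.mul (sc 11) (sc 14))))
                (st 15 (.mul (sc 15) (sc 18))))))
          (st 13 (.mul (sc 13) (.add (.lit 1) (.mul (sc 11) (sc 14))))))))

/-- search of the least cost: scalar 12 is multiplied by `Z ^ cost` -/
def progF : Cmd :=
  .seq (st 16 (.div (sc 13) (sc 12)))
    (.loop 10 (.mul (.lit 2) (sc 5))
      (.ifLt (.sub (sc 16) (.mul (.div (sc 16) (sc 11)) (sc 11))) (.lit 1)
        (.seq (st 16 (.div (sc 16) (sc 11))) (st 12 (.mul (sc 12) (sc 11))))
        .skip))

/-- decoding, one man after the other -/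
def progG : Cmd :=
  .loop 9 (sc 0)
    (.seq (st 13 (.div (sc 13) (.get 8 (sc 9) (.lit 0))))
      (.seq (st 19 (.lit 1))
        (.seq (.put 4 (sc 9) (.lit 0) (.lit 0))
          (.seq (st 15 (.lit 1))
            (.seq (st 17 (.lit 1))
              (.seq (.loop 10 (.get 2 (sc 9) (.lit 0)) (st 17 (.mul (sc 17) (sc 11))))
                (.seq
                  (.loop 10 (.get 2 (sc 9) (.lit 0))
                    (.seq (st 18 (.get 7 (.get 6 (sc 9) (ent 2)) (.lit 0)))
                      (.seq (st 22 (.mul (.mul (sc 15) (.mul (sc 18) (.mul (sc 18) (sc 18))))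
                          (sc 17)))
                        (.seq (st 16 (.div (.mul (sc 13) (sc 22)) (sc 12)))
                          (.seq
                            (.ifLt (.lit 0) (.sub (sc 16) (.mul (.div (sc 16) (sc 11)) (sc 11)))
                              (.seq (st 19 (sc 22))
                                (.put 4 (sc 9) (.lit 0) (.add (ent 2) (.lit 1))))
                              .skip)
                            (.seq (st 15 (.mul (sc 15) (sc 18)))
                              (st 17 (.div (sc 17) (sc 11)))))))))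
                  (st 13 (.mul (sc 13) (sc 19))))))))))

/-- the program -/
def prog : Cmd :=
  .seq progA (.seq progB (.seq progC (.seq progD (.seq progE (.seq progF progG)))))

end Pool.Agent.ESM
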