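import Pool.Agent.ESM.Core

set_option autoImplicit false

open Finset

namespace Pool.Agent.ESM

theorem digits_unique (m : ℕ) (d d' : ℕ → ℕ) (h : ∀ e < m, d e < 16) (h' : ∀ e < m, d' e < 16)
    (hs : ∑ e ∈ range m, 16 ^ e * d e = ∑ e ∈ range m, 16 ^ e * d' e) : ∀ e < m, d e = d' e := by
  induction m generalizing d d' with
  | zero => intro e he; omega
  | succ m ih =>
    have key : ∀ g : ℕ → ℕ, ∑ e ∈ range (m + 1), 16 ^ e * g e
        = 16 * ∑ e ∈ range m, 16 ^ e * g (e + 1) + g 0 := by
      intro g
      rw [Finset.sum_range_succ', Finset.mul_sum]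
      simp only [pow_zero, one_mul]
      congr 1
      refine Finset.sum_congr rfl fun e _ => ?_
      rw [pow_succ]; ring
    rw [key d, key d'] at hs
    have h0 := h 0 (Nat.succ_pos m)
    have h0' := h' 0 (Nat.succ_pos m)
    have e0 : d 0 = d' 0 := by omega
    have es : ∑ e ∈ range m, 16 ^ e * d (e + 1) = ∑ e ∈ range m, 16 ^ e * d' (e + 1) := by omega
    have := ih (fun e => d (e + 1)) (fun e => d' (e + 1)) (fun e he => h (e + 1) (by omega))
      (fun e he => h' (e + 1) (by omega)) es
    intro e he
    rcases e with _ | e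
    · exact e0
    · exact this e (by omega)

end Pool.Agent.ESM
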