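import Pool.Agent.ESM.Rei

/-!
# Egalitarian stable matchings: existence of stable matchings
-/

set_option autoImplicit false

open Finset

namespace Pool.Agent.ESM

/-- pairs of `A` such that the man has a better pair in `A` -/
private def exiM (I : Inst) (A : Set (ℕ × ℕ)) : Set (ℕ × ℕ) :=
  {x | x ∈ A ∧ ∃ y ∈ A, y.1 = x.1 ∧ I.rM y.1 y.2 < I.rM x.1 x.2}

/-- pairs of `B` such that the woman has a better pair in `B` -/
private def exiW (I : Inst) (B : Set (ℕ × ℕ)) : Set (ℕ × ℕ) :=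
  {x | x ∈ B ∧ ∃ y ∈ B, y.2 = x.2 ∧ I.rW y.1 y.2 < I.rW x.1 x.2}

private theorem exiM_mono (I : Inst) {A A' : Set (ℕ × ℕ)} (h : A ⊆ A') : exiM I A ⊆ exiM I A' := by
  rintro x ⟨h1, y, h2, h3⟩
  exact ⟨h h1, y, h h2, h3⟩

private theorem exiW_mono (I : Inst) {A A' : Set (ℕ × ℕ)} (h : A ⊆ A') : exiW I A ⊆ exiW I A' := by
  rintro x ⟨h1, y, h2, h3⟩
  exact ⟨h h1, y, h h2, h3⟩

private def exiT (I : Inst) : Set (ℕ × ℕ) →o Set (ℕ × ℕ) where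
  toFun A := {x | x.2 ∈ I.ml x.1} \ exiW I ({x | x.2 ∈ I.ml x.1} \ exiM I A)
  monotone' := by
    intro A A' h
    exact Set.sdiff_subset_sdiff_right (exiW_mono I (Set.sdiff_subset_sdiff_right (exiM_mono I h)))

/-- a best pair exists -/
private theorem exi_min (S : Set (ℕ × ℕ)) (f : ℕ × ℕ → ℕ) (x : ℕ × ℕ) (hx : x ∈ S) :
    ∃ y ∈ S, (∀ z ∈ S, f y ≤ f z) := by
  have h : (f '' S).Nonempty := ⟨f x, x, hx, rfl⟩
  obtain ⟨y, hy, hy2⟩ := Nat.sInf_mem h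
  refine ⟨y, hy, fun z hz => ?_⟩
  rw [hy2]
  exact Nat.sInf_le ⟨z, hz, rfl⟩

theorem exists_stable (I : Inst) : ∃ M, I.Stable M := by
  classical
  set AP : Set (ℕ × ℕ) := {x | x.2 ∈ I.ml x.1} with hAP
  obtain ⟨A, hA⟩ : ∃ A : Set (ℕ × ℕ), A = AP \ exiW I (AP \ exiM I A) :=
    ⟨OrderHom.lfp (exiT I), (OrderHom.map_lfp (exiT I)).symm⟩
  set B : Set (ℕ × ℕ) := AP \ exiM I A with hB
  have hA1 : ∀ x, x ∈ A ↔ x ∈ AP ∧ x ∉ exiW I B := by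
    intro x
    constructor
    · intro hx
      rw [hA] at hx
      exact hx
    · intro hx
      rw [hA]
      exact hx
  have hB1 : ∀ x, x ∈ B ↔ x ∈ AP ∧ x ∉ exiM I A := fun x => Iff.rfl
  -- best pairs
  have hbM : ∀ x ∈ A, ∃ y, y ∈ A ∧ y ∈ B ∧ y.1 = x.1 ∧ I.rM y.1 y.2 ≤ I.rM x.1 x.2 := by
    intro x hx
    obtain ⟨y, ⟨hy1, hy2⟩, hy3⟩ := exi_min {y | y ∈ A ∧ y.1 = x.1} (fun y => I.rM y.1 y.2) x
      ⟨hx, rfl⟩
    refine ⟨y, hy1, ?_, hy2, hy3 x ⟨hx, rfl⟩⟩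
    rw [hB1]
    refine ⟨((hA1 y).mp hy1).1, ?_⟩
    rintro ⟨_, z, hz1, hz2, hz3⟩
    exact absurd hz3 (Nat.not_lt.mpr (hy3 z ⟨hz1, hz2.trans hy2⟩))
  have hbW : ∀ x ∈ B, ∃ y, y ∈ A ∧ y ∈ B ∧ y.2 = x.2 ∧ I.rW y.1 y.2 ≤ I.rW x.1 x.2 := by
    intro x hx
    obtain ⟨y, ⟨hy1, hy2⟩, hy3⟩ := exi_min {y | y ∈ B ∧ y.2 = x.2} (fun y => I.rW y.1 y.2) x
      ⟨hx, rfl⟩
    refine ⟨y, ?_, hy1, hy2, hy3 x ⟨hx, rfl⟩⟩
    rw [hA1]
    refine ⟨((hB1 y).mp hy1).1, ?_⟩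
    rintro ⟨_, z, hz1, hz2, hz3⟩
    exact absurd hz3 (Nat.not_lt.mpr (hy3 z ⟨hz1, hz2.trans hy2⟩))
  let M : Finset (ℕ × ℕ) := I.AP.filter (fun x => x ∈ A ∧ x ∈ B)
  have hM : ∀ x, x ∈ M ↔ x ∈ A ∧ x ∈ B := by
    intro x
    constructor
    · intro hx
      exact (mem_filter.mp hx).2
    · intro hx
      exact mem_filter.mpr ⟨(mem_AP I x).mpr ((hA1 x).mp hx.1).1, hx⟩
  refine ⟨M, ⟨?_, ?_⟩, ?_⟩
  · intro p hp
    exact ((hA1 p).mp ((hM p).mp hp).1).1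
  · intro p hp q hq hpq
    obtain ⟨p1, p2⟩ := (hM p).mp hp
    obtain ⟨q1, q2⟩ := (hM q).mp hq
    have ap : p.2 ∈ I.ml p.1 := ((hA1 p).mp p1).1
    have aq : q.2 ∈ I.ml q.1 := ((hA1 q).mp q1).1
    rcases hpq with h | h
    · have e1 : ¬ I.rM q.1 q.2 < I.rM p.1 p.2 := fun hlt => ((hB1 p).mp p2).2 ⟨p1, q, q1, h.symm, hlt⟩
      have e2 : ¬ I.rM p.1 p.2 < I.rM q.1 q.2 := fun hlt => ((hB1 q).mp q2).2 ⟨q1, p, p1, h, hlt⟩
      have e3 : (I.ml p.1).idxOf p.2 = (I.ml p.1).idxOf q.2 := by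
        unfold Inst.rM at e1 e2
        rw [← h] at e1 e2
        omega
      have e4 : p.2 = q.2 := (List.idxOf_inj ap).mp e3
      exact Prod.ext h e4
    · have e1 : ¬ I.rW q.1 q.2 < I.rW p.1 p.2 := fun hlt => ((hA1 p).mp p1).2 ⟨p2, q, q2, h.symm, hlt⟩
      have e2 : ¬ I.rW p.1 p.2 < I.rW q.1 q.2 := fun hlt => ((hA1 q).mp q1).2 ⟨q2, p, p2, h, hlt⟩
      have e3 : (I.wl p.2).idxOf p.1 = (I.wl p.2).idxOf q.1 := by
        unfold Inst.rW at e1 e2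
        rw [← h] at e1 e2
        omega
      have e4 : p.1 = q.1 := (List.idxOf_inj ((I.sym p.1 p.2).mp ap)).mp e3
      exact Prod.ext e4 h
  · rintro i j ⟨h1, h2, h3⟩
    by_cases hx : (i, j) ∈ A
    · obtain ⟨y, y1, y2, y3, y4⟩ := hbM _ hx
      have y3' : y.1 = i := y3
      have hy : (i, y.2) ∈ M := by
        rw [hM, ← y3']
        exact ⟨y1, y2⟩
      have := h2 y.2 hy
      rw [y3'] at y4
      exact absurd this (Nat.not_lt.mpr y4)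
    · have hx2 : (i, j) ∈ exiW I B := by
        by_contra hc
        exact hx ((hA1 _).mpr ⟨h1, hc⟩)
      obtain ⟨y, y1, y2, y3, y4⟩ := hbW _ hx2.1
      have y3' : y.2 = j := y3
      have hy : (y.1, j) ∈ M := by
        rw [hM, ← y3']
        exact ⟨y1, y2⟩
      have := h3 y.1 hy
      rw [y3'] at y4
      exact absurd this (Nat.not_lt.mpr y4)

end Pool.Agent.ESM
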