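import Pool.Agent.ESM.Core

/-!
# Egalitarian stable matchings on a random access machine: exponents
-/

set_option autoImplicit false

open Finset

namespace Pool.Agent.ESM

theorem exq_sum (l : List ℕ) : ∑ b ∈ range l.length, l.getD b 0 = l.sum := by
  induction l with
  | nil => simp
  | cons w l ih =>
    rw [List.length_cons, Finset.sum_range_succ', List.sum_cons, add_comm]
    simp only [List.getD_cons_zero, List.getD_cons_succ]
    rw [ih]

theorem exq_zero (c w : ℕ) (l : List ℕ) : ex c (w :: l) 0 = 1 + c * w + l.sum := by
  unfold ex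
  rw [if_pos (by simp)]
  simp

theorem exq_succ (c w : ℕ) (l : List ℕ) (a : ℕ) :
    ex c (w :: l) (a + 1) = ex c l a + if a < l.length then 1 else 0 := by
  unfold ex
  by_cases h : a < l.length
  · rw [if_pos (by simpa using h), if_pos h, if_pos h]
    simp only [List.getD_cons_succ, List.drop_succ_cons]
    ring
  · rw [if_neg (by simpa using h), if_neg h, if_neg h]

theorem exq_dig (c a b : ℕ) : dig c (a + 1) (b + 1) = dig c a b := by
  unfold dig
  simp

/-! ROW EXQ (Exq.lean): the exponent as a sum of digits; the inner loops -/
theorem ex_eq (c : ℕ) (l : List ℕ) (a : ℕ) :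
    ex c l a = (if a < l.length then a + 1 else 0) +
      ∑ b ∈ range l.length, l.getD b 0 * dig c a b := by
  induction l generalizing a with
  | nil => simp [ex]
  | cons w l ih =>
    rw [List.length_cons, Finset.sum_range_succ']
    cases a with
    | zero =>
      rw [exq_zero, if_pos (Nat.succ_pos _)]
      have h1 : ∀ b ∈ range l.length, (w :: l).getD (b + 1) 0 * dig c 0 (b + 1) = l.getD b 0 := by
        intro b _
        simp [dig]
      rw [Finset.sum_congr rfl h1, exq_sum]
      simp only [List.getD_cons_zero, dig, if_true]
      ring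
    | succ a =>
      rw [exq_succ, ih a]
      have h1 : ∀ b ∈ range l.length, (w :: l).getD (b + 1) 0 * dig c (a + 1) (b + 1) =
          l.getD b 0 * dig c a b := by
        intro b _
        rw [exq_dig, List.getD_cons_succ]
      rw [Finset.sum_congr rfl h1]
      have h2 : dig c (a + 1) 0 = 0 := by simp [dig]
      rw [h2, mul_zero, add_zero]
      by_cases h : a < l.length
      · rw [if_pos h, if_pos h, if_pos (Nat.succ_lt_succ h)]
        ring
      · rw [if_neg h, if_neg h, if_neg (fun h' => h (Nat.lt_of_succ_lt_succ h'))]
        ring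

theorem one_add_sm (Z c : ℕ) (l : List ℕ) :
    1 + Z * sm Z c l = ∑ a ∈ range (l.length + 1), Z ^ ex c l a := by
  induction l with
  | nil => simp [sm, ex]
  | cons w l ih =>
    have hlen : ex c l l.length = 0 := by
      unfold ex
      rw [if_neg (lt_irrefl _)]
    rw [Finset.sum_range_succ, hlen, pow_zero] at ih
    have ih' : ∑ a ∈ range l.length, Z ^ ex c l a = Z * sm Z c l := by omega
    rw [List.length_cons, Finset.sum_range_succ', Finset.sum_range_succ, exq_zero, exq_succ,
      if_neg (lt_irrefl _), hlen]
    have h1 : ∀ a ∈ range l.length, Z ^ ex c (w :: l) (a + 1) = Z ^ ex c l a * Z := by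
      intro a ha
      rw [exq_succ, if_pos (mem_range.mp ha), pow_succ]
    rw [Finset.sum_congr rfl h1, ← Finset.sum_mul, ih']
    simp only [sm]
    ring

end Pool.Agent.ESM
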