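import Pool.Agent.ESM.Core

set_option autoImplicit false

open Finset Polynomial

namespace Pool.Agent.ESM

/-- reading a coefficient of a polynomial with natural coefficients from its value at a large
number -/
theorem coeff_extract (Q : ℕ[X]) (Z N : ℕ) (h : Q.eval 1 < Z) :
    Q.eval Z / Z ^ N % Z = Q.coeff N := by
  induction N generalizing Q with
  | zero =>
    have h1 := congrArg (fun p : ℕ[X] => p.eval Z) (divX_mul_X_add Q)
    have h2 := congrArg (fun p : ℕ[X] => p.eval 1) (divX_mul_X_add Q)
    simp only [eval_add, eval_mul, eval_X, eval_C, mul_one] at h1 h2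
    rw [pow_zero, Nat.div_one, ← h1, Nat.add_comm, Nat.add_mul_mod_self_right]
    exact Nat.mod_eq_of_lt (by omega)
  | succ N ih =>
    have h1 := congrArg (fun p : ℕ[X] => p.eval Z) (divX_mul_X_add Q)
    have h2 := congrArg (fun p : ℕ[X] => p.eval 1) (divX_mul_X_add Q)
    simp only [eval_add, eval_mul, eval_X, eval_C, mul_one] at h1 h2
    have h3 : Q.eval Z / Z = (divX Q).eval Z := by
      rw [← h1, Nat.add_comm, Nat.add_mul_div_right _ _ (by omega),
        Nat.div_eq_of_lt (by omega), Nat.zero_add]
    have h4 := ih (divX Q) (by omega)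
    rw [pow_succ', ← Nat.div_div_eq_div_mul, h3, h4, coeff_divX]

end Pool.Agent.ESM
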