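import Pool.Agent.ESM.Core

/-!
# ESM, row PGA: the numbering of the acceptable pairs
-/

set_option autoImplicit false

open Finset

namespace Pool.Agent.ESM

private theorem PGA_ne {s : Mem} {b b' i j v i' j' : ℕ} (h : b' ≠ b) :
    wr s b i j v b' i' j' = s b' i' j' := by
  unfold wr
  rw [if_neg]
  rintro ⟨h1, -⟩
  exact h h1

private theorem PGA_ne1 {s : Mem} {b i j v i' j' : ℕ} (h : i' ≠ i) :
    wr s b i j v b i' j' = s b i' j' := by
  unfold wr
  rw [if_neg]
  rintro ⟨-, h1, -⟩
  exact h h1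

private theorem PGA_ne2 {s : Mem} {b i j v i' j' : ℕ} (h : j' ≠ j) :
    wr s b i j v b i' j' = s b i' j' := by
  unfold wr
  rw [if_neg]
  rintro ⟨-, -, h1⟩
  exact h h1

private theorem PGA_eq {s : Mem} {b i j v : ℕ} : wr s b i j v b i j = v := by
  unfold wr
  rw [if_pos ⟨rfl, rfl, rfl⟩]

private theorem PGA_B (I : Inst) {s : Mem} (h : I.B s) {b i j v : ℕ}
    (hb : 0 ≠ b ∧ 1 ≠ b ∧ 2 ≠ b ∧ 3 ≠ b) : I.B (wr s b i j v) := by
  obtain ⟨h0, h1, h2, h3⟩ := hb
  exact
    { n1 := by rw [PGA_ne h0]; exact h.n1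
      n2 := by rw [PGA_ne h1]; exact h.n2
      ml0 := fun i => by rw [PGA_ne h2]; exact h.ml0 i
      ml1 := fun i a => by rw [PGA_ne h2]; exact h.ml1 i a
      wl0 := fun j => by rw [PGA_ne h3]; exact h.wl0 j
      wl1 := fun j a => by rw [PGA_ne h3]; exact h.wl1 j a }

/-- invariant of the outer loop -/
private structure PGA_J (I : Inst) (i : ℕ) (s : Mem) : Prop where
  b : I.B s
  m : s 5 0 0 = I.off i
  E : ∀ i' < i, ∀ j, j ∈ I.ml i' → s 6 i' j = I.num i' j

/-- invariant of the inner loop -/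
private structure PGA_J2 (I : Inst) (i r : ℕ) (s : Mem) : Prop where
  b : I.B s
  x : s 9 0 0 = i
  m : s 5 0 0 = I.off i + r
  E : ∀ i' < i, ∀ j, j ∈ I.ml i' → s 6 i' j = I.num i' j
  E2 : ∀ a < r, s 6 i ((I.ml i).getD a 0) = I.off i + a

private def PGA_body : Cmd :=
  .seq (.put 6 (sc 9) (.get 2 (sc 9) (.add (sc 10) (.lit 1))) (sc 5))
    (st 5 (.add (sc 5) (.lit 1)))

private theorem PGA_inner (I : Inst) (i : ℕ) :
    Tri (PGA_J2 I i 0) (.loop 10 (.get 2 (sc 9) (.lit 0)) PGA_body)
      (6 + 25 * (I.ml i).length) (PGA_J2 I i (I.ml i).length) := by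
  have h := tri_loop (x := 10) (e := .get 2 (sc 9) (.lit 0)) (c := PGA_body)
    (N := (I.ml i).length) (PGA_J2 I i) (fun _ => 24)
    (fun s hs => by
      show s 2 (s 9 0 0) 0 = _
      rw [hs.x, hs.b.ml0])
    (by
      intro r hr s hs
      refine ⟨?_, le_rfl⟩
      have hrun : PGA_body.run (wr s 10 0 0 r)
          = wr (wr (wr s 10 0 0 r) 6 i ((I.ml i).getD r 0) (I.off i + r)) 5 0 0
              (I.off i + r + 1) := by
        have e9 : (wr s 10 0 0 r) 9 0 0 = i := by rw [PGA_ne (by decide)]; exact hs.x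
        have e5 : (wr s 10 0 0 r) 5 0 0 = I.off i + r := by rw [PGA_ne (by decide)]; exact hs.m
        have e10 : (wr s 10 0 0 r) 10 0 0 = r := PGA_eq
        have e2 : (wr s 10 0 0 r) 2 i (r + 1) = (I.ml i).getD r 0 := by
          rw [PGA_ne (by decide)]; exact hs.b.ml1 i r
        show wr (wr (wr s 10 0 0 r) 6 ((wr s 10 0 0 r) 9 0 0)
            ((wr s 10 0 0 r) 2 ((wr s 10 0 0 r) 9 0 0) ((wr s 10 0 0 r) 10 0 0 + 1))
            ((wr s 10 0 0 r) 5 0 0)) 5 0 0
            ((wr (wr s 10 0 0 r) 6 ((wr s 10 0 0 r) 9 0 0)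
            ((wr s 10 0 0 r) 2 ((wr s 10 0 0 r) 9 0 0) ((wr s 10 0 0 r) 10 0 0 + 1))
            ((wr s 10 0 0 r) 5 0 0)) 5 0 0 + 1) = _
        rw [PGA_ne (b' := 5) (b := 6) (by decide), e9, e10, e2, e5]
      rw [hrun]
      refine ⟨PGA_B I (PGA_B I (PGA_B I hs.b (by decide)) (by decide)) (by decide), ?_, ?_,
        ?_, ?_⟩
      · rw [PGA_ne (by decide), PGA_ne (by decide), PGA_ne (by decide)]
        exact hs.x
      · rw [PGA_eq]
        ring
      · intro i' hi' j hj
        rw [PGA_ne (by decide), PGA_ne1 (by omega), PGA_ne (by decide)]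
        exact hs.E i' hi' j hj
      · intro a ha
        rw [PGA_ne (by decide)]
        rcases Nat.lt_or_ge a r with h | h
        · rw [PGA_ne2, PGA_ne (by decide)]
          · exact hs.E2 a h
          · intro heq
            have hal : a < (I.ml i).length := by omega
            rw [List.getD_eq_getElem _ _ hal, List.getD_eq_getElem _ _ hr] at heq
            have := (List.Nodup.getElem_inj_iff (I.ndm i)).1 heq
            omega
        · have har : a = r := by omega
          subst har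
          rw [PGA_eq])
  refine tri_weaken h (fun _ hs => hs) ?_ (fun _ hs => hs)
  simp only [Finset.sum_const, Finset.card_range, smul_eq_mul]
  have e1 : (Ex.get 2 (sc 9) (.lit 0)).ops = 5 := rfl
  rw [e1]
  omega

/-! ROW PGA (Pga.lean) -/
theorem triA (I : Inst) : Tri I.B progA I.bd I.A1 := by
  have t1 : Tri I.B (st 5 (.lit 0)) 4 (PGA_J I 0) := by
    intro s hs
    refine ⟨⟨PGA_B I hs (by decide), ?_, fun i' hi' => absurd hi' (Nat.not_lt_zero _)⟩, le_rfl⟩
    show wr s 5 0 0 0 5 0 0 = _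
    rw [PGA_eq]
    rfl
  have t2 := tri_loop (x := 9) (e := sc 0)
    (c := .loop 10 (.get 2 (sc 9) (.lit 0)) PGA_body) (N := I.n1) (PGA_J I)
    (fun i => 6 + 25 * (I.ml i).length) (fun s hs => hs.b.n1)
    (by
      intro i hi s hs
      have hJ2 : PGA_J2 I i 0 (wr s 9 0 0 i) := by
        refine ⟨PGA_B I hs.b (by decide), PGA_eq, ?_, ?_, fun a ha => absurd ha (Nat.not_lt_zero _)⟩
        · rw [PGA_ne (by decide)]
          exact hs.m
        · intro i' hi' j hj
          rw [PGA_ne (by decide)]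
          exact hs.E i' hi' j hj
      obtain ⟨h1, h2⟩ := PGA_inner I i _ hJ2
      refine ⟨⟨h1.b, ?_, ?_⟩, h2⟩
      · rw [h1.m]
        unfold Inst.off
        rw [Finset.sum_range_succ]
      · intro i' hi' j hj
        rcases Nat.lt_or_ge i' i with h | h
        · exact h1.E i' h j hj
        · have hii : i' = i := by omega
          subst hii
          have hlt : (I.ml i').idxOf j < (I.ml i').length := List.idxOf_lt_length_iff.2 hj
          have h3 := h1.E2 _ hlt
          rw [List.getD_eq_getElem _ _ hlt, List.getElem_idxOf] at h3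
          exact h3)
  refine tri_weaken (tri_seq t1 t2) (fun _ hs => hs) ?_ ?_
  · have e1 : (sc 0).ops = 3 := rfl
    rw [e1]
    have e2 : ∑ i ∈ range I.n1, (1 + (6 + 25 * (I.ml i).length)) = 7 * I.n1 + 25 * I.m := by
      unfold Inst.m
      rw [Finset.mul_sum, Finset.sum_add_distrib, Finset.sum_add_distrib]
      simp only [Finset.sum_const, Finset.card_range, smul_eq_mul]
      ring
    rw [e2]
    unfold Inst.bd
    omega
  · intro s hs
    refine ⟨hs.b, hs.m, fun i j hj => ?_⟩
    refine hs.E i ?_ j hj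
    by_contra hcon
    rw [I.hm i (by omega)] at hj
    simp at hj

end Pool.Agent.ESM
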