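import Pool.Agent.ESM.Core

set_option autoImplicit false

open Finset

namespace Pool.Agent.ESM

private theorem PGB_ne {s : Mem} {b b' i j v i' j' : ℕ} (h : b' ≠ b) :
    wr s b i j v b' i' j' = s b' i' j' := by
  unfold wr
  rw [if_neg]
  rintro ⟨h1, -⟩
  exact h h1

private theorem PGB_eq {s : Mem} {b i j v : ℕ} : wr s b i j v b i j = v := by
  unfold wr
  rw [if_pos ⟨rfl, rfl, rfl⟩]

private theorem PGB_A1 (I : Inst) {s : Mem} (h : I.A1 s) {b i j v : ℕ}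
    (hb : 0 ≠ b ∧ 1 ≠ b ∧ 2 ≠ b ∧ 3 ≠ b ∧ 5 ≠ b ∧ 6 ≠ b) : I.A1 (wr s b i j v) := by
  obtain ⟨h0, h1, h2, h3, h5, h6⟩ := hb
  exact
    { b :=
        { n1 := by rw [PGB_ne h0]; exact h.b.n1
          n2 := by rw [PGB_ne h1]; exact h.b.n2
          ml0 := fun i => by rw [PGB_ne h2]; exact h.b.ml0 i
          ml1 := fun i a => by rw [PGB_ne h2]; exact h.b.ml1 i a
          wl0 := fun j => by rw [PGB_ne h3]; exact h.b.wl0 j
          wl1 := fun j a => by rw [PGB_ne h3]; exact h.b.wl1 j a }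
      m := by rw [PGB_ne h5]; exact h.m
      E := fun i j hj => by rw [PGB_ne h6]; exact h.E i j hj }

/-! ROW PGB (Pgb.lean) -/
theorem triB (I : Inst) : Tri I.A1 progB I.bd (fun s => I.A2 s ∧ s 15 0 0 = I.Z ^ I.K) := by
  have t1 : Tri I.A1 (st 11 (.lit 16)) 4 (fun s => I.A1 s ∧ s 11 0 0 = 16 ^ (0 + 1)) := by
    intro s hs
    refine ⟨⟨PGB_A1 I hs (by decide), ?_⟩, le_rfl⟩
    show wr s 11 0 0 16 11 0 0 = _
    rw [PGB_eq]
    norm_num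
  have t2 := tri_loop (x := 10) (e := sc 5) (c := st 11 (.mul (.lit 16) (sc 11))) (N := I.m)
    (fun j s => I.A1 s ∧ s 11 0 0 = 16 ^ (j + 1)) (fun _ => 8) (fun s hs => hs.1.m)
    (by
      intro j _ s hs
      refine ⟨⟨PGB_A1 I (PGB_A1 I hs.1 (by decide)) (by decide), ?_⟩, le_rfl⟩
      show wr (wr s 10 0 0 j) 11 0 0 (16 * (wr s 10 0 0 j) 11 0 0) 11 0 0 = _
      rw [PGB_eq, PGB_ne (by decide), hs.2]
      ring)
  have t3 : Tri (fun s => I.A1 s ∧ s 11 0 0 = 16 ^ (I.m + 1)) (st 15 (sc 11)) 6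
      (fun s => (I.A1 s ∧ s 11 0 0 = I.Z) ∧ s 15 0 0 = I.Z ^ (0 + 1)) := by
    intro s hs
    refine ⟨⟨⟨PGB_A1 I hs.1 (by decide), ?_⟩, ?_⟩, le_rfl⟩
    · show wr s 15 0 0 (s 11 0 0) 11 0 0 = _
      rw [PGB_ne (by decide), hs.2]
      rfl
    · show wr s 15 0 0 (s 11 0 0) 15 0 0 = _
      rw [PGB_eq, hs.2, zero_add, pow_one]
      rfl
  have t4 := tri_loop (x := 10) (e := .mul (.lit 2) (sc 5)) (c := st 15 (.mul (sc 15) (sc 11)))
    (N := 2 * I.m)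
    (fun j s => (I.A1 s ∧ s 11 0 0 = I.Z) ∧ s 15 0 0 = I.Z ^ (j + 1)) (fun _ => 10)
    (fun s hs => by
      show 2 * s 5 0 0 = _
      rw [hs.1.1.m])
    (by
      intro j _ s hs
      refine ⟨⟨⟨PGB_A1 I (PGB_A1 I hs.1.1 (by decide)) (by decide), ?_⟩, ?_⟩, le_rfl⟩
      · show wr (wr s 10 0 0 j) 15 0 0 _ 11 0 0 = _
        rw [PGB_ne (by decide), PGB_ne (by decide), hs.1.2]
      · show wr (wr s 10 0 0 j) 15 0 0 ((wr s 10 0 0 j) 15 0 0 * (wr s 10 0 0 j) 11 0 0)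
          15 0 0 = _
        rw [PGB_eq, PGB_ne (by decide), PGB_ne (by decide), hs.2, hs.1.2]
        ring)
  have h := tri_seq t1 (tri_seq t2 (tri_seq t3 t4))
  refine tri_weaken h (fun _ hs => hs) ?_ ?_
  · simp only [Finset.sum_const, Finset.card_range, smul_eq_mul]
    have e1 : (sc 5).ops = 3 := rfl
    have e2 : (Ex.mul (.lit 2) (sc 5)).ops = 5 := rfl
    rw [e1, e2]
    unfold Inst.bd
    omega
  · intro s hs
    exact ⟨⟨hs.1.1, hs.1.2⟩, hs.2⟩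

end Pool.Agent.ESM
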