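import Pool.Agent.ESM.Core

set_option autoImplicit false

open Finset

namespace Pool.Agent.ESM

private theorem PGC_ne {s : Mem} {b b' i j v i' j' : ℕ} (h : b' ≠ b) :
    wr s b i j v b' i' j' = s b' i' j' := by
  unfold wr
  rw [if_neg]
  rintro ⟨h1, -⟩
  exact h h1

private theorem PGC_ne2 {s : Mem} {b i j v i' j' : ℕ} (h : i' ≠ i) :
    wr s b i j v b i' j' = s b i' j' := by
  unfold wr
  rw [if_neg]
  rintro ⟨-, h1, -⟩
  exact h h1

private theorem PGC_eq {s : Mem} {b i j v : ℕ} : wr s b i j v b i j = v := by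
  unfold wr
  rw [if_pos ⟨rfl, rfl, rfl⟩]

private theorem PGC_A2 (I : Inst) {s : Mem} (h : I.A2 s) {b i j v : ℕ}
    (hb : 0 ≠ b ∧ 1 ≠ b ∧ 2 ≠ b ∧ 3 ≠ b ∧ 5 ≠ b ∧ 6 ≠ b ∧ 11 ≠ b) : I.A2 (wr s b i j v) := by
  obtain ⟨h0, h1, h2, h3, h5, h6, h11⟩ := hb
  exact
    { a :=
      { b :=
          { n1 := by rw [PGC_ne h0]; exact h.a.b.n1
            n2 := by rw [PGC_ne h1]; exact h.a.b.n2
            ml0 := fun i => by rw [PGC_ne h2]; exact h.a.b.ml0 i
            ml1 := fun i a => by rw [PGC_ne h2]; exact h.a.b.ml1 i a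
            wl0 := fun j => by rw [PGC_ne h3]; exact h.a.b.wl0 j
            wl1 := fun j a => by rw [PGC_ne h3]; exact h.a.b.wl1 j a }
        m := by rw [PGC_ne h5]; exact h.a.m
        E := fun i j hj => by rw [PGC_ne h6]; exact h.a.E i j hj }
      Z := by rw [PGC_ne h11]; exact h.Z }

/-- the body of the loop -/
private def PGC_body : Cmd :=
  .seq (.put 7 (sc 10) (.lit 0) (sc 15))
    (.seq (st 20 (.mul (sc 15) (sc 15)))
      (.seq (st 21 (.mul (sc 20) (sc 20)))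
        (.seq (st 12 (.mul (sc 12) (.mul (sc 21) (.mul (sc 20) (sc 15)))))
          (.seq (st 13 (.mul (sc 13)
              (.add (.lit 1) (.add (.mul (sc 21) (sc 15)) (.mul (sc 21) (sc 20))))))
            (.seq (st 20 (.mul (sc 21) (sc 21)))
              (st 15 (.mul (sc 20) (sc 20))))))))

/-- its effect -/
private theorem PGC_run (s : Mem) (j W X Y : ℕ) (hW : s 15 0 0 = W) (hX : s 12 0 0 = X)
    (hY : s 13 0 0 = Y) :
    PGC_body.run (wr s 10 0 0 j) =
      wr (wr (wr (wr (wr (wr (wr (wr s 10 0 0 j) 7 j 0 W) 20 0 0 (W * W)) 21 0 0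
        ((W * W) * (W * W))) 12 0 0 (X * ((W * W) * (W * W) * ((W * W) * W)))) 13 0 0
        (Y * (1 + ((W * W) * (W * W) * W + (W * W) * (W * W) * (W * W))))) 20 0 0
        ((W * W) * (W * W) * ((W * W) * (W * W)))) 15 0 0
        ((W * W) * (W * W) * ((W * W) * (W * W)) * ((W * W) * (W * W) * ((W * W) * (W * W)))) := by
  subst hW hX hY
  simp only [PGC_body, Cmd.run, Ex.val, sc, st]
  have h0 : wr s 10 0 0 j 10 0 0 = j := PGC_eq
  have h1 : wr s 10 0 0 j 15 0 0 = s 15 0 0 := PGC_ne (by decide)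
  simp only [h0, h1]
  set s1 := wr (wr s 10 0 0 j) 7 j 0 (s 15 0 0) with hs1
  have h2 : s1 15 0 0 = s 15 0 0 := by rw [hs1, PGC_ne (by decide), PGC_ne (by decide)]
  have h2' : s1 12 0 0 = s 12 0 0 := by rw [hs1, PGC_ne (by decide), PGC_ne (by decide)]
  have h2'' : s1 13 0 0 = s 13 0 0 := by rw [hs1, PGC_ne (by decide), PGC_ne (by decide)]
  simp only [h2]
  set W := s 15 0 0 with hWd
  set s2 := wr s1 20 0 0 (W * W) with hs2
  have h3 : s2 20 0 0 = W * W := by rw [hs2, PGC_eq]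
  simp only [h3]
  set s3 := wr s2 21 0 0 (W * W * (W * W)) with hs3
  have h4 : s3 12 0 0 = s 12 0 0 := by
    rw [hs3, PGC_ne (by decide), hs2, PGC_ne (by decide), h2']
  have h5 : s3 21 0 0 = W * W * (W * W) := by rw [hs3, PGC_eq]
  have h6 : s3 20 0 0 = W * W := by rw [hs3, PGC_ne (by decide), h3]
  have h7 : s3 15 0 0 = W := by
    rw [hs3, PGC_ne (by decide), hs2, PGC_ne (by decide), h2]
  simp only [h4, h5, h6, h7]
  set s4 := wr s3 12 0 0 (s 12 0 0 * (W * W * (W * W) * (W * W * W))) with hs4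
  have h8 : s4 13 0 0 = s 13 0 0 := by
    rw [hs4, PGC_ne (by decide), hs3, PGC_ne (by decide), hs2, PGC_ne (by decide), h2'']
  have h9 : s4 21 0 0 = W * W * (W * W) := by rw [hs4, PGC_ne (by decide), h5]
  have h10 : s4 20 0 0 = W * W := by rw [hs4, PGC_ne (by decide), h6]
  have h11 : s4 15 0 0 = W := by rw [hs4, PGC_ne (by decide), h7]
  simp only [h8, h9, h10, h11]
  set s5 := wr s4 13 0 0
    (s 13 0 0 * (1 + (W * W * (W * W) * W + W * W * (W * W) * (W * W)))) with hs5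
  have h12 : s5 21 0 0 = W * W * (W * W) := by rw [hs5, PGC_ne (by decide), h9]
  simp only [h12]
  rw [PGC_eq]

/-- its cost -/
private theorem PGC_cost (s : Mem) : PGC_body.cost s ≤ 200 := by
  simp only [PGC_body, Cmd.cost, Ex.ops, sc, st]
  norm_num

/-! ROW PGC (Pgc.lean) -/
theorem triC (I : Inst) : Tri (fun s => I.A2 s ∧ s 15 0 0 = I.Z ^ I.K) progC I.bd
    (fun s => I.A3 s ∧ s 12 0 0 = I.Z ^ I.TGT ∧ s 13 0 0 = ∏ e ∈ range I.m, I.FH e) := by
  have t1 : Tri (fun s => I.A2 s ∧ s 15 0 0 = I.Z ^ I.K) (st 12 (.lit 1)) 4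
      (fun s => I.A2 s ∧ s 15 0 0 = I.Z ^ I.K ∧ s 12 0 0 = 1) := by
    intro s hs
    refine ⟨⟨PGC_A2 I hs.1 (by decide), ?_, ?_⟩, le_rfl⟩
    · show wr s 12 0 0 1 15 0 0 = _
      rw [PGC_ne (by decide), hs.2]
    · show wr s 12 0 0 1 12 0 0 = _
      rw [PGC_eq]
  let J : ℕ → Mem → Prop := fun j s => I.A2 s ∧ s 15 0 0 = I.Z ^ (I.K * 16 ^ j) ∧
    s 12 0 0 = I.Z ^ (I.K * ∑ e ∈ range j, 7 * 16 ^ e) ∧
    s 13 0 0 = ∏ e ∈ range j, I.FH e ∧ ∀ e < j, s 7 e 0 = I.Z ^ (I.K * 16 ^ e)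
  have t2 : Tri (fun s => I.A2 s ∧ s 15 0 0 = I.Z ^ I.K ∧ s 12 0 0 = 1) (st 13 (.lit 1)) 4
      (J 0) := by
    intro s hs
    refine ⟨⟨PGC_A2 I hs.1 (by decide), ?_, ?_, ?_, ?_⟩, le_rfl⟩
    · show wr s 13 0 0 1 15 0 0 = _
      rw [PGC_ne (by decide), hs.2.1, pow_zero, mul_one]
    · show wr s 13 0 0 1 12 0 0 = _
      rw [PGC_ne (by decide), hs.2.2, Finset.range_zero, Finset.sum_empty, mul_zero, pow_zero]
    · show wr s 13 0 0 1 13 0 0 = _
      rw [PGC_eq, Finset.range_zero, Finset.prod_empty]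
    · intro e he
      exact absurd he (Nat.not_lt_zero _)
  have t3 := tri_loop (x := 10) (e := sc 5) (c := PGC_body) (N := I.m) J (fun _ => 200)
    (fun s hs => hs.1.a.m)
    (by
      intro j _ s hs
      obtain ⟨hA, hW, hX, hY, hP⟩ := hs
      refine ⟨?_, PGC_cost _⟩
      rw [PGC_run s j _ _ _ hW hX hY]
      refine ⟨?_, ?_, ?_, ?_, ?_⟩
      · iterate 8 refine PGC_A2 I ?_ (by decide)
        exact hA
      · rw [PGC_eq]
        rw [pow_succ 16 j]
        ring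
      · rw [PGC_ne (by decide), PGC_ne (by decide), PGC_ne (by decide), PGC_eq,
          Finset.sum_range_succ]
        ring
      · rw [PGC_ne (by decide), PGC_ne (by decide), PGC_eq, Finset.prod_range_succ]
        congr 1
        unfold Inst.FH
        ring
      · intro e he
        rw [PGC_ne (by decide), PGC_ne (by decide), PGC_ne (by decide), PGC_ne (by decide),
          PGC_ne (by decide), PGC_ne (by decide)]
        rcases Nat.lt_succ_iff_lt_or_eq.1 he with h | h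
        · rw [PGC_ne2 h.ne, PGC_ne (by decide)]
          exact hP e h
        · subst h
          rw [PGC_eq])
  have h := tri_seq t1 (tri_seq t2 t3)
  refine tri_weaken h (fun _ hs => hs) ?_ ?_
  · simp only [Finset.sum_const, Finset.card_range, smul_eq_mul]
    have e1 : (sc 5).ops = 3 := rfl
    rw [e1]
    unfold Inst.bd
    omega
  · intro s hs
    obtain ⟨hA, hW, hX, hY, hP⟩ := hs
    exact ⟨⟨hA, hP⟩, hX, hY⟩

end Pool.Agent.ESM
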