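import Pool.Agent.ESM.Core

/-!
# Egalitarian stable matchings: the numbering of the acceptable pairs
-/

set_option autoImplicit false

open Finset

namespace Pool.Agent.ESM

private theorem off_succ (I : Inst) (i : ℕ) : I.off (i + 1) = I.off i + (I.ml i).length := by
  unfold Inst.off
  rw [Finset.sum_range_succ]

private theorem off_mono (I : Inst) {i i' : ℕ} (h : i ≤ i') : I.off i ≤ I.off i' := by
  induction h with
  | refl => exact le_rfl
  | step _ ih => rw [off_succ]; exact ih.trans (Nat.le_add_right _ _)

private theorem num_lt_off (I : Inst) {i j : ℕ} (h : j ∈ I.ml i) : I.num i j < I.off (i + 1) := by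
  unfold Inst.num
  rw [off_succ]
  exact Nat.add_lt_add_left (List.idxOf_lt_length_of_mem h) _

private theorem off_le_num (I : Inst) (i j : ℕ) : I.off i ≤ I.num i j := Nat.le_add_right _ _

theorem num_lt (I : Inst) {i j : ℕ} (h : j ∈ I.ml i) : I.num i j < I.m := by
  have hi : i < I.n1 := by
    by_contra hn
    rw [I.hm _ (not_lt.1 hn)] at h
    simp at h
  exact lt_of_lt_of_le (num_lt_off I h) (off_mono I hi)

theorem num_inj (I : Inst) {i j i' j' : ℕ} (h : j ∈ I.ml i) (h' : j' ∈ I.ml i')
    (e : I.num i j = I.num i' j') : i = i' ∧ j = j' := by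
  have key : ∀ {i j i' j' : ℕ}, j ∈ I.ml i → I.num i j = I.num i' j' → ¬ i < i' := by
    intro i j i' j' h e hlt
    have h1 := num_lt_off I h
    have h2 := off_mono I (Nat.succ_le_of_lt hlt)
    have h3 := off_le_num I i' j'
    rw [e] at h1
    exact absurd (h1.trans_le (h2.trans h3)) (lt_irrefl _)
  have hi : i = i' := by
    rcases lt_trichotomy i i' with h1 | h1 | h1
    · exact (key h e h1).elim
    · exact h1
    · exact (key h' e.symm h1).elim
  subst hi
  refine ⟨rfl, ?_⟩
  unfold Inst.num at e
  have h1 : (I.ml i).idxOf j = (I.ml i).idxOf j' := Nat.add_left_cancel e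
  have h2 := List.getElem_idxOf (List.idxOf_lt_length_of_mem h)
  have h3 := List.getElem_idxOf (List.idxOf_lt_length_of_mem h')
  rw [← h2, ← h3]
  simp only [h1]

theorem num_surj (I : Inst) {e : ℕ} (h : e < I.m) : ∃ i j, j ∈ I.ml i ∧ I.num i j = e := by
  have hex : ∃ k, e < I.off k := ⟨I.n1, h⟩
  classical
  have hk := Nat.find_spec hex
  have hmin : ∀ k, k < Nat.find hex → ¬ e < I.off k := fun k hk => Nat.find_min hex hk
  generalize Nat.find hex = k at hk hmin
  cases k with
  | zero =>
    unfold Inst.off at hk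
    simp at hk
  | succ i =>
    have h1 := hmin i (Nat.lt_succ_self i)
    rw [off_succ] at hk
    have h2 : e - I.off i < (I.ml i).length := by omega
    refine ⟨i, (I.ml i)[e - I.off i], List.getElem_mem h2, ?_⟩
    unfold Inst.num
    rw [(I.ndm i).idxOf_getElem _ h2]
    omega

end Pool.Agent.ESM
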