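import Pool.Agent.ESM.Exq
import Pool.Agent.ESM.Num

/-!
# Egalitarian stable matchings: the factors of the men (row PGD)
-/

set_option autoImplicit false

open Finset

namespace Pool.Agent.ESM

theorem pgd_wr_ne (s : Mem) {b b' : ℕ} (i j v : ℕ) (h : b' ≠ b) : wr s b i j v b' = s b' := by
  funext i' j'
  unfold wr
  rw [if_neg (fun hh => h hh.1)]

theorem pgd_wr_self (s : Mem) (b i j v : ℕ) : wr s b i j v b i j = v := by
  unfold wr
  rw [if_pos ⟨rfl, rfl, rfl⟩]

theorem pgd_congr (I : Inst) {s s' : Mem} (h : ∀ b, b ≤ 7 ∨ b = 11 → s' b = s b)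
    (hs : I.A3 s) : I.A3 s' where
  a := {
    a := {
      b := {
        n1 := by rw [h 0 (by omega)]; exact hs.a.a.b.n1
        n2 := by rw [h 1 (by omega)]; exact hs.a.a.b.n2
        ml0 := fun i => by rw [h 2 (by omega)]; exact hs.a.a.b.ml0 i
        ml1 := fun i a => by rw [h 2 (by omega)]; exact hs.a.a.b.ml1 i a
        wl0 := fun i => by rw [h 3 (by omega)]; exact hs.a.a.b.wl0 i
        wl1 := fun i a => by rw [h 3 (by omega)]; exact hs.a.a.b.wl1 i a }
      m := by rw [h 5 (by omega)]; exact hs.a.a.m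
      E := fun i j hj => by rw [h 6 (by omega)]; exact hs.a.a.E i j hj }
    Z := by rw [h 11 (by omega)]; exact hs.a.Z }
  PW := fun e he => by rw [h 7 (by omega)]; exact hs.PW e he

theorem pgd_A3_wr (I : Inst) {s : Mem} (b i j v : ℕ) (hb : 7 < b) (hb' : b ≠ 11)
    (hs : I.A3 s) : I.A3 (wr s b i j v) :=
  pgd_congr I (fun b' h => pgd_wr_ne s i j v (by omega)) hs

theorem pgd_st {s : Mem} (x : ℕ) (e : Ex) : (st x e).run s = wr s x 0 0 (e.val s) := rfl

/-- the invariant of the outer loop -/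
structure PgdJ (I : Inst) (X Y i : ℕ) (s : Mem) : Prop where
  a : I.A3 s
  x : s 12 0 0 = X
  y : s 13 0 0 = Y * ∏ i' ∈ range i, I.FM i'
  f : ∀ i' < i, s 8 i' 0 = I.FM i'

theorem PgdJ.wr {I : Inst} {X Y i : ℕ} {s : Mem} (h : PgdJ I X Y i s) (b i' j v : ℕ)
    (hb : 8 < b) (hb' : b ≠ 11) (hx : b ≠ 12) (hy : b ≠ 13) :
    PgdJ I X Y i (wr s b i' j v) where
  a := pgd_A3_wr I b i' j v (by omega) hb' h.a
  x := by rw [pgd_wr_ne s i' j v (Ne.symm hx)]; exact h.x
  y := by rw [pgd_wr_ne s i' j v (Ne.symm hy)]; exact h.y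
  f := fun k hk => by rw [pgd_wr_ne s i' j v (by omega)]; exact h.f k hk

/-- the invariant of the inner loop -/
structure PgdR (I : Inst) (X Y i r : ℕ) (s : Mem) : Prop where
  a : PgdJ I X Y i s
  n : s 9 0 0 = i
  p : s 15 0 0 = I.Z ^ ((I.lM i).drop ((I.ml i).length - r)).sum
  q : s 14 0 0 = sm I.Z 3 ((I.lM i).drop ((I.ml i).length - r))

theorem pgd_inner (I : Inst) (X Y i : ℕ) :
    Tri (PgdR I X Y i 0) (.loop 10 (.get 2 (sc 9) (.lit 0))
            (.seq (st 18 (.get 7 (.get 6 (sc 9) (ent 2)) (.lit 0)))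
              (.seq (st 14 (.add (.mul (sc 15) (.mul (sc 18) (.mul (sc 18) (sc 18))))
                  (.mul (sc 11) (sc 14))))
                (st 15 (.mul (sc 15) (sc 18))))))
      (6 + 59 * (I.ml i).length) (PgdR I X Y i (I.ml i).length) := by
  have h := tri_loop (x := 10) (e := .get 2 (sc 9) (.lit 0))
    (c := (.seq (st 18 (.get 7 (.get 6 (sc 9) (ent 2)) (.lit 0)))
              (.seq (st 14 (.add (.mul (sc 15) (.mul (sc 18) (.mul (sc 18) (sc 18))))
                  (.mul (sc 11) (sc 14))))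
                (st 15 (.mul (sc 15) (sc 18))))))
    (N := (I.ml i).length) (PgdR I X Y i) (fun _ => 58) ?_ ?_
  · refine tri_weaken h (fun _ hs => hs) ?_ (fun _ hs => hs)
    rw [sum_const, card_range, smul_eq_mul]
    show 5 + 1 + _ ≤ _
    omega
  · intro s hs
    show s 2 (s 9 0 0) 0 = _
    rw [hs.n, hs.a.a.a.a.b.ml0]
  · intro r hr s hs
    refine ⟨?_, le_refl _⟩
    -- the entry
    obtain ⟨a, ha⟩ : ∃ a, (I.ml i).length - r = a + 1 := ⟨(I.ml i).length - r - 1, by omega⟩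
    have haL : a < (I.ml i).length := by omega
    have haL' : a < (I.lM i).length := by
      unfold Inst.lM; rw [List.length_map]; exact haL
    set j := (I.ml i).getD a 0 with hj
    have hj' : j = (I.ml i)[a] := by rw [hj, List.getD_eq_getElem _ _ haL]
    have hjm : j ∈ I.ml i := by rw [hj']; exact List.getElem_mem haL
    have hw : (I.lM i)[a] = I.wt i j := by
      unfold Inst.lM
      rw [List.getElem_map, ← hj']
    have hdrop : (I.lM i).drop a = I.wt i j :: (I.lM i).drop (a + 1) := by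
      rw [List.drop_eq_getElem_cons haL', hw]
    have hp := hs.p
    have hq := hs.q
    rw [ha] at hp hq
    have hlen : (I.ml i).length - (r + 1) = a := by omega
    set s0 := wr s 10 0 0 r with hs0
    have hs0a : PgdJ I X Y i s0 := hs.a.wr 10 0 0 r (by omega) (by omega) (by omega) (by omega)
    have h10 : s0 10 0 0 = r := pgd_wr_self s 10 0 0 r
    have h9 : s0 9 0 0 = i := by
      rw [hs0, pgd_wr_ne s 0 0 r (by omega)]; exact hs.n
    have h15 : s0 15 0 0 = I.Z ^ ((I.lM i).drop (a + 1)).sum := by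
      rw [hs0, pgd_wr_ne s 0 0 r (by omega)]; exact hp
    have h14 : s0 14 0 0 = sm I.Z 3 ((I.lM i).drop (a + 1)) := by
      rw [hs0, pgd_wr_ne s 0 0 r (by omega)]; exact hq
    have hent : (ent 2).val s0 = j := by
      show s0 2 (s0 9 0 0) (s0 2 (s0 9 0 0) 0 - s0 10 0 0) = j
      rw [h9, h10, hs0a.a.a.a.b.ml0, ha, hs0a.a.a.a.b.ml1]
    have hval : (Ex.get 7 (.get 6 (sc 9) (ent 2)) (.lit 0)).val s0 = I.Z ^ I.wt i j := by
      show s0 7 (s0 6 (s0 9 0 0) ((ent 2).val s0)) 0 = _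
      rw [hent, h9, hs0a.a.a.a.E i j hjm, hs0a.a.PW _ (num_lt I hjm)]
      rfl
    have h11 : s0 11 0 0 = I.Z := hs0a.a.a.Z
    -- first command
    set s1 := wr s0 18 0 0 (I.Z ^ I.wt i j) with hs1
    have hs1a : PgdJ I X Y i s1 := hs0a.wr 18 0 0 _ (by omega) (by omega) (by omega) (by omega)
    have g18 : s1 18 0 0 = I.Z ^ I.wt i j := pgd_wr_self s0 18 0 0 _
    have g15 : s1 15 0 0 = I.Z ^ ((I.lM i).drop (a + 1)).sum := by
      rw [hs1, pgd_wr_ne s0 0 0 _ (by omega)]; exact h15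
    have g14 : s1 14 0 0 = sm I.Z 3 ((I.lM i).drop (a + 1)) := by
      rw [hs1, pgd_wr_ne s0 0 0 _ (by omega)]; exact h14
    have g9 : s1 9 0 0 = i := by
      rw [hs1, pgd_wr_ne s0 0 0 _ (by omega)]; exact h9
    have g11 : s1 11 0 0 = I.Z := hs1a.a.a.Z
    -- second command
    set s2 := wr s1 14 0 0 (sm I.Z 3 ((I.lM i).drop a)) with hs2
    have hs2a : PgdJ I X Y i s2 := hs1a.wr 14 0 0 _ (by omega) (by omega) (by omega) (by omega)
    have hval2 : (Ex.add (.mul (sc 15) (.mul (sc 18) (.mul (sc 18) (sc 18))))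
        (.mul (sc 11) (sc 14))).val s1 = sm I.Z 3 ((I.lM i).drop a) := by
      show s1 15 0 0 * (s1 18 0 0 * (s1 18 0 0 * s1 18 0 0)) + s1 11 0 0 * s1 14 0 0 = _
      rw [g15, g18, g11, g14, hdrop]
      show _ = I.Z ^ (((I.lM i).drop (a + 1)).sum + 3 * I.wt i j) +
        I.Z * sm I.Z 3 ((I.lM i).drop (a + 1))
      rw [pow_add, Nat.mul_comm 3, pow_mul]
      ring
    have k15 : s2 15 0 0 = I.Z ^ ((I.lM i).drop (a + 1)).sum := by
      rw [hs2, pgd_wr_ne s1 0 0 _ (by omega)]; exact g15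
    have k18 : s2 18 0 0 = I.Z ^ I.wt i j := by
      rw [hs2, pgd_wr_ne s1 0 0 _ (by omega)]; exact g18
    have k9 : s2 9 0 0 = i := by
      rw [hs2, pgd_wr_ne s1 0 0 _ (by omega)]; exact g9
    have k14 : s2 14 0 0 = sm I.Z 3 ((I.lM i).drop a) := pgd_wr_self s1 14 0 0 _
    -- third command
    set s3 := wr s2 15 0 0 (I.Z ^ ((I.lM i).drop a).sum) with hs3
    have hs3a : PgdJ I X Y i s3 := hs2a.wr 15 0 0 _ (by omega) (by omega) (by omega) (by omega)
    have hval3 : (Ex.mul (sc 15) (sc 18)).val s2 = I.Z ^ ((I.lM i).drop a).sum := by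
      show s2 15 0 0 * s2 18 0 0 = _
      rw [k15, k18, hdrop, List.sum_cons, pow_add, mul_comm]
    have hrun : (Cmd.seq (st 18 (.get 7 (.get 6 (sc 9) (ent 2)) (.lit 0)))
              (.seq (st 14 (.add (.mul (sc 15) (.mul (sc 18) (.mul (sc 18) (sc 18))))
                  (.mul (sc 11) (sc 14))))
                (st 15 (.mul (sc 15) (sc 18))))).run s0 = s3 := by
      have e1 : (st 18 (.get 7 (.get 6 (sc 9) (ent 2)) (.lit 0))).run s0 = s1 := by
        rw [pgd_st, hval]
      have e2 : (st 14 (.add (.mul (sc 15) (.mul (sc 18) (.mul (sc 18) (sc 18))))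
                  (.mul (sc 11) (sc 14)))).run s1 = s2 := by
        rw [pgd_st, hval2]
      have e3 : (st 15 (.mul (sc 15) (sc 18))).run s2 = s3 := by
        rw [pgd_st, hval3]
      simp only [Cmd.run]
      rw [e1, e2, e3]
    rw [hrun]
    exact {
      a := hs3a
      n := by rw [hs3, pgd_wr_ne s2 0 0 _ (by omega)]; exact k9
      p := by rw [hlen]; exact pgd_wr_self s2 15 0 0 _
      q := by rw [hlen, hs3, pgd_wr_ne s2 0 0 _ (by omega)]; exact k14 }

/-- ROW PGD -/
theorem triD (I : Inst) (X Y : ℕ) : Tri (fun s => I.A3 s ∧ s 12 0 0 = X ∧ s 13 0 0 = Y) progD I.bd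
    (fun s => I.A3 s ∧ s 12 0 0 = X ∧ s 13 0 0 = Y * ∏ i ∈ range I.n1, I.FM i ∧
      ∀ i < I.n1, s 8 i 0 = I.FM i) := by
  have h := tri_loop (x := 9) (e := sc 0)
    (c := (.seq (st 15 (.lit 1))
      (.seq (st 14 (.lit 0))
        (.seq
          (.loop 10 (.get 2 (sc 9) (.lit 0))
            (.seq (st 18 (.get 7 (.get 6 (sc 9) (ent 2)) (.lit 0)))
              (.seq (st 14 (.add (.mul (sc 15) (.mul (sc 18) (.mul (sc 18) (sc 18))))
                  (.mul (sc 11) (sc 14))))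
                (st 15 (.mul (sc 15) (sc 18))))))
          (.seq (.put 8 (sc 9) (.lit 0) (.add (.lit 1) (.mul (sc 11) (sc 14))))
            (st 13 (.mul (sc 13) (.get 8 (sc 9) (.lit 0)))))))))
    (N := I.n1) (PgdJ I X Y) (fun i => 40 + 59 * (I.ml i).length) ?_ ?_
  · refine tri_weaken h ?_ ?_ ?_
    · rintro s ⟨h1, h2, h3⟩
      exact { a := h1, x := h2, y := by rw [h3, range_zero, prod_empty, mul_one],
              f := fun i' hi' => absurd hi' (Nat.not_lt_zero _) }
    · have e1 : ∀ i ∈ range I.n1, 1 + (40 + 59 * (I.ml i).length) =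
          41 + 59 * (I.ml i).length := fun i _ => by omega
      rw [sum_congr rfl e1, sum_add_distrib, sum_const, card_range, smul_eq_mul, ← mul_sum]
      show 3 + 1 + (I.n1 * 41 + 59 * I.m) ≤ _
      unfold Inst.bd
      omega
    · rintro s ⟨h1, h2, h3, h4⟩
      exact ⟨h1, h2, h3, h4⟩
  · intro s hs
    show s 0 0 0 = _
    exact hs.a.a.a.b.n1
  · intro i hi s hs
    set s0 := wr s 9 0 0 i with hs0
    have hs0a : PgdJ I X Y i s0 := hs.wr 9 0 0 i (by omega) (by omega) (by omega) (by omega)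
    have h9 : s0 9 0 0 = i := pgd_wr_self s 9 0 0 i
    have hlenM : (I.lM i).length = (I.ml i).length := by unfold Inst.lM; rw [List.length_map]
    -- body
    have t1 : Tri (fun s => PgdJ I X Y i s ∧ s 9 0 0 = i) (st 15 (.lit 1)) 4
        (fun s => PgdJ I X Y i s ∧ s 9 0 0 = i ∧ s 15 0 0 = 1) := by
      rintro s ⟨h1, h2⟩
      refine ⟨?_, le_refl _⟩
      rw [pgd_st]
      refine ⟨h1.wr 15 0 0 _ (by omega) (by omega) (by omega) (by omega), ?_, ?_⟩
      · rw [pgd_wr_ne s 0 0 _ (by omega)]; exact h2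
      · exact pgd_wr_self s 15 0 0 _
    have t2 : Tri (fun s => PgdJ I X Y i s ∧ s 9 0 0 = i ∧ s 15 0 0 = 1) (st 14 (.lit 0)) 4
        (PgdR I X Y i 0) := by
      rintro s ⟨h1, h2, h3⟩
      refine ⟨?_, le_refl _⟩
      rw [pgd_st]
      have hd : (I.lM i).drop ((I.ml i).length - 0) = [] := by
        rw [Nat.sub_zero, ← hlenM, List.drop_length]
      exact {
        a := h1.wr 14 0 0 _ (by omega) (by omega) (by omega) (by omega)
        n := by rw [pgd_wr_ne s 0 0 _ (by omega)]; exact h2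
        p := by rw [pgd_wr_ne s 0 0 _ (by omega), h3, hd]; rfl
        q := by rw [hd]; exact pgd_wr_self s 14 0 0 _ }
    have t3 := pgd_inner I X Y i
    have t4 : Tri (PgdR I X Y i (I.ml i).length)
        (.put 8 (sc 9) (.lit 0) (.add (.lit 1) (.mul (sc 11) (sc 14)))) 14
        (fun s => PgdJ I X Y i s ∧ s 9 0 0 = i ∧ s 8 i 0 = I.FM i) := by
      intro s hs
      refine ⟨?_, le_refl _⟩
      have hv : (Ex.add (.lit 1) (.mul (sc 11) (sc 14))).val s = I.FM i := by
        show 1 + s 11 0 0 * s 14 0 0 = _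
        rw [hs.a.a.a.Z, hs.q, Nat.sub_self, List.drop_zero, one_add_sm, hlenM]
        rfl
      have hrun : (Cmd.put 8 (sc 9) (.lit 0) (.add (.lit 1) (.mul (sc 11) (sc 14)))).run s =
          wr s 8 i 0 (I.FM i) := by
        show wr s 8 (s 9 0 0) 0 ((Ex.add (.lit 1) (.mul (sc 11) (sc 14))).val s) = _
        rw [hv, hs.n]
      rw [hrun]
      refine ⟨?_, ?_, pgd_wr_self s 8 i 0 _⟩
      · exact {
          a := pgd_A3_wr I 8 i 0 _ (by omega) (by omega) hs.a.a
          x := by rw [pgd_wr_ne s i 0 _ (by omega)]; exact hs.a.x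
          y := by rw [pgd_wr_ne s i 0 _ (by omega)]; exact hs.a.y
          f := fun k hk => by
            have : wr s 8 i 0 (I.FM i) 8 k 0 = s 8 k 0 := by
              unfold wr
              rw [if_neg (fun hh => by omega)]
            rw [this]; exact hs.a.f k hk }
      · rw [pgd_wr_ne s i 0 _ (by omega)]; exact hs.n
    have t5 : Tri (fun s => PgdJ I X Y i s ∧ s 9 0 0 = i ∧ s 8 i 0 = I.FM i)
        (st 13 (.mul (sc 13) (.get 8 (sc 9) (.lit 0)))) 12 (PgdJ I X Y (i + 1)) := by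
      rintro s ⟨h1, h2, h3⟩
      refine ⟨?_, le_refl _⟩
      have hv : (Ex.mul (sc 13) (.get 8 (sc 9) (.lit 0))).val s =
          Y * ∏ i' ∈ range (i + 1), I.FM i' := by
        show s 13 0 0 * s 8 (s 9 0 0) 0 = _
        rw [h1.y, h2, h3, prod_range_succ, mul_assoc]
      rw [pgd_st, hv]
      exact {
        a := pgd_A3_wr I 13 0 0 _ (by omega) (by omega) h1.a
        x := by rw [pgd_wr_ne s 0 0 _ (by omega)]; exact h1.x
        y := pgd_wr_self s 13 0 0 _
        f := fun k hk => by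
          rw [pgd_wr_ne s 0 0 _ (by omega)]
          rcases Nat.lt_succ_iff_lt_or_eq.1 hk with h | h
          · exact h1.f k h
          · rw [h]; exact h3 }
    obtain ⟨r1, r2⟩ := tri_seq t1 (tri_seq t2 (tri_seq t3 (tri_seq t4 t5))) s0 ⟨hs0a, h9⟩
    exact ⟨r1, r2.trans (by omega)⟩

end Pool.Agent.ESM
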