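import Pool.Agent.ESM.Core

/-!
# Egalitarian stable matchings: sums over the acceptable pairs
-/

set_option autoImplicit false

open Finset

namespace Pool.Agent.ESM

private theorem rei_getD (l : List ℕ) (j : ℕ) (h : j ∈ l) : l.getD (l.idxOf j) 0 = j := by
  rw [List.getD_eq_getElem _ _ (List.idxOf_lt_length_of_mem h), List.getElem_idxOf]

private theorem rei_mem (l : List ℕ) (a : ℕ) (h : a < l.length) : l.getD a 0 ∈ l := by
  rw [List.getD_eq_getElem _ _ h]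
  exact List.getElem_mem h

private theorem rei_idx (l : List ℕ) (hl : l.Nodup) (a : ℕ) (h : a < l.length) :
    l.idxOf (l.getD a 0) = a := by
  rw [List.getD_eq_getElem _ _ h]
  exact hl.idxOf_getElem a h

theorem mem_AP (I : Inst) (x : ℕ × ℕ) : x ∈ I.AP ↔ x.2 ∈ I.ml x.1 := by
  unfold Inst.AP
  rw [mem_filter, mem_product, mem_range, mem_range]
  refine ⟨fun h => h.2, fun h => ⟨⟨?_, ?_⟩, h⟩⟩
  · by_contra hn
    rw [I.hm _ (not_lt.1 hn)] at h
    simp at h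
  · by_contra hn
    have h2 := (I.sym _ _).1 h
    rw [I.hw _ (not_lt.1 hn)] at h2
    simp at h2

theorem sum_M (I : Inst) (f : ℕ → ℕ → ℕ → ℕ) :
    ∑ i ∈ range I.n1, ∑ a ∈ range (I.ml i).length, f i ((I.ml i).getD a 0) a =
      ∑ x ∈ I.AP, f x.1 x.2 ((I.ml x.1).idxOf x.2) := by
  rw [Finset.sum_sigma']
  refine Finset.sum_bij' (fun x _ => (x.1, (I.ml x.1).getD x.2 0))
    (fun y _ => ⟨y.1, (I.ml y.1).idxOf y.2⟩) ?_ ?_ ?_ ?_ ?_
  · rintro ⟨i, a⟩ hx
    rw [mem_sigma, mem_range, mem_range] at hx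
    rw [mem_AP]
    exact rei_mem _ _ hx.2
  · rintro ⟨i, j⟩ hy
    have hy2 := (mem_AP I _).1 hy
    rw [mem_sigma, mem_range, mem_range]
    refine ⟨?_, List.idxOf_lt_length_of_mem hy2⟩
    unfold Inst.AP at hy
    rw [mem_filter, mem_product, mem_range, mem_range] at hy
    exact hy.1.1
  · rintro ⟨i, a⟩ hx
    rw [mem_sigma, mem_range, mem_range] at hx
    show (⟨i, (I.ml i).idxOf ((I.ml i).getD a 0)⟩ : (_ : ℕ) × ℕ) = ⟨i, a⟩
    rw [rei_idx _ (I.ndm i) a hx.2]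
  · rintro ⟨i, j⟩ hy
    have hy2 := (mem_AP I _).1 hy
    show (i, (I.ml i).getD ((I.ml i).idxOf j) 0) = (i, j)
    rw [rei_getD _ _ hy2]
  · rintro ⟨i, a⟩ hx
    rw [mem_sigma, mem_range, mem_range] at hx
    show f i ((I.ml i).getD a 0) a = f i ((I.ml i).getD a 0) ((I.ml i).idxOf ((I.ml i).getD a 0))
    rw [rei_idx _ (I.ndm i) a hx.2]

theorem sum_W (I : Inst) (f : ℕ → ℕ → ℕ → ℕ) :
    ∑ j ∈ range I.n2, ∑ b ∈ range (I.wl j).length, f ((I.wl j).getD b 0) j b =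
      ∑ x ∈ I.AP, f x.1 x.2 ((I.wl x.2).idxOf x.1) := by
  rw [Finset.sum_sigma']
  refine Finset.sum_bij' (fun x _ => ((I.wl x.1).getD x.2 0, x.1))
    (fun y _ => ⟨y.2, (I.wl y.2).idxOf y.1⟩) ?_ ?_ ?_ ?_ ?_
  · rintro ⟨j, b⟩ hx
    rw [mem_sigma, mem_range, mem_range] at hx
    rw [mem_AP]
    exact (I.sym _ _).2 (rei_mem _ _ hx.2)
  · rintro ⟨i, j⟩ hy
    have hy2 := (I.sym _ _).1 ((mem_AP I _).1 hy)
    rw [mem_sigma, mem_range, mem_range]
    refine ⟨?_, List.idxOf_lt_length_of_mem hy2⟩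
    unfold Inst.AP at hy
    rw [mem_filter, mem_product, mem_range, mem_range] at hy
    exact hy.1.2
  · rintro ⟨j, b⟩ hx
    rw [mem_sigma, mem_range, mem_range] at hx
    show (⟨j, (I.wl j).idxOf ((I.wl j).getD b 0)⟩ : (_ : ℕ) × ℕ) = ⟨j, b⟩
    rw [rei_idx _ (I.ndw j) b hx.2]
  · rintro ⟨i, j⟩ hy
    have hy2 := (I.sym _ _).1 ((mem_AP I _).1 hy)
    show ((I.wl j).getD ((I.wl j).idxOf i) 0, j) = (i, j)
    rw [rei_getD _ _ hy2]
  · rintro ⟨j, b⟩ hx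
    rw [mem_sigma, mem_range, mem_range] at hx
    show f ((I.wl j).getD b 0) j b = f ((I.wl j).getD b 0) j ((I.wl j).idxOf ((I.wl j).getD b 0))
    rw [rei_idx _ (I.ndw j) b hx.2]

/-- double counting: every acceptable pair is in one list of a woman -/
theorem size_wl (I : Inst) : ∑ j ∈ range I.n2, (I.wl j).length = I.m := by
  have h1 := sum_M I (fun _ _ _ => 1)
  have h2 := sum_W I (fun _ _ _ => 1)
  simp only [Finset.sum_const, card_range, smul_eq_mul, mul_one] at h1 h2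
  unfold Inst.m
  rw [h1, h2]

end Pool.Agent.ESM
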