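import Pool.Agent.ESM.Core
import Pool.Agent.ESM.Exq
import Pool.Agent.ESM.Rei
import Pool.Agent.ESM.Num

/-!
# The factors of the women
-/

set_option autoImplicit false

open Finset

namespace Pool.Agent.ESM

private theorem PGE_ne (s : Mem) (b i j v b' : ℕ) (h : b' ≠ b) : wr s b i j v b' = s b' := by
  funext i' j'
  simp [wr, h]

private theorem PGE_self (s : Mem) (b v : ℕ) : wr s b 0 0 v b 0 0 = v := by
  simp [wr]

private theorem PGE_A3 (I : Inst) {s : Mem} (b i j v : ℕ)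
    (hb : b ≠ 0 ∧ b ≠ 1 ∧ b ≠ 2 ∧ b ≠ 3 ∧ b ≠ 5 ∧ b ≠ 6 ∧ b ≠ 7 ∧ b ≠ 11) (h : I.A3 s) :
    I.A3 (wr s b i j v) := by
  obtain ⟨b0, b1, b2, b3, b5, b6, b7, b11⟩ := hb
  have e0 := PGE_ne s b i j v 0 b0.symm
  have e1 := PGE_ne s b i j v 1 b1.symm
  have e2 := PGE_ne s b i j v 2 b2.symm
  have e3 := PGE_ne s b i j v 3 b3.symm
  have e5 := PGE_ne s b i j v 5 b5.symm
  have e6 := PGE_ne s b i j v 6 b6.symm
  have e7 := PGE_ne s b i j v 7 b7.symm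
  have e11 := PGE_ne s b i j v 11 b11.symm
  refine ⟨⟨⟨⟨?_, ?_, ?_, ?_, ?_, ?_⟩, ?_, ?_⟩, ?_⟩, ?_⟩
  · rw [e0]; exact h.a.a.b.n1
  · rw [e1]; exact h.a.a.b.n2
  · rw [e2]; exact h.a.a.b.ml0
  · rw [e2]; exact h.a.a.b.ml1
  · rw [e3]; exact h.a.a.b.wl0
  · rw [e3]; exact h.a.a.b.wl1
  · rw [e5]; exact h.a.a.m
  · rw [e6]; exact h.a.a.E
  · rw [e11]; exact h.a.Z
  · rw [e7]; exact h.PW

/-- the assertion in the inner loop -/
private def PGE_P (I : Inst) (X Y j : ℕ) (s : Mem) : Prop :=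
  I.A3 s ∧ s 12 0 0 = X ∧ s 13 0 0 = Y ∧ (∀ i < I.n1, s 8 i 0 = I.FM i) ∧ s 9 0 0 = j

private theorem PGE_P_wr (I : Inst) {X Y j : ℕ} {s : Mem} (b v : ℕ)
    (hb : b ≠ 0 ∧ b ≠ 1 ∧ b ≠ 2 ∧ b ≠ 3 ∧ b ≠ 5 ∧ b ≠ 6 ∧ b ≠ 7 ∧ b ≠ 11)
    (hb' : b ≠ 12 ∧ b ≠ 13 ∧ b ≠ 8 ∧ b ≠ 9) (h : PGE_P I X Y j s) :
    PGE_P I X Y j (wr s b 0 0 v) := by
  obtain ⟨b12, b13, b8, b9⟩ := hb'
  obtain ⟨h1, h2, h3, h4, h5⟩ := h
  refine ⟨PGE_A3 I b 0 0 v hb h1, ?_, ?_, ?_, ?_⟩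
  · rw [PGE_ne s b 0 0 v 12 b12.symm]; exact h2
  · rw [PGE_ne s b 0 0 v 13 b13.symm]; exact h3
  · rw [PGE_ne s b 0 0 v 8 b8.symm]; exact h4
  · rw [PGE_ne s b 0 0 v 9 b9.symm]; exact h5

private theorem PGE_drop (I : Inst) (j r : ℕ) (hr : r < (I.wl j).length) :
    (I.lW j).drop ((I.wl j).length - (r + 1)) =
      I.wt ((I.wl j).getD ((I.wl j).length - (r + 1)) 0) j ::
        (I.lW j).drop ((I.wl j).length - r) := by
  have hlen : (I.lW j).length = (I.wl j).length := List.length_map ..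
  have h1 : (I.wl j).length - (r + 1) < (I.lW j).length := by omega
  rw [List.drop_eq_getElem_cons h1]
  have h2 : (I.wl j).length - (r + 1) + 1 = (I.wl j).length - r := by omega
  rw [h2]
  congr 1
  unfold Inst.lW
  rw [List.getElem_map, List.getD_eq_getElem _ _ (by omega)]

private theorem PGE_val (I : Inst) {s : Mem} (h : I.A3 s) (j r : ℕ) (hr : r < (I.wl j).length) :
    s 7 (s 6 (s 3 j (s 3 j 0 - r)) j) 0 =
      I.Z ^ I.wt ((I.wl j).getD ((I.wl j).length - (r + 1)) 0) j := by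
  have h1 : (I.wl j).length - r = ((I.wl j).length - (r + 1)) + 1 := by omega
  rw [h.a.a.b.wl0 j, h1, h.a.a.b.wl1 j]
  have h2 : (I.wl j).getD ((I.wl j).length - (r + 1)) 0 ∈ I.wl j := by
    rw [List.getD_eq_getElem _ _ (by omega)]
    exact List.getElem_mem _
  have h3 : j ∈ I.ml ((I.wl j).getD ((I.wl j).length - (r + 1)) 0) := (I.sym _ _).2 h2
  rw [h.a.a.E _ _ h3, h.PW _ (num_lt I h3)]
  rfl

/-- the body of the inner loop -/
private def PGE_body : Cmd :=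
  .seq (st 18 (.get 7 (.get 6 (ent 3) (sc 9)) (.lit 0)))
    (.seq (st 14 (.add (.mul (sc 15) (.mul (.mul (sc 18) (sc 18)) (.mul (sc 18) (sc 18))))
        (.mul (sc 11) (sc 14))))
      (st 15 (.mul (sc 15) (sc 18))))

private theorem PGE_inner (I : Inst) (X Y j : ℕ) :
    Tri (fun s => PGE_P I X Y j s ∧ s 15 0 0 = 1 ∧ s 14 0 0 = 0)
      (.loop 10 (.get 3 (sc 9) (.lit 0)) PGE_body) (6 + 63 * (I.wl j).length)
      (fun s => PGE_P I X Y j s ∧ s 14 0 0 = sm I.Z 4 (I.lW j)) := by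
  have hlen : (I.lW j).length = (I.wl j).length := List.length_map ..
  let J : ℕ → Mem → Prop := fun r s => PGE_P I X Y j s ∧
    s 15 0 0 = I.Z ^ ((I.lW j).drop ((I.wl j).length - r)).sum ∧
    s 14 0 0 = sm I.Z 4 ((I.lW j).drop ((I.wl j).length - r))
  have hJ : Tri (J 0) (.loop 10 (.get 3 (sc 9) (.lit 0)) PGE_body)
      ((Ex.get 3 (sc 9) (.lit 0)).ops + 1 + ∑ _r ∈ range (I.wl j).length, (1 + 62))
      (J (I.wl j).length) := by
    refine tri_loop J (fun _ => 62) ?_ ?_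
    · rintro s ⟨⟨h1, h2, h3, h4, h5⟩, -, -⟩
      show s 3 (s 9 0 0) 0 = _
      rw [h5, h1.a.a.b.wl0]
    · rintro r hr s ⟨hP, h15, h14⟩
      have h9 : s 9 0 0 = j := hP.2.2.2.2
      have h11 : s 11 0 0 = I.Z := hP.1.a.Z
      have hV := PGE_val I hP.1 j r hr
      have hD := PGE_drop I j r hr
      generalize hw : I.wt ((I.wl j).getD ((I.wl j).length - (r + 1)) 0) j = w at hV hD
      generalize hl : (I.lW j).drop ((I.wl j).length - r) = l at *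
      have hrun : Cmd.run PGE_body (wr s 10 0 0 r) =
          wr (wr (wr (wr s 10 0 0 r) 18 0 0 (I.Z ^ w)) 14 0 0
            (s 15 0 0 * ((I.Z ^ w * I.Z ^ w) * (I.Z ^ w * I.Z ^ w)) + I.Z * s 14 0 0)) 15 0 0
            (s 15 0 0 * I.Z ^ w) := by
        simp only [PGE_body, Cmd.run, st, Ex.val, sc, ent, PGE_self]
        have n9 : wr s 10 0 0 r 9 = s 9 := PGE_ne _ _ _ _ _ _ (by decide)
        have n3 : wr s 10 0 0 r 3 = s 3 := PGE_ne _ _ _ _ _ _ (by decide)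
        have n6 : wr s 10 0 0 r 6 = s 6 := PGE_ne _ _ _ _ _ _ (by decide)
        have n7 : wr s 10 0 0 r 7 = s 7 := PGE_ne _ _ _ _ _ _ (by decide)
        rw [n9, n3, n6, n7, h9, hV]
        have a15 : ∀ v v', wr (wr (wr s 10 0 0 r) 18 0 0 v) 14 0 0 v' 15 = s 15 := fun v v' => by
          rw [PGE_ne _ _ _ _ _ _ (by decide), PGE_ne _ _ _ _ _ _ (by decide),
            PGE_ne _ _ _ _ _ _ (by decide)]
        have a15' : ∀ v, wr (wr s 10 0 0 r) 18 0 0 v 15 = s 15 := fun v => by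
          rw [PGE_ne _ _ _ _ _ _ (by decide), PGE_ne _ _ _ _ _ _ (by decide)]
        have a11 : ∀ v, wr (wr s 10 0 0 r) 18 0 0 v 11 = s 11 := fun v => by
          rw [PGE_ne _ _ _ _ _ _ (by decide), PGE_ne _ _ _ _ _ _ (by decide)]
        have a14 : ∀ v, wr (wr s 10 0 0 r) 18 0 0 v 14 = s 14 := fun v => by
          rw [PGE_ne _ _ _ _ _ _ (by decide), PGE_ne _ _ _ _ _ _ (by decide)]
        have a18 : ∀ v v', wr (wr (wr s 10 0 0 r) 18 0 0 v) 14 0 0 v' 18 0 0 = v := fun v v' => by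
          rw [PGE_ne _ _ _ _ _ _ (by decide), PGE_self]
        rw [a15, a15', a11, a14, a18, h11]
      refine ⟨⟨?_, ?_, ?_⟩, ?_⟩
      · rw [hrun]
        exact PGE_P_wr I 15 _ (by decide) (by decide) (PGE_P_wr I 14 _ (by decide) (by decide)
          (PGE_P_wr I 18 _ (by decide) (by decide) (PGE_P_wr I 10 _ (by decide) (by decide) hP)))
      · rw [hrun, PGE_self, hD, h15, List.sum_cons, pow_add, mul_comm]
      · rw [hrun, PGE_ne _ _ _ _ _ _ (by decide), PGE_self, hD, sm, h15, h14]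
        have h4 : I.Z ^ (l.sum + 4 * w) =
            I.Z ^ l.sum * ((I.Z ^ w * I.Z ^ w) * (I.Z ^ w * I.Z ^ w)) := by
          rw [pow_add, show 4 * w = (w + w) + (w + w) by ring, pow_add, pow_add]
        rw [h4]
      · simp [PGE_body, Cmd.cost, st, sc, ent, Ex.ops]
  refine tri_weaken hJ ?_ ?_ ?_
  · rintro s ⟨h1, h2, h3⟩
    refine ⟨h1, ?_, ?_⟩
    · rw [h2, Nat.sub_zero, ← hlen, List.drop_length]
      simp
    · rw [h3, Nat.sub_zero, ← hlen, List.drop_length]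
      rfl
  · rw [Finset.sum_const, Finset.card_range]
    simp only [Ex.ops, sc, smul_eq_mul]
    omega
  · rintro s ⟨h1, h2, h3⟩
    refine ⟨h1, ?_⟩
    rw [h3, Nat.sub_self, List.drop_zero]

private theorem PGE_outer (I : Inst) (X Y j : ℕ) :
    Tri (PGE_P I X Y j)
      (.seq (st 15 (.lit 1)) (.seq (st 14 (.lit 0)) (.seq
        (.loop 10 (.get 3 (sc 9) (.lit 0)) PGE_body)
        (st 13 (.mul (sc 13) (.add (.lit 1) (.mul (sc 11) (sc 14))))))))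
      (30 + 63 * (I.wl j).length)
      (fun s => I.A3 s ∧ s 12 0 0 = X ∧ s 13 0 0 = Y * I.FW j ∧ ∀ i < I.n1, s 8 i 0 = I.FM i) := by
  have t1 : Tri (PGE_P I X Y j) (st 15 (.lit 1)) 4
      (fun s => PGE_P I X Y j s ∧ s 15 0 0 = 1) := by
    intro s hs
    refine ⟨⟨?_, ?_⟩, ?_⟩
    · exact PGE_P_wr I 15 _ (by decide) (by decide) hs
    · exact PGE_self _ _ _
    · simp [Cmd.cost, st, Ex.ops]
  have t2 : Tri (fun s => PGE_P I X Y j s ∧ s 15 0 0 = 1) (st 14 (.lit 0)) 4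
      (fun s => PGE_P I X Y j s ∧ s 15 0 0 = 1 ∧ s 14 0 0 = 0) := by
    rintro s ⟨hs, h15⟩
    refine ⟨⟨?_, ?_, ?_⟩, ?_⟩
    · exact PGE_P_wr I 14 _ (by decide) (by decide) hs
    · show wr s 14 0 0 _ 15 0 0 = 1
      rw [PGE_ne _ _ _ _ _ _ (by decide)]
      exact h15
    · exact PGE_self _ _ _
    · simp [Cmd.cost, st, Ex.ops]
  have t3 := PGE_inner I X Y j
  have t4 : Tri (fun s => PGE_P I X Y j s ∧ s 14 0 0 = sm I.Z 4 (I.lW j))
      (st 13 (.mul (sc 13) (.add (.lit 1) (.mul (sc 11) (sc 14))))) 16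
      (fun s => I.A3 s ∧ s 12 0 0 = X ∧ s 13 0 0 = Y * I.FW j ∧
        ∀ i < I.n1, s 8 i 0 = I.FM i) := by
    rintro s ⟨⟨h1, h2, h3, h4, h5⟩, h14⟩
    have hFW : I.FW j = 1 + I.Z * sm I.Z 4 (I.lW j) := by
      have hlen : (I.lW j).length = (I.wl j).length := List.length_map ..
      rw [one_add_sm, hlen]
      rfl
    have hrun : Cmd.run (st 13 (.mul (sc 13) (.add (.lit 1) (.mul (sc 11) (sc 14))))) s =
        wr s 13 0 0 (s 13 0 0 * (1 + s 11 0 0 * s 14 0 0)) := rfl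
    rw [hrun]
    refine ⟨⟨PGE_A3 I 13 0 0 _ (by decide) h1, ?_, ?_, ?_⟩, ?_⟩
    · rw [PGE_ne _ _ _ _ _ _ (by decide)]; exact h2
    · rw [PGE_self, h3, h1.a.Z, h14, hFW]
    · intro i hi
      rw [PGE_ne _ _ _ _ _ _ (by decide)]; exact h4 i hi
    · simp [Cmd.cost, st, sc, Ex.ops]
  refine tri_weaken (tri_seq t1 (tri_seq t2 (tri_seq t3 t4))) (fun s h => h) ?_ (fun s h => h)
  omega

/-! ROW PGE (Pge.lean): the same with lW j, sm Z 4; cost: size_wl -/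
theorem triE (I : Inst) (X Y : ℕ) : Tri (fun s => I.A3 s ∧ s 12 0 0 = X ∧ s 13 0 0 = Y ∧
      ∀ i < I.n1, s 8 i 0 = I.FM i) progE I.bd
    (fun s => I.A3 s ∧ s 12 0 0 = X ∧ s 13 0 0 = Y * ∏ j ∈ range I.n2, I.FW j ∧
      ∀ i < I.n1, s 8 i 0 = I.FM i) := by
  let J : ℕ → Mem → Prop := fun j s => I.A3 s ∧ s 12 0 0 = X ∧
    s 13 0 0 = Y * ∏ j' ∈ range j, I.FW j' ∧ ∀ i < I.n1, s 8 i 0 = I.FM i
  have hJ : Tri (J 0) progE ((sc 1).ops + 1 + ∑ j ∈ range I.n2, (1 + (30 + 63 * (I.wl j).length)))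
      (J I.n2) := by
    refine tri_loop J (fun j => 30 + 63 * (I.wl j).length) ?_ ?_
    · rintro s ⟨h1, h2, h3, h4⟩
      exact h1.a.a.b.n2
    · rintro j hj s ⟨h1, h2, h3, h4⟩
      have h5 := PGE_outer I X (Y * ∏ j' ∈ range j, I.FW j') j (wr s 9 0 0 j)
        ⟨PGE_A3 I 9 0 0 _ (by decide) h1, by rw [PGE_ne _ _ _ _ _ _ (by decide)]; exact h2,
          by rw [PGE_ne _ _ _ _ _ _ (by decide)]; exact h3,
          fun i hi => by rw [PGE_ne _ _ _ _ _ _ (by decide)]; exact h4 i hi, PGE_self _ _ _⟩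
      refine ⟨⟨h5.1.1, h5.1.2.1, ?_, h5.1.2.2.2⟩, h5.2⟩
      rw [Finset.prod_range_succ, ← mul_assoc]
      exact h5.1.2.2.1
  refine tri_weaken hJ ?_ ?_ (fun s h => h)
  · rintro s ⟨h1, h2, h3, h4⟩
    exact ⟨h1, h2, by rw [h3, Finset.prod_range_zero, mul_one], h4⟩
  · rw [Finset.sum_add_distrib, Finset.sum_add_distrib, ← Finset.mul_sum, size_wl]
    simp only [Ex.ops, sc, Finset.sum_const, Finset.card_range, smul_eq_mul]
    unfold Inst.bd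
    omega

end Pool.Agent.ESM
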