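import Pool.Agent.ESM.Core

set_option autoImplicit false

open Finset Polynomial

namespace Pool.Agent.ESM

/-- the assertion `A3` does not depend on the arrays 10, 12, 16 -/
private theorem pgf_wr (I : Inst) (s : Mem) (b i j v : ℕ) (hb : b = 10 ∨ b = 12 ∨ b = 16)
    (h : I.A3 s) : I.A3 (wr s b i j v) := by
  have key : ∀ b', (b' ≠ 10 ∧ b' ≠ 12 ∧ b' ≠ 16) → ∀ i' j',
      wr s b i j v b' i' j' = s b' i' j' := by
    intro b' hb' i' j'
    unfold wr
    rw [if_neg]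
    rintro ⟨h1, -, -⟩
    omega
  refine ⟨⟨⟨⟨?_, ?_, ?_, ?_, ?_, ?_⟩, ?_, ?_⟩, ?_⟩, ?_⟩
  · rw [key 0 (by decide)]; exact h.a.a.b.n1
  · rw [key 1 (by decide)]; exact h.a.a.b.n2
  · intro i'; rw [key 2 (by decide)]; exact h.a.a.b.ml0 i'
  · intro i' a; rw [key 2 (by decide)]; exact h.a.a.b.ml1 i' a
  · intro j'; rw [key 3 (by decide)]; exact h.a.a.b.wl0 j'
  · intro j' a; rw [key 3 (by decide)]; exact h.a.a.b.wl1 j' a
  · rw [key 5 (by decide)]; exact h.a.a.m
  · intro i' j' hj; rw [key 6 (by decide)]; exact h.a.a.E i' j' hj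
  · rw [key 11 (by decide)]; exact h.a.Z
  · intro e he; rw [key 7 (by decide)]; exact h.PW e he

private theorem pgf_mod (x Z : ℕ) : x - x / Z * Z = x % Z := by
  have h := Nat.div_add_mod x Z
  rw [Nat.mul_comm] at h
  omega

theorem triF (I : Inst) (Y c0 : ℕ) (h0 : c0 ≤ 2 * I.m)
    (h1 : ∀ c < c0, Y / I.Z ^ (I.TGT + c) % I.Z = 0)
    (h2 : 0 < Y / I.Z ^ (I.TGT + c0) % I.Z) :
    Tri (fun s => I.A3 s ∧ s 12 0 0 = I.Z ^ I.TGT ∧ s 13 0 0 = Y ∧
      ∀ i < I.n1, s 8 i 0 = I.FM i) progF I.bd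
    (fun s => I.A3 s ∧ s 12 0 0 = I.Z ^ (I.TGT + c0) ∧ s 13 0 0 = Y ∧
      ∀ i < I.n1, s 8 i 0 = I.FM i) := by
  let J : ℕ → Mem → Prop := fun r s => I.A3 s ∧ s 12 0 0 = I.Z ^ (I.TGT + min r c0) ∧
    s 13 0 0 = Y ∧ (∀ i < I.n1, s 8 i 0 = I.FM i) ∧
    s 16 0 0 = Y / I.Z ^ (I.TGT + min r c0)
  have hfirst : Tri (fun s => I.A3 s ∧ s 12 0 0 = I.Z ^ I.TGT ∧ s 13 0 0 = Y ∧
      ∀ i < I.n1, s 8 i 0 = I.FM i) (st 16 (.div (sc 13) (sc 12))) 10 (J 0) := by
    rintro s ⟨a1, a2, a3, a4⟩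
    refine ⟨⟨pgf_wr I s 16 _ _ _ (by simp) a1, ?_, ?_, ?_, ?_⟩, ?_⟩
    · simp [Cmd.run, st, wr, a2]
    · simp [Cmd.run, st, wr, a3]
    · intro i hi
      simp [Cmd.run, st, wr, a4 i hi]
    · simp [Cmd.run, Ex.val, sc, st, wr, a2, a3]
    · simp [Cmd.cost, Ex.ops, sc, st]
  have hstep : ∀ r < 2 * I.m, ∀ s, J r s →
      J (r + 1) ((Cmd.ifLt (.sub (sc 16) (.mul (.div (sc 16) (sc 11)) (sc 11))) (.lit 1)
        (.seq (st 16 (.div (sc 16) (sc 11))) (st 12 (.mul (sc 12) (sc 11))))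
        .skip).run (wr s 10 0 0 r)) ∧
      (Cmd.ifLt (.sub (sc 16) (.mul (.div (sc 16) (sc 11)) (sc 11))) (.lit 1)
        (.seq (st 16 (.div (sc 16) (sc 11))) (st 12 (.mul (sc 12) (sc 11))))
        .skip).cost (wr s 10 0 0 r) ≤ 40 := by
    rintro r - s ⟨a1, a2, a3, a4, a5⟩
    have hZ := a1.a.Z
    have b1 : I.A3 (wr s 10 0 0 r) := pgf_wr I s 10 0 0 r (by simp) a1
    have b2 : ∀ b, b ≠ 10 → ∀ i j, wr s 10 0 0 r b i j = s b i j := by
      intro b hb i j
      simp [wr, hb]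
    generalize wr s 10 0 0 r = t at b1 b2
    have c11 : t 11 0 0 = I.Z := by rw [b2 11 (by decide)]; exact hZ
    have c12 : t 12 0 0 = I.Z ^ (I.TGT + min r c0) := by rw [b2 12 (by decide)]; exact a2
    have c13 : t 13 0 0 = Y := by rw [b2 13 (by decide)]; exact a3
    have c16 : t 16 0 0 = Y / I.Z ^ (I.TGT + min r c0) := by rw [b2 16 (by decide)]; exact a5
    have c8 : ∀ i < I.n1, t 8 i 0 = I.FM i := by
      intro i hi; rw [b2 8 (by decide)]; exact a4 i hi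
    have hval : (Ex.sub (sc 16) (.mul (.div (sc 16) (sc 11)) (sc 11))).val t =
        Y / I.Z ^ (I.TGT + min r c0) % I.Z := by
      simp only [Ex.val, sc, c11, c16]
      exact pgf_mod _ _
    constructor
    · by_cases hr : r < c0
      · have hm : min r c0 = r := min_eq_left hr.le
        have hm' : min (r + 1) c0 = r + 1 := min_eq_left hr
        rw [hm] at hval c12 c16
        rw [h1 r hr] at hval
        simp only [Cmd.run]
        rw [if_pos (by rw [hval]; simp [Ex.val])]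
        refine ⟨?_, ?_, ?_, ?_, ?_⟩
        · exact pgf_wr I _ 12 _ _ _ (by simp) (pgf_wr I _ 16 _ _ _ (by simp) b1)
        · rw [hm']
          simp [Cmd.run, Ex.val, sc, st, wr, c11, c12]
          ring
        · simp [Cmd.run, Ex.val, sc, st, wr, c13]
        · intro i hi
          simp [Cmd.run, Ex.val, sc, st, wr, c8 i hi]
        · rw [hm']
          simp [Cmd.run, Ex.val, sc, st, wr, c11, c16]
          rw [Nat.div_div_eq_div_mul, ← pow_succ, Nat.add_assoc]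
      · have hm : min r c0 = c0 := min_eq_right (by omega)
        have hm' : min (r + 1) c0 = c0 := min_eq_right (by omega)
        rw [hm] at hval c12 c16
        simp only [Cmd.run]
        rw [if_neg (by rw [hval]; simp only [Ex.val]; omega)]
        exact ⟨b1, by rw [hm']; exact c12, c13, c8, by rw [hm']; exact c16⟩
    · simp only [Cmd.cost, Ex.ops, sc, st]
      split_ifs <;> omega
  have hloop := tri_loop (x := 10) (e := .mul (.lit 2) (sc 5)) (N := 2 * I.m) J (fun _ => 40)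
    (by
      rintro s ⟨a1, -⟩
      simp [Ex.val, sc, a1.a.a.m]) hstep
  refine tri_weaken (tri_seq hfirst hloop) (fun s hs => hs) ?_ ?_
  · simp only [sum_const, card_range, smul_eq_mul, Ex.ops, sc]
    unfold Inst.bd
    omega
  · rintro s ⟨a1, a2, a3, a4, -⟩
    rw [min_eq_right h0] at a2
    exact ⟨a1, a2, a3, a4⟩

end Pool.Agent.ESM
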