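import Pool.Agent.ESM.Core

set_option autoImplicit false

open Finset Polynomial

namespace Pool.Agent.ESM

theorem coeff_mul_pos (f g : ℕ[X]) (N : ℕ) :
    (f * g).coeff N ≠ 0 ↔ ∃ a b, a + b = N ∧ f.coeff a ≠ 0 ∧ g.coeff b ≠ 0 := by
  rw [Polynomial.coeff_mul]
  constructor
  · intro h
    obtain ⟨x, hx, hne⟩ := Finset.exists_ne_zero_of_sum_ne_zero h
    exact ⟨x.1, x.2, Finset.HasAntidiagonal.mem_antidiagonal.mp hx, left_ne_zero_of_mul hne,
      right_ne_zero_of_mul hne⟩
  · rintro ⟨a, b, hab, ha, hb⟩ hc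
    rw [Finset.sum_eq_zero_iff] at hc
    have h1 := hc (a, b) (Finset.HasAntidiagonal.mem_antidiagonal.mpr hab)
    rcases mul_eq_zero.mp h1 with h2 | h2
    · exact ha h2
    · exact hb h2

theorem coeff_prod_pos (n : ℕ) (F : ℕ → ℕ[X]) (N : ℕ) :
    (∏ i ∈ range n, F i).coeff N ≠ 0 ↔
      ∃ u : ℕ → ℕ, (∀ i < n, (F i).coeff (u i) ≠ 0) ∧ ∑ i ∈ range n, u i = N := by
  induction n generalizing N with
  | zero =>
    rw [Finset.range_zero, Finset.prod_empty, Polynomial.coeff_one]
    constructor
    · intro h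
      refine ⟨fun _ => 0, fun i hi => absurd hi (Nat.not_lt_zero i), ?_⟩
      rw [Finset.sum_empty]
      by_contra hc
      exact h (if_neg (fun h' => hc h'.symm))
    · rintro ⟨u, _, hu⟩
      rw [Finset.sum_empty] at hu
      rw [if_pos hu.symm]
      exact one_ne_zero
  | succ n ih =>
    rw [Finset.prod_range_succ, coeff_mul_pos]
    constructor
    · rintro ⟨a, b, hab, ha, hb⟩
      obtain ⟨u, hu1, hu2⟩ := (ih a).mp ha
      refine ⟨fun i => if i < n then u i else b, ?_, ?_⟩
      · intro i hi
        by_cases h : i < n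
        · simp only [h, if_true]
          exact hu1 i h
        · have : i = n := by omega
          subst this
          simp only [lt_irrefl, if_false]
          exact hb
      · rw [Finset.sum_range_succ]
        simp only [lt_irrefl, if_false]
        rw [← hab, ← hu2]
        congr 1
        apply Finset.sum_congr rfl
        intro i hi
        rw [if_pos (Finset.mem_range.mp hi)]
    · rintro ⟨u, hu1, hu2⟩
      refine ⟨∑ i ∈ range n, u i, u n, ?_, (ih _).mpr ⟨u, fun i hi => hu1 i (by omega), rfl⟩,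
        hu1 n (by omega)⟩
      rw [← hu2, Finset.sum_range_succ]

end Pool.Agent.ESM
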