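import Pool.Agent.ESM.Ext
import Pool.Agent.ESM.Pos
import Pool.Agent.ESM.Crd

/-!
# Egalitarian stable matchings: the test
-/

set_option autoImplicit false

open Finset Polynomial

namespace Pool.Agent.ESM

private theorem tst_coeff (s : Finset ℕ) (g : ℕ → ℕ) (v : ℕ) :
    (∑ a ∈ s, (X : ℕ[X]) ^ g a).coeff v ≠ 0 ↔ ∃ a ∈ s, g a = v := by
  rw [finsetSum_coeff]
  simp only [coeff_X_pow]
  constructor
  · intro h
    obtain ⟨a, ha, h1⟩ := Finset.exists_ne_zero_of_sum_ne_zero h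
    refine ⟨a, ha, ?_⟩
    by_contra hne
    rw [if_neg fun e => hne e.symm] at h1
    exact h1 rfl
  · rintro ⟨a, ha, h1⟩ h0
    have h2 := Finset.sum_eq_zero_iff.1 h0 a ha
    rw [if_pos h1.symm] at h2
    exact one_ne_zero h2

private theorem tst_prod (n : ℕ) (s : ℕ → Finset ℕ) (g : ℕ → ℕ → ℕ) (N : ℕ) :
    (∏ i ∈ range n, ∑ a ∈ s i, (X : ℕ[X]) ^ g i a).coeff N ≠ 0 ↔
      ∃ p : ℕ → ℕ, (∀ i < n, p i ∈ s i) ∧ ∑ i ∈ range n, g i (p i) = N := by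
  rw [coeff_prod_pos]
  constructor
  · rintro ⟨u, h1, h2⟩
    have h3 : ∀ i, ∃ a, i < n → a ∈ s i ∧ g i a = u i := by
      intro i
      by_cases hi : i < n
      · obtain ⟨a, ha, hau⟩ := (tst_coeff (s i) (g i) (u i)).1 (h1 i hi)
        exact ⟨a, fun _ => ⟨ha, hau⟩⟩
      · exact ⟨0, fun h => absurd h hi⟩
    choose p hp using h3
    refine ⟨p, fun i hi => (hp i hi).1, ?_⟩
    rw [← h2]
    exact sum_congr rfl fun i hi => (hp i (mem_range.1 hi)).2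
  · rintro ⟨p, h1, h2⟩
    exact ⟨fun i => g i (p i), fun i hi => (tst_coeff (s i) (g i) _).2 ⟨p i, h1 i hi, rfl⟩, h2⟩

private theorem tst_eval (n : ℕ) (s : ℕ → Finset ℕ) (g : ℕ → ℕ → ℕ) (z : ℕ) :
    (∏ i ∈ range n, ∑ a ∈ s i, (X : ℕ[X]) ^ g i a).eval z =
      ∏ i ∈ range n, ∑ a ∈ s i, z ^ g i a := by
  rw [eval_prod]
  refine prod_congr rfl fun i _ => ?_
  rw [eval_finsetSum]
  refine sum_congr rfl fun a _ => ?_
  rw [eval_pow, eval_X]

/-- ROW TST -/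
theorem test (I : Inst) (t : ℕ → Finset ℕ) (ht : ∀ i < I.n1, t i ⊆ I.full i) (N : ℕ) :
    0 < I.PT t / I.Z ^ N % I.Z ↔ I.Sol t N := by
  obtain ⟨A, hA⟩ : ∃ A : ℕ[X],
    A = ∏ i ∈ range I.n1, ∑ a ∈ t i, (X : ℕ[X]) ^ ex 3 (I.lM i) a := ⟨_, rfl⟩
  obtain ⟨B, hB⟩ : ∃ B : ℕ[X], B = ∏ j ∈ range I.n2,
    ∑ a ∈ range ((I.wl j).length + 1), (X : ℕ[X]) ^ ex 4 (I.lW j) a := ⟨_, rfl⟩
  obtain ⟨C, hC⟩ : ∃ C : ℕ[X], C = ∏ e ∈ range I.m,
    ∑ a ∈ ({0, 5, 6} : Finset ℕ), (X : ℕ[X]) ^ (a * (I.K * 16 ^ e)) := ⟨_, rfl⟩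
  have e1 : (A * (B * C)).eval I.Z = I.PT t := by
    rw [eval_mul, eval_mul, hA, hB, hC, tst_eval, tst_eval, tst_eval]
    unfold Inst.PT Inst.CW
    congr 2
    refine prod_congr rfl fun e _ => ?_
    rw [sum_insert (by decide), sum_insert (by decide), sum_singleton, zero_mul, pow_zero,
      ← add_assoc]
    rfl
  have e2 : (A * (B * C)).eval 1 < I.Z := by
    refine lt_of_le_of_lt ?_ (card_lt I)
    rw [eval_mul, eval_mul, hA, hB, hC, tst_eval, tst_eval, tst_eval]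
    refine Nat.mul_le_mul ?_ (Nat.mul_le_mul ?_ ?_)
    · refine prod_le_prod (fun _ _ => Nat.zero_le _) fun i hi => ?_
      simp only [one_pow, sum_const, smul_eq_mul, mul_one]
      refine (card_le_card (ht i (mem_range.1 hi))).trans (le_of_eq ?_)
      exact card_range _
    · refine prod_le_prod (fun _ _ => Nat.zero_le _) fun j _ => ?_
      simp only [one_pow, sum_const, smul_eq_mul, mul_one, card_range]
      exact le_rfl
    · refine le_of_eq ?_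
      simp only [one_pow, sum_const, smul_eq_mul, mul_one]
      rw [prod_const, card_range]
      rfl
  rw [← e1, coeff_extract _ _ _ e2, Nat.pos_iff_ne_zero, coeff_mul_pos]
  constructor
  · rintro ⟨a, b, hab, ha, hb⟩
    obtain ⟨b', c, hbc, hb', hc⟩ := (coeff_mul_pos B C b).1 hb
    rw [hA] at ha
    rw [hB] at hb'
    rw [hC] at hc
    obtain ⟨p, hp1, hp2⟩ := (tst_prod _ _ _ _).1 ha
    obtain ⟨q, hq1, hq2⟩ := (tst_prod _ _ _ _).1 hb'
    obtain ⟨z, hz1, hz2⟩ := (tst_prod _ _ _ _).1 hc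
    refine ⟨p, q, z, hp1, fun j hj => Nat.lt_succ_iff.1 (mem_range.1 (hq1 j hj)),
      fun e he => ?_, ?_⟩
    · have h := hz1 e he
      rw [mem_insert, mem_insert, mem_singleton] at h
      exact h
    · rw [hp2, hq2, hz2]
      omega
  · rintro ⟨p, q, z, h1, h2, h3, h4⟩
    have k1 : A.coeff (∑ i ∈ range I.n1, ex 3 (I.lM i) (p i)) ≠ 0 := by
      rw [hA]
      exact (tst_prod _ _ _ _).2 ⟨p, h1, rfl⟩
    have k2 : B.coeff (∑ j ∈ range I.n2, ex 4 (I.lW j) (q j)) ≠ 0 := by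
      rw [hB]
      exact (tst_prod _ _ _ _).2 ⟨q, fun j hj => mem_range.2 (Nat.lt_succ_iff.2 (h2 j hj)), rfl⟩
    have k3 : C.coeff (∑ e ∈ range I.m, z e * (I.K * 16 ^ e)) ≠ 0 := by
      rw [hC]
      refine (tst_prod _ _ _ _).2 ⟨z, fun e he => ?_, rfl⟩
      rw [mem_insert, mem_insert, mem_singleton]
      exact h3 e he
    exact ⟨_, _, by rw [← h4, add_assoc], k1, (coeff_mul_pos B C _).2 ⟨_, _, rfl, k2, k3⟩⟩

end Pool.Agent.ESM
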