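import Pool.Agent.ESM.Num
import Pool.Agent.ESM.Tst
import Pool.Agent.ESM.Chs

/-!
# Egalitarian stable matchings: the decoding loop
-/

set_option autoImplicit false

open Finset

namespace Pool.Agent.ESM

/-- the code of the state `a` of the man `i` -/
def pggCode (I : Inst) (i a : ℕ) : ℕ :=
  if a < (I.ml i).length then (I.ml i).getD a 0 + 1 else 0

/-- the unchanged part of the memory -/
structure PggG (I : Inst) (N i X : ℕ) (q : ℕ → ℕ) (s : Mem) : Prop where
  a : I.A3 s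
  h12 : s 12 0 0 = I.Z ^ N
  h8 : ∀ i < I.n1, s 8 i 0 = I.FM i
  h9 : s 9 0 0 = i
  h13 : s 13 0 0 = X
  h4 : ∀ i' < i, s 4 i' 0 = q i'

/-- the best state found so far -/
def PggBest (I : Inst) (t : ℕ → Finset ℕ) (N i r x y : ℕ) : Prop :=
  ∃ a ≤ (I.ml i).length, x = I.Z ^ ex 3 (I.lM i) a ∧ y = pggCode I i a ∧
    (a = (I.ml i).length ∨ I.Sol (Function.update t i {a}) N) ∧
    (a = (I.ml i).length → ∀ b, (I.ml i).length ≤ b + r → b < (I.ml i).length →
      ¬ I.Sol (Function.update t i {b}) N)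

theorem pgg_a3_wr {I : Inst} {s : Mem} (h : I.A3 s) {b x y v : ℕ} (h0 : b ≠ 0) (h1 : b ≠ 1)
    (h2 : b ≠ 2) (h3 : b ≠ 3) (h5 : b ≠ 5) (h6 : b ≠ 6) (h7 : b ≠ 7) (h11 : b ≠ 11) :
    I.A3 (wr s b x y v) := by
  have key : ∀ b' i' j', b ≠ b' → wr s b x y v b' i' j' = s b' i' j' := by
    intro b' i' j' hb
    unfold wr
    rw [if_neg]
    rintro ⟨h, -⟩
    exact hb h.symm
  exact ⟨⟨⟨⟨by rw [key _ _ _ h0]; exact h.a.a.b.n1, by rw [key _ _ _ h1]; exact h.a.a.b.n2,
    fun i => by rw [key _ _ _ h2]; exact h.a.a.b.ml0 i,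
    fun i a => by rw [key _ _ _ h2]; exact h.a.a.b.ml1 i a,
    fun i => by rw [key _ _ _ h3]; exact h.a.a.b.wl0 i,
    fun i a => by rw [key _ _ _ h3]; exact h.a.a.b.wl1 i a⟩,
    by rw [key _ _ _ h5]; exact h.a.a.m,
    fun i j hij => by rw [key _ _ _ h6]; exact h.a.a.E i j hij⟩,
    by rw [key _ _ _ h11]; exact h.a.Z⟩,
    fun e he => by rw [key _ _ _ h7]; exact h.PW e he⟩

theorem pgg_wr_ne {s : Mem} {b x y v b' i' j' : ℕ} (h : b' ≠ b) :
    wr s b x y v b' i' j' = s b' i' j' := by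
  unfold wr
  rw [if_neg]
  rintro ⟨h', -⟩
  exact h h'

theorem pgg_wr_eq {s : Mem} {b x y v : ℕ} : wr s b x y v b x y = v := by
  unfold wr
  rw [if_pos ⟨rfl, rfl, rfl⟩]

theorem pgg_wr {I : Inst} {N i X : ℕ} {q : ℕ → ℕ} {s : Mem} (h : PggG I N i X q s) {b x y v : ℕ}
    (hb : b = 10 ∨ b = 15 ∨ b = 16 ∨ b = 17 ∨ b = 18 ∨ b = 19 ∨ b = 22) :
    PggG I N i X q (wr s b x y v) := by
  refine ⟨pgg_a3_wr h.a (by omega) (by omega) (by omega) (by omega) (by omega) (by omega)
    (by omega) (by omega), ?_, fun i hi => ?_, ?_, ?_, fun i' hi' => ?_⟩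
  · rw [pgg_wr_ne (by omega)]; exact h.h12
  · rw [pgg_wr_ne (by omega)]; exact h.h8 i hi
  · rw [pgg_wr_ne (by omega)]; exact h.h9
  · rw [pgg_wr_ne (by omega)]; exact h.h13
  · rw [pgg_wr_ne (by omega)]; exact h.h4 i' hi'

theorem pgg_wr4 {I : Inst} {N i X : ℕ} {q : ℕ → ℕ} {s : Mem} (h : PggG I N i X q s) {v : ℕ} :
    PggG I N i X q (wr s 4 i 0 v) := by
  refine ⟨pgg_a3_wr h.a (by omega) (by omega) (by omega) (by omega) (by omega) (by omega)
    (by omega) (by omega), ?_, fun i hi => ?_, ?_, ?_, fun i' hi' => ?_⟩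
  · rw [pgg_wr_ne (by omega)]; exact h.h12
  · rw [pgg_wr_ne (by omega)]; exact h.h8 i hi
  · rw [pgg_wr_ne (by omega)]; exact h.h9
  · rw [pgg_wr_ne (by omega)]; exact h.h13
  · unfold wr
    rw [if_neg (by omega)]
    exact h.h4 i' hi'

theorem pgg_wr13 {I : Inst} {N i X : ℕ} {q : ℕ → ℕ} {s : Mem} (h : PggG I N i X q s) {v : ℕ} :
    PggG I N i v q (wr s 13 0 0 v) := by
  refine ⟨pgg_a3_wr h.a (by omega) (by omega) (by omega) (by omega) (by omega) (by omega)
    (by omega) (by omega), ?_, fun i hi => ?_, ?_, ?_, fun i' hi' => ?_⟩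
  · rw [pgg_wr_ne (by omega)]; exact h.h12
  · rw [pgg_wr_ne (by omega)]; exact h.h8 i hi
  · rw [pgg_wr_ne (by omega)]; exact h.h9
  · exact pgg_wr_eq
  · rw [pgg_wr_ne (by omega)]; exact h.h4 i' hi'

theorem pgg_sc {s : Mem} {x : ℕ} : (sc x).val s = s x 0 0 := rfl

theorem pgg_st {s : Mem} {x : ℕ} {e : Ex} : (st x e).run s = wr s x 0 0 (e.val s) := rfl

theorem pgg_stcost {s : Mem} {x : ℕ} {e : Ex} : (st x e).cost s = 3 + e.ops := by
  simp only [st, Cmd.cost, Ex.ops]
  omega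

theorem pgg_seq {s : Mem} {c d : Cmd} : (Cmd.seq c d).run s = d.run (c.run s) := rfl

theorem pgg_seqcost {s : Mem} {c d : Cmd} :
    (Cmd.seq c d).cost s = c.cost s + d.cost (c.run s) := rfl

/-- the first inner loop -/
theorem pgg_loop1 (I : Inst) (N i X : ℕ) (q : ℕ → ℕ) :
    Tri (fun s => PggG I N i X q s ∧ s 15 0 0 = 1 ∧ s 17 0 0 = 1 ∧ s 19 0 0 = 1 ∧ s 4 i 0 = 0)
      (.loop 10 (.get 2 (sc 9) (.lit 0)) (st 17 (.mul (sc 17) (sc 11))))
      (7 + 20 * (I.ml i).length)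
      (fun s => PggG I N i X q s ∧ s 15 0 0 = 1 ∧ s 17 0 0 = I.Z ^ (I.ml i).length ∧
        s 19 0 0 = 1 ∧ s 4 i 0 = 0) := by
  have h := tri_loop (x := 10) (e := .get 2 (sc 9) (.lit 0)) (c := st 17 (.mul (sc 17) (sc 11)))
    (N := (I.ml i).length)
    (fun r s => PggG I N i X q s ∧ s 15 0 0 = 1 ∧ s 17 0 0 = I.Z ^ r ∧ s 19 0 0 = 1 ∧
      s 4 i 0 = 0) (fun _ => 10) (by
      rintro s ⟨h1, -⟩
      change s 2 (s 9 0 0) 0 = _
      rw [h1.h9]
      exact h1.a.a.a.b.ml0 i) (by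
      rintro r hr s ⟨h1, h2, h3, h4, h5⟩
      refine ⟨⟨?_, ?_, ?_, ?_, ?_⟩, ?_⟩
      · rw [pgg_st]
        exact pgg_wr (pgg_wr h1 (by omega)) (by omega)
      · rw [pgg_st, pgg_wr_ne (by omega), pgg_wr_ne (by omega)]
        exact h2
      · rw [pgg_st, pgg_wr_eq]
        change (wr s 10 0 0 r) 17 0 0 * (wr s 10 0 0 r) 11 0 0 = _
        rw [pgg_wr_ne (by omega), pgg_wr_ne (by omega), h3, h1.a.a.Z, pow_succ]
      · rw [pgg_st, pgg_wr_ne (by omega), pgg_wr_ne (by omega)]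
        exact h4
      · rw [pgg_st, pgg_wr_ne (by omega), pgg_wr_ne (by omega)]
        exact h5
      · rw [pgg_stcost]
        simp [Ex.ops, sc])
  refine tri_weaken h ?_ ?_ ?_
  · rintro s ⟨h1, h2, h3, h4, h5⟩
    exact ⟨h1, h2, by rw [h3, pow_zero], h4, h5⟩
  · rw [Finset.sum_const, card_range, smul_eq_mul]
    simp only [Ex.ops, sc]
    omega
  · intro s hs
    exact hs

/-- the body of the second inner loop -/
def pggBody : Cmd :=
  .seq (st 18 (.get 7 (.get 6 (sc 9) (ent 2)) (.lit 0)))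
    (.seq (st 22 (.mul (.mul (sc 15) (.mul (sc 18) (.mul (sc 18) (sc 18))))
        (sc 17)))
      (.seq (st 16 (.div (.mul (sc 13) (sc 22)) (sc 12)))
        (.seq
          (.ifLt (.lit 0) (.sub (sc 16) (.mul (.div (sc 16) (sc 11)) (sc 11)))
            (.seq (st 19 (sc 22))
              (.put 4 (sc 9) (.lit 0) (.add (ent 2) (.lit 1))))
            .skip)
          (.seq (st 15 (.mul (sc 15) (sc 18)))
            (st 17 (.div (sc 17) (sc 11)))))))

theorem pgg_Zpos (I : Inst) : 0 < I.Z := by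
  unfold Inst.Z
  positivity

theorem pgg_drop {l : List ℕ} {a : ℕ} (h : a < l.length) :
    (l.drop a).sum = l.getD a 0 + (l.drop (a + 1)).sum := by
  rw [List.drop_eq_getElem_cons h, List.sum_cons, List.getD_eq_getElem _ _ h]

theorem pgg_ex (c : ℕ) {l : List ℕ} {a : ℕ} (h : a < l.length) :
    ex c l a = a + 1 + c * l.getD a 0 + (l.drop (a + 1)).sum := by
  unfold ex
  rw [if_pos h]

theorem pgg_exlen (c : ℕ) (l : List ℕ) : ex c l l.length = 0 := by
  unfold ex
  rw [if_neg (lt_irrefl _)]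

theorem pgg_lM (I : Inst) (i : ℕ) : (I.lM i).length = (I.ml i).length := by
  unfold Inst.lM
  rw [List.length_map]

theorem pgg_lMget (I : Inst) {i a : ℕ} (h : a < (I.ml i).length) :
    (I.lM i).getD a 0 = I.wt i ((I.ml i).getD a 0) := by
  have h' : a < (I.lM i).length := by rw [pgg_lM]; exact h
  rw [List.getD_eq_getElem _ _ h', List.getD_eq_getElem _ _ h]
  unfold Inst.lM
  rw [List.getElem_map]

theorem pgg_ent (I : Inst) {N i X : ℕ} {q : ℕ → ℕ} {s : Mem} (h : PggG I N i X q s) {a r : ℕ}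
    (hr : s 10 0 0 = r) (har : a + r + 1 = (I.ml i).length) :
    (ent 2).val s = (I.ml i).getD a 0 := by
  change s 2 (s 9 0 0) (s 2 (s 9 0 0) 0 - s 10 0 0) = _
  rw [h.h9, h.a.a.a.b.ml0, hr]
  have h1 : (I.ml i).length - r = a + 1 := by omega
  rw [h1, h.a.a.a.b.ml1]

theorem pgg_body (I : Inst) {N i : ℕ} {q : ℕ → ℕ} {t : ℕ → Finset ℕ}
    (ht : ∀ i < I.n1, t i ⊆ I.full i) (hti : t i = I.full i) (hi : i < I.n1) {r : ℕ}
    (hr : r < (I.ml i).length) (s : Mem)
    (h : PggG I N i (I.PT t / I.FM i) q s ∧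
      s 15 0 0 = I.Z ^ ((I.lM i).drop ((I.ml i).length - r)).sum ∧
      s 17 0 0 = I.Z ^ ((I.ml i).length - r) ∧ PggBest I t N i r (s 19 0 0) (s 4 i 0)) :
    (PggG I N i (I.PT t / I.FM i) q (pggBody.run (wr s 10 0 0 r)) ∧
      (pggBody.run (wr s 10 0 0 r)) 15 0 0 =
        I.Z ^ ((I.lM i).drop ((I.ml i).length - (r + 1))).sum ∧
      (pggBody.run (wr s 10 0 0 r)) 17 0 0 = I.Z ^ ((I.ml i).length - (r + 1)) ∧
      PggBest I t N i (r + 1) ((pggBody.run (wr s 10 0 0 r)) 19 0 0)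
        ((pggBody.run (wr s 10 0 0 r)) 4 i 0)) ∧
    pggBody.cost (wr s 10 0 0 r) ≤ 200 := by
  obtain ⟨h1, h2, h3, h4⟩ := h
  obtain ⟨a, har⟩ : ∃ a, a + r + 1 = (I.ml i).length := ⟨(I.ml i).length - r - 1, by omega⟩
  have ha : a < (I.ml i).length := by omega
  have e1 : (I.ml i).length - r = a + 1 := by omega
  have e2 : (I.ml i).length - (r + 1) = a := by omega
  rw [e1] at h2 h3
  rw [e2]
  set j := (I.ml i).getD a 0 with hj
  have hjm : j ∈ I.ml i := by
    rw [hj, List.getD_eq_getElem _ _ ha]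
    exact List.getElem_mem ha
  set s0 := wr s 10 0 0 r with hs0
  have g0 : PggG I N i (I.PT t / I.FM i) q s0 := pgg_wr h1 (by omega)
  have r0 : s0 10 0 0 = r := pgg_wr_eq
  -- the weight
  set s1 := wr s0 18 0 0 (I.Z ^ I.wt i j) with hs1
  have run1 : (st 18 (.get 7 (.get 6 (sc 9) (ent 2)) (.lit 0))).run s0 = s1 := by
    rw [pgg_st, hs1]
    congr 1
    change s0 7 (s0 6 (s0 9 0 0) ((ent 2).val s0)) 0 = _
    rw [pgg_ent I g0 r0 har, g0.h9, ← hj, g0.a.a.a.E i j hjm, g0.a.PW _ (num_lt I hjm)]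
    rfl
  have g1 : PggG I N i (I.PT t / I.FM i) q s1 := pgg_wr g0 (by omega)
  -- the new factor
  set s2 := wr s1 22 0 0 (I.Z ^ ex 3 (I.lM i) a) with hs2
  have v15 : s1 15 0 0 = I.Z ^ ((I.lM i).drop (a + 1)).sum := by
    rw [hs1, pgg_wr_ne (by omega), hs0, pgg_wr_ne (by omega), h2]
  have v17 : s1 17 0 0 = I.Z ^ (a + 1) := by
    rw [hs1, pgg_wr_ne (by omega), hs0, pgg_wr_ne (by omega), h3]
  have v18 : s1 18 0 0 = I.Z ^ I.wt i j := pgg_wr_eq
  have run2 : (st 22 (.mul (.mul (sc 15) (.mul (sc 18) (.mul (sc 18) (sc 18)))) (sc 17))).run s1 =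
      s2 := by
    rw [pgg_st, hs2]
    congr 1
    change s1 15 0 0 * (s1 18 0 0 * (s1 18 0 0 * s1 18 0 0)) * s1 17 0 0 = _
    rw [v15, v17, v18, pgg_ex 3 (by rw [pgg_lM]; exact ha), pgg_lMget I ha, ← hj]
    rw [← pow_add, ← pow_add, ← pow_add, ← pow_add]
    congr 1
    ring
  have g2 : PggG I N i (I.PT t / I.FM i) q s2 := pgg_wr g1 (by omega)
  -- the number for the test
  set s3 := wr s2 16 0 0 (I.PT (Function.update t i {a}) / I.Z ^ N) with hs3
  have run3 : (st 16 (.div (.mul (sc 13) (sc 22)) (sc 12))).run s2 = s3 := by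
    rw [pgg_st, hs3]
    congr 1
    change s2 13 0 0 * s2 22 0 0 / s2 12 0 0 = _
    have v22 : s2 22 0 0 = I.Z ^ ex 3 (I.lM i) a := pgg_wr_eq
    rw [g2.h13, g2.h12, v22, PT_update I t i a hi hti]
  have g3 : PggG I N i (I.PT t / I.FM i) q s3 := pgg_wr g2 (by omega)
  have w10 : s3 10 0 0 = r := by
    rw [hs3, pgg_wr_ne (by omega), hs2, pgg_wr_ne (by omega), hs1, pgg_wr_ne (by omega), r0]
  have w15 : s3 15 0 0 = I.Z ^ ((I.lM i).drop (a + 1)).sum := by
    rw [hs3, pgg_wr_ne (by omega), hs2, pgg_wr_ne (by omega), v15]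
  have w17 : s3 17 0 0 = I.Z ^ (a + 1) := by
    rw [hs3, pgg_wr_ne (by omega), hs2, pgg_wr_ne (by omega), v17]
  have w18 : s3 18 0 0 = I.Z ^ I.wt i j := by
    rw [hs3, pgg_wr_ne (by omega), hs2, pgg_wr_ne (by omega), v18]
  have w22 : s3 22 0 0 = I.Z ^ ex 3 (I.lM i) a := by
    rw [hs3, pgg_wr_ne (by omega), hs2, pgg_wr_eq]
  have w16 : s3 16 0 0 = I.PT (Function.update t i {a}) / I.Z ^ N := pgg_wr_eq
  have w19 : s3 19 0 0 = s 19 0 0 := by
    rw [hs3, pgg_wr_ne (by omega), hs2, pgg_wr_ne (by omega), hs1, pgg_wr_ne (by omega), hs0,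
      pgg_wr_ne (by omega)]
  have w4 : s3 4 i 0 = s 4 i 0 := by
    rw [hs3, pgg_wr_ne (by omega), hs2, pgg_wr_ne (by omega), hs1, pgg_wr_ne (by omega), hs0,
      pgg_wr_ne (by omega)]
  have hsub : ∀ i' < I.n1, (Function.update t i {a}) i' ⊆ I.full i' := by
    intro i' hi'
    by_cases hii : i' = i
    · subst hii
      rw [Function.update_self]
      intro b hb
      rw [mem_singleton] at hb
      rw [hb]
      unfold Inst.full
      rw [mem_range]
      omega
    · rw [Function.update_of_ne hii]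
      exact ht i' hi'
  have htest := test I (Function.update t i {a}) hsub N
  -- the test
  set cc : Cmd := .ifLt (.lit 0) (.sub (sc 16) (.mul (.div (sc 16) (sc 11)) (sc 11)))
            (.seq (st 19 (sc 22))
              (.put 4 (sc 9) (.lit 0) (.add (ent 2) (.lit 1))))
            .skip with hcc
  have key : PggG I N i (I.PT t / I.FM i) q (cc.run s3) ∧
      (cc.run s3) 15 0 0 = I.Z ^ ((I.lM i).drop (a + 1)).sum ∧
      (cc.run s3) 17 0 0 = I.Z ^ (a + 1) ∧ (cc.run s3) 18 0 0 = I.Z ^ I.wt i j ∧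
      PggBest I t N i (r + 1) ((cc.run s3) 19 0 0) ((cc.run s3) 4 i 0) ∧ cc.cost s3 ≤ 60 := by
    have hval : (Ex.sub (sc 16) (.mul (.div (sc 16) (sc 11)) (sc 11))).val s3 =
        I.PT (Function.update t i {a}) / I.Z ^ N % I.Z := by
      change s3 16 0 0 - s3 16 0 0 / s3 11 0 0 * s3 11 0 0 = _
      rw [w16, g3.a.a.Z]
      have := Nat.div_add_mod (I.PT (Function.update t i {a}) / I.Z ^ N) I.Z
      rw [mul_comm] at this
      omega
    by_cases hsol : I.Sol (Function.update t i {a}) N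
    · have hpos : (Ex.lit 0).val s3 <
          (Ex.sub (sc 16) (.mul (.div (sc 16) (sc 11)) (sc 11))).val s3 := by
        rw [hval]
        exact htest.2 hsol
      have hrun : cc.run s3 = wr (wr s3 19 0 0 (I.Z ^ ex 3 (I.lM i) a)) 4 i 0 (j + 1) := by
        rw [hcc]
        simp only [Cmd.run]
        rw [if_pos hpos]
        rw [pgg_st, pgg_sc, w22]
        have g4 : PggG I N i (I.PT t / I.FM i) q (wr s3 19 0 0 (I.Z ^ ex 3 (I.lM i) a)) :=
          pgg_wr g3 (by omega)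
        have r4 : (wr s3 19 0 0 (I.Z ^ ex 3 (I.lM i) a)) 10 0 0 = r := by
          rw [pgg_wr_ne (by omega), w10]
        have hent := pgg_ent I g4 r4 har
        change wr _ 4 ((wr s3 19 0 0 (I.Z ^ ex 3 (I.lM i) a)) 9 0 0) 0
          ((ent 2).val (wr s3 19 0 0 (I.Z ^ ex 3 (I.lM i) a)) + 1) = _
        rw [hent, g4.h9]
      rw [hrun]
      refine ⟨pgg_wr4 (pgg_wr g3 (by omega)), ?_, ?_, ?_, ?_, ?_⟩
      · rw [pgg_wr_ne (by omega), pgg_wr_ne (by omega), w15]
      · rw [pgg_wr_ne (by omega), pgg_wr_ne (by omega), w17]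
      · rw [pgg_wr_ne (by omega), pgg_wr_ne (by omega), w18]
      · rw [pgg_wr_eq, pgg_wr_ne (by omega), pgg_wr_eq]
        refine ⟨a, ha.le, rfl, ?_, Or.inr hsol, fun hh => absurd hh (by omega)⟩
        unfold pggCode
        rw [if_pos ha]
      · rw [hcc]
        simp only [Cmd.cost]
        rw [if_pos hpos]
        simp [Ex.ops, sc, ent, st, Cmd.cost]
    · have hpos : ¬ (Ex.lit 0).val s3 <
          (Ex.sub (sc 16) (.mul (.div (sc 16) (sc 11)) (sc 11))).val s3 := by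
        rw [hval]
        exact fun hh => hsol (htest.1 hh)
      have hrun : cc.run s3 = s3 := by
        rw [hcc]
        simp only [Cmd.run]
        rw [if_neg hpos]
      rw [hrun]
      refine ⟨g3, w15, w17, w18, ?_, ?_⟩
      · rw [w19, w4]
        obtain ⟨a', b1, b2, b3, b4, b5⟩ := h4
        refine ⟨a', b1, b2, b3, b4, fun hh b hb1 hb2 => ?_⟩
        by_cases hba : b = a
        · rw [hba]; exact hsol
        · exact b5 hh b (by omega) hb2
      · rw [hcc]
        simp only [Cmd.cost]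
        rw [if_neg hpos]
        simp [Ex.ops, sc]
  obtain ⟨k1, k2, k3, k4, k5, k6⟩ := key
  set s4 := cc.run s3 with hs4
  have hrun : pggBody.run s0 = wr (wr s4 15 0 0 (I.Z ^ ((I.lM i).drop a).sum)) 17 0 0
      (I.Z ^ a) := by
    unfold pggBody
    rw [pgg_seq, run1, pgg_seq, run2, pgg_seq, run3, pgg_seq]
    change (st 17 _).run ((st 15 _).run s4) = _
    rw [pgg_st, pgg_st]
    have q15 : (Ex.mul (sc 15) (sc 18)).val s4 = I.Z ^ ((I.lM i).drop a).sum := by
      change s4 15 0 0 * s4 18 0 0 = _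
      rw [k2, k4, ← pow_add]
      congr 1
      rw [pgg_drop (a := a) (by rw [pgg_lM]; exact ha), pgg_lMget I ha, add_comm]
    rw [q15]
    congr 1
    change (wr s4 15 0 0 _) 17 0 0 / (wr s4 15 0 0 _) 11 0 0 = _
    rw [pgg_wr_ne (by omega), pgg_wr_ne (by omega), k3, k1.a.a.Z, pow_succ,
      Nat.mul_div_cancel _ (pgg_Zpos I)]
  refine ⟨?_, ?_⟩
  · rw [hrun]
    refine ⟨pgg_wr (pgg_wr k1 (by omega)) (by omega), ?_, ?_, ?_⟩
    · rw [pgg_wr_ne (by omega), pgg_wr_eq]
    · rw [pgg_wr_eq]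
    · rw [pgg_wr_ne (by omega), pgg_wr_ne (by omega), pgg_wr_ne (by omega), pgg_wr_ne (by omega)]
      exact k5
  · unfold pggBody
    rw [pgg_seqcost, run1, pgg_seqcost, run2, pgg_seqcost, run3, pgg_seqcost, pgg_seqcost]
    change _ + (_ + (_ + (cc.cost s3 + _))) ≤ _
    rw [pgg_stcost, pgg_stcost, pgg_stcost, pgg_stcost, pgg_stcost]
    simp only [Ex.ops, sc, ent]
    omega

theorem pgg_loop2 (I : Inst) {N i : ℕ} {q : ℕ → ℕ} {t : ℕ → Finset ℕ}
    (ht : ∀ i < I.n1, t i ⊆ I.full i) (hti : t i = I.full i) (hi : i < I.n1) :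
    Tri (fun s => PggG I N i (I.PT t / I.FM i) q s ∧ s 15 0 0 = 1 ∧
        s 17 0 0 = I.Z ^ (I.ml i).length ∧ s 19 0 0 = 1 ∧ s 4 i 0 = 0)
      (.loop 10 (.get 2 (sc 9) (.lit 0)) pggBody)
      (7 + 201 * (I.ml i).length)
      (fun s => PggG I N i (I.PT t / I.FM i) q s ∧
        PggBest I t N i (I.ml i).length (s 19 0 0) (s 4 i 0)) := by
  have h := tri_loop (x := 10) (e := .get 2 (sc 9) (.lit 0)) (c := pggBody)
    (N := (I.ml i).length)
    (fun r s => PggG I N i (I.PT t / I.FM i) q s ∧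
      s 15 0 0 = I.Z ^ ((I.lM i).drop ((I.ml i).length - r)).sum ∧
      s 17 0 0 = I.Z ^ ((I.ml i).length - r) ∧ PggBest I t N i r (s 19 0 0) (s 4 i 0))
    (fun _ => 200) (by
      rintro s ⟨h1, -⟩
      change s 2 (s 9 0 0) 0 = _
      rw [h1.h9]
      exact h1.a.a.a.b.ml0 i) (by
      intro r hr s hs
      exact pgg_body I ht hti hi hr s hs)
  refine tri_weaken h ?_ ?_ ?_
  · rintro s ⟨h1, h2, h3, h4, h5⟩
    refine ⟨h1, ?_, ?_, ?_⟩
    · rw [h2, Nat.sub_zero, List.drop_of_length_le (by rw [pgg_lM]), List.sum_nil, pow_zero]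
    · rw [h3, Nat.sub_zero]
    · refine ⟨(I.ml i).length, le_rfl, ?_, ?_, Or.inl rfl, fun _ b hb1 hb2 => absurd hb1 (by omega)⟩
      · rw [h4, ← pgg_lM, pgg_exlen, pow_zero]
      · rw [h5]
        unfold pggCode
        rw [if_neg (lt_irrefl _)]
  · rw [Finset.sum_const, card_range, smul_eq_mul]
    simp only [Ex.ops, sc]
    omega
  · rintro s ⟨h1, -, -, h4⟩
    exact ⟨h1, h4⟩

/-- the states of the men after `i` men have been decoded -/
def pggT (I : Inst) (p : ℕ → ℕ) (i : ℕ) : ℕ → Finset ℕ :=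
  fun i' => if i' < i then {p i'} else I.full i'

theorem triG (I : Inst) (N : ℕ) (h : I.Sol I.full N) :
    Tri (fun s => I.A3 s ∧ s 12 0 0 = I.Z ^ N ∧ s 13 0 0 = I.PT I.full ∧
      ∀ i < I.n1, s 8 i 0 = I.FM i) progG I.bd
    (fun s => ∃ p : ℕ → ℕ, (∀ i < I.n1, p i ≤ (I.ml i).length) ∧
      (∀ i < I.n1, s 4 i 0 = if p i < (I.ml i).length then (I.ml i).getD (p i) 0 + 1 else 0) ∧
      I.Sol (fun i => {p i}) N) := by
  unfold progG
  have hL := tri_loop (x := 9) (e := sc 0) (c := (.seq (st 13 (.div (sc 13) (.get 8 (sc 9) (.lit 0))))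
      (.seq (st 19 (.lit 1))
        (.seq (.put 4 (sc 9) (.lit 0) (.lit 0))
          (.seq (st 15 (.lit 1))
            (.seq (st 17 (.lit 1))
              (.seq (.loop 10 (.get 2 (sc 9) (.lit 0)) (st 17 (.mul (sc 17) (sc 11))))
                (.seq (.loop 10 (.get 2 (sc 9) (.lit 0)) pggBody)
                  (st 13 (.mul (sc 13) (sc 19))))))))))) (N := I.n1)
    (fun i s => I.A3 s ∧ s 12 0 0 = I.Z ^ N ∧ (∀ i < I.n1, s 8 i 0 = I.FM i) ∧
      ∃ p : ℕ → ℕ, (∀ i, p i ≤ (I.ml i).length) ∧ s 13 0 0 = I.PT (pggT I p i) ∧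
        I.Sol (pggT I p i) N ∧ ∀ i' < i, s 4 i' 0 = pggCode I i' (p i'))
    (fun i => 200 + 300 * (I.ml i).length) (by
      rintro s ⟨h1, -⟩
      change s 0 0 0 = _
      exact h1.a.a.b.n1) (by
      rintro i hi s ⟨h1, h2, h3, p, p1, p2, p3, p4⟩
      have hT : ∀ i' < I.n1, pggT I p i i' ⊆ I.full i' := by
        intro i' hi' b hb
        unfold pggT at hb
        split_ifs at hb with hlt
        · rw [mem_singleton] at hb
          rw [hb]
          unfold Inst.full
          rw [mem_range]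
          exact Nat.lt_succ_of_le (p1 i')
        · exact hb
      have hTi : pggT I p i i = I.full i := by
        unfold pggT
        rw [if_neg (lt_irrefl _)]
      set q : ℕ → ℕ := fun i' => pggCode I i' (p i') with hq
      set s0 := wr s 9 0 0 i with hs0
      have g0 : PggG I N i (I.PT (pggT I p i)) q s0 := by
        refine ⟨pgg_a3_wr h1 (by omega) (by omega) (by omega) (by omega) (by omega) (by omega)
          (by omega) (by omega), ?_, fun i hi => ?_, pgg_wr_eq, ?_, fun i' hi' => ?_⟩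
        · rw [hs0, pgg_wr_ne (by omega)]; exact h2
        · rw [hs0, pgg_wr_ne (by omega)]; exact h3 i hi
        · rw [hs0, pgg_wr_ne (by omega)]; exact p2
        · rw [hs0, pgg_wr_ne (by omega)]; exact p4 i' hi'
      set s1 := wr s0 13 0 0 (I.PT (pggT I p i) / I.FM i) with hs1
      have run1 : (st 13 (.div (sc 13) (.get 8 (sc 9) (.lit 0)))).run s0 = s1 := by
        rw [pgg_st, hs1]
        congr 1
        change s0 13 0 0 / s0 8 (s0 9 0 0) 0 = _
        rw [g0.h13, g0.h9, g0.h8 i hi]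
      have g1 : PggG I N i (I.PT (pggT I p i) / I.FM i) q s1 := pgg_wr13 g0
      set s2 := wr s1 19 0 0 1 with hs2
      have run2 : (st 19 (.lit 1)).run s1 = s2 := rfl
      have g2 : PggG I N i (I.PT (pggT I p i) / I.FM i) q s2 := pgg_wr g1 (by omega)
      set s3 := wr s2 4 i 0 0 with hs3
      have run3 : (Cmd.put 4 (sc 9) (.lit 0) (.lit 0)).run s2 = s3 := by
        change wr s2 4 (s2 9 0 0) 0 0 = s3
        rw [g2.h9]
      have g3 : PggG I N i (I.PT (pggT I p i) / I.FM i) q s3 := pgg_wr4 g2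
      set s4 := wr s3 15 0 0 1 with hs4
      have run4 : (st 15 (.lit 1)).run s3 = s4 := rfl
      have g4 : PggG I N i (I.PT (pggT I p i) / I.FM i) q s4 := pgg_wr g3 (by omega)
      set s5 := wr s4 17 0 0 1 with hs5
      have run5 : (st 17 (.lit 1)).run s4 = s5 := rfl
      have g5 : PggG I N i (I.PT (pggT I p i) / I.FM i) q s5 := pgg_wr g4 (by omega)
      have x15 : s5 15 0 0 = 1 := by rw [hs5, pgg_wr_ne (by omega), hs4, pgg_wr_eq]
      have x17 : s5 17 0 0 = 1 := by rw [hs5, pgg_wr_eq]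
      have x19 : s5 19 0 0 = 1 := by
        rw [hs5, pgg_wr_ne (by omega), hs4, pgg_wr_ne (by omega), hs3, pgg_wr_ne (by omega), hs2,
          pgg_wr_eq]
      have x4 : s5 4 i 0 = 0 := by
        rw [hs5, pgg_wr_ne (by omega), hs4, pgg_wr_ne (by omega), hs3, pgg_wr_eq]
      obtain ⟨l1, c1⟩ := pgg_loop1 I N i (I.PT (pggT I p i) / I.FM i) q s5
        ⟨g5, x15, x17, x19, x4⟩
      obtain ⟨⟨l2, b2⟩, c2⟩ := pgg_loop2 I hT hTi hi _ l1
      set s6 := (Cmd.loop 10 (.get 2 (sc 9) (.lit 0)) (st 17 (.mul (sc 17) (sc 11)))).run s5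
        with hs6
      set s7 := (Cmd.loop 10 (.get 2 (sc 9) (.lit 0)) pggBody).run s6 with hs7
      obtain ⟨a, a1, a2, a3, a4, a5⟩ := b2
      have hsol : I.Sol (Function.update (pggT I p i) i {a}) N := by
        rcases a4 with a4 | a4
        · obtain ⟨b, hb1, hb2⟩ := sol_choose I (pggT I p i) N i p3 hi
          rw [hTi] at hb1
          unfold Inst.full at hb1
          rw [mem_range] at hb1
          by_cases hbl : b < (I.ml i).length
          · exact absurd hb2 (a5 a4 b (by omega) hbl)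
          · have : b = a := by omega
            rw [← this]
            exact hb2
        · exact a4
      have hupd : Function.update (pggT I p i) i {a} = pggT I (Function.update p i a) (i + 1) := by
        funext i'
        unfold pggT
        by_cases hii : i' = i
        · subst hii
          rw [Function.update_self, if_pos (Nat.lt_succ_self _), Function.update_self]
        · rw [Function.update_of_ne hii, Function.update_of_ne hii]
          by_cases hlt : i' < i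
          · rw [if_pos hlt, if_pos (by omega)]
          · rw [if_neg hlt, if_neg (by omega)]
      have run8 : (st 13 (.mul (sc 13) (sc 19))).run s7 =
          wr s7 13 0 0 (I.PT (Function.update (pggT I p i) i {a})) := by
        rw [pgg_st]
        congr 1
        change s7 13 0 0 * s7 19 0 0 = _
        rw [l2.h13, a2, PT_update I _ i a hi hTi]
      refine ⟨?_, ?_⟩
      · rw [pgg_seq, run1, pgg_seq, run2, pgg_seq, run3, pgg_seq, run4, pgg_seq, run5, pgg_seq,
          pgg_seq]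
        change I.A3 ((st 13 _).run s7) ∧ ((st 13 _).run s7) 12 0 0 = _ ∧ (∀ i < I.n1,
          ((st 13 _).run s7) 8 i 0 = I.FM i) ∧ ∃ p : ℕ → ℕ, (∀ i, p i ≤ (I.ml i).length) ∧
          ((st 13 _).run s7) 13 0 0 = _ ∧ _ ∧ ∀ i' < i + 1, ((st 13 _).run s7) 4 i' 0 = _
        rw [run8]
        have g8 := pgg_wr13 (v := I.PT (Function.update (pggT I p i) i {a})) l2
        refine ⟨g8.a, g8.h12, g8.h8, Function.update p i a, ?_, ?_, ?_, ?_⟩
        · intro i'
          by_cases hii : i' = i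
          · subst hii
            rw [Function.update_self]
            exact a1
          · rw [Function.update_of_ne hii]
            exact p1 i'
        · rw [g8.h13, hupd]
        · rw [← hupd]
          exact hsol
        · intro i' hi'
          by_cases hii : i' = i
          · subst hii
            rw [Function.update_self, pgg_wr_ne (by omega)]
            exact a3
          · rw [Function.update_of_ne hii]
            exact g8.h4 i' (by omega)
      · rw [pgg_seqcost, run1, pgg_seqcost, run2, pgg_seqcost, run3, pgg_seqcost, run4,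
          pgg_seqcost, run5, pgg_seqcost, pgg_seqcost]
        change _ + (_ + (_ + (_ + (_ + (Cmd.cost (Cmd.loop 10 _ _) s5 +
          (Cmd.cost (Cmd.loop 10 _ _) s6 + _)))))) ≤ _
        rw [pgg_stcost, pgg_stcost, pgg_stcost, pgg_stcost, pgg_stcost]
        simp only [Ex.ops, sc] at c1 c2 ⊢
        have c3 : (Cmd.put 4 (sc 9) (.lit 0) (.lit 0)).cost s2 = 6 := by
          simp [Cmd.cost, Ex.ops, sc]
        simp only [sc] at c3
        omega)
  refine tri_weaken hL ?_ ?_ ?_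
  · rintro s ⟨h1, h2, h3, h4⟩
    refine ⟨h1, h2, h4, fun i => (I.ml i).length, fun _ => le_rfl, ?_, ?_, fun i' hi' =>
      absurd hi' (Nat.not_lt_zero _)⟩
    · rw [h3]
      congr 1
    · exact h
  · unfold Inst.bd
    have e1 : ∑ j ∈ range I.n1, (1 + (200 + 300 * (I.ml j).length)) =
        201 * I.n1 + 300 * I.m := by
      unfold Inst.m
      rw [Finset.sum_add_distrib, Finset.sum_add_distrib, Finset.mul_sum]
      simp only [Finset.sum_const, card_range, smul_eq_mul]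
      omega
    rw [e1]
    simp only [Ex.ops, sc]
    omega
  · rintro s ⟨h1, h2, h3, p, p1, p2, p3, p4⟩
    refine ⟨p, fun i _ => p1 i, fun i hi => p4 i hi, ?_⟩
    obtain ⟨p', q, z, c1, c2, c3, c4⟩ := p3
    refine ⟨p', q, z, fun i hi => ?_, c2, c3, c4⟩
    have := c1 i hi
    unfold pggT at this
    rw [if_pos hi] at this
    exact this

end Pool.Agent.ESM
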