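import Pool.Agent.ESM.Core

/-!
# Egalitarian stable matchings: the states of a matching
-/

set_option autoImplicit false

open Finset

namespace Pool.Agent.ESM

theorem exists_pos (I : Inst) (M : Finset (ℕ × ℕ)) (hM : I.IsMatching M) :
    ∃ p : ℕ → ℕ, (∀ i, p i ≤ (I.ml i).length) ∧ I.Mof p = M := by
  classical
  refine ⟨fun i => if h : ∃ j, (i, j) ∈ M then (I.ml i).idxOf h.choose else (I.ml i).length,
    fun i => ?_, ?_⟩
  · by_cases h : ∃ j, (i, j) ∈ M
    · simp only [dif_pos h]
      exact List.idxOf_le_length
    · simp only [dif_neg h]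
      exact le_rfl
  · ext x
    obtain ⟨i, j⟩ := x
    unfold Inst.Mof
    rw [mem_filter, mem_product, mem_range, mem_range]
    constructor
    · rintro ⟨-, h1, h2⟩
      by_cases h : ∃ j, (i, j) ∈ M
      · simp only [dif_pos h] at h1 h2
        rw [List.getD_eq_getElem _ _ h1, List.getElem_idxOf] at h2
        rw [← h2]
        exact h.choose_spec
      · simp only [dif_neg h] at h1
        exact absurd h1 (lt_irrefl _)
    · intro hx
      have h : ∃ j, (i, j) ∈ M := ⟨j, hx⟩
      have h1 : h.choose = j := by
        have := hM.inj _ h.choose_spec _ hx (Or.inl rfl)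
        exact congrArg Prod.snd this
      have hacc : j ∈ I.ml i := hM.acc _ hx
      have hlt : (I.ml i).idxOf j < (I.ml i).length := List.idxOf_lt_length_of_mem hacc
      refine ⟨⟨?_, ?_⟩, ?_, ?_⟩
      · by_contra hn
        rw [I.hm i (not_lt.1 hn)] at hacc
        simp at hacc
      · by_contra hn
        have h2 := (I.sym i j).1 hacc
        change ¬ j < I.n2 at hn
        rw [I.hw j (not_lt.1 hn)] at h2
        simp at h2
      · simp only [dif_pos h, h1]
        exact hlt
      · simp only [dif_pos h, h1]
        rw [List.getD_eq_getElem _ _ hlt, List.getElem_idxOf]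

end Pool.Agent.ESM
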