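import Pool.Agent.ESM.Core

set_option autoImplicit false

open Finset

namespace Pool.Agent.ESM

private lemma sm1_getD_mem {l : List ℕ} {a : ℕ} (h : a < l.length) : l.getD a 0 ∈ l := by
  rw [List.getD_eq_getElem _ _ h]
  exact List.getElem_mem h

private lemma sm1_idx {l : List ℕ} (hn : l.Nodup) {a : ℕ} (h : a < l.length) :
    l.idxOf (l.getD a 0) = a := by
  rw [List.getD_eq_getElem _ _ h]
  exact hn.idxOf_getElem a h

private lemma sm1_getD_idx {l : List ℕ} {x : ℕ} (h : x ∈ l) : l.getD (l.idxOf x) 0 = x := by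
  have h' : l.idxOf x < l.length := List.idxOf_lt_length_iff.mpr h
  rw [List.getD_eq_getElem _ _ h']
  exact List.getElem_idxOf h'

private lemma sm1_i (I : Inst) {i j : ℕ} (h : j ∈ I.ml i) : i < I.n1 := by
  by_contra hc
  rw [I.hm i (not_lt.mp hc)] at h
  exact absurd h (List.not_mem_nil)

private lemma sm1_j (I : Inst) {i j : ℕ} (h : j ∈ I.ml i) : j < I.n2 := by
  by_contra hc
  rw [I.sym, I.hw j (not_lt.mp hc)] at h
  exact absurd h (List.not_mem_nil)

private lemma sm1_mem (I : Inst) {p : ℕ → ℕ} {i j : ℕ} (h : j ∈ I.ml i)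
    (hp : p i = (I.ml i).idxOf j) : (i, j) ∈ I.Mof p := by
  unfold Inst.Mof
  rw [mem_filter, mem_product, mem_range, mem_range]
  refine ⟨⟨sm1_i I h, sm1_j I h⟩, ?_, ?_⟩
  · change p i < (I.ml i).length
    rw [hp]
    exact List.idxOf_lt_length_iff.mpr h
  · change (I.ml i).getD (p i) 0 = j
    rw [hp]
    exact sm1_getD_idx h

theorem good_stable (I : Inst) (p q : ℕ → ℕ) (hp : ∀ i < I.n1, p i ≤ (I.ml i).length)
    (hq : ∀ j < I.n2, q j ≤ (I.wl j).length) (h : I.Good p q) : I.Stable (I.Mof p) := by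
  have hM : ∀ x ∈ I.Mof p, x.2 ∈ I.ml x.1 ∧ p x.1 = (I.ml x.1).idxOf x.2 := by
    intro x hx
    unfold Inst.Mof at hx
    rw [mem_filter] at hx
    obtain ⟨_, h1, h2⟩ := hx
    constructor
    · rw [← h2]; exact sm1_getD_mem h1
    · rw [← h2]; exact (sm1_idx (I.ndm x.1) h1).symm
  have hq' : ∀ x ∈ I.Mof p, q x.2 = (I.wl x.2).idxOf x.1 := by
    intro x hx
    obtain ⟨h1, h2⟩ := hM x hx
    rcases h x.1 x.2 h1 with h3 | h3
    · exact h3.2
    · exact absurd h2 h3.1
  refine ⟨⟨fun x hx => (hM x hx).1, ?_⟩, ?_⟩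
  · intro x hx y hy hxy
    rcases hxy with e | e
    · refine Prod.ext e ?_
      have h1 := (hM x hx).2
      have h2 := (hM y hy).2
      have m1 := (hM x hx).1
      have m2 := (hM y hy).1
      rw [e] at h1 m1
      have h3 : (I.ml y.1).idxOf x.2 = (I.ml y.1).idxOf y.2 := by rw [← h1, h2]
      have h4 := sm1_getD_idx m1
      rw [h3, sm1_getD_idx m2] at h4
      exact h4.symm
    · refine Prod.ext ?_ e
      have h1 := hq' x hx
      have h2 := hq' y hy
      have m1 := (I.sym _ _).mp (hM x hx).1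
      have m2 := (I.sym _ _).mp (hM y hy).1
      rw [e] at h1 m1
      have h3 : (I.wl y.2).idxOf x.1 = (I.wl y.2).idxOf y.1 := by rw [← h1, h2]
      have h4 := sm1_getD_idx m1
      rw [h3, sm1_getD_idx m2] at h4
      exact h4.symm
  · rintro i j ⟨hj, hb1, hb2⟩
    rcases h i j hj with h3 | ⟨_, _, h3 | h3⟩
    · have := hb1 j (sm1_mem I hj h3.1)
      omega
    · have hlt : p i < (I.ml i).length := h3.trans (List.idxOf_lt_length_iff.mpr hj)
      have hm1 : (I.ml i).getD (p i) 0 ∈ I.ml i := sm1_getD_mem hlt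
      have hidx := sm1_idx (I.ndm i) hlt
      have := hb1 _ (sm1_mem I (p := p) hm1 hidx.symm)
      unfold Inst.rM at this
      rw [hidx] at this
      omega
    · have hi : i ∈ I.wl j := (I.sym _ _).mp hj
      have hlt : q j < (I.wl j).length := h3.trans (List.idxOf_lt_length_iff.mpr hi)
      have hm1 : (I.wl j).getD (q j) 0 ∈ I.wl j := sm1_getD_mem hlt
      have hidx := sm1_idx (I.ndw j) hlt
      have hj' : j ∈ I.ml ((I.wl j).getD (q j) 0) := (I.sym _ _).mpr hm1
      rcases h _ j hj' with h4 | h4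
      · have := hb2 _ (sm1_mem I (p := p) hj' h4.1)
        unfold Inst.rW at this
        rw [hidx] at this
        omega
      · exact absurd hidx.symm h4.2.1

end Pool.Agent.ESM
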