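import Pool.Agent.ESM.Core

/-!
# Egalitarian stable matchings on a random access machine: the cost of good states
-/

set_option autoImplicit false

open Finset

namespace Pool.Agent.ESM

private theorem sm2_idx (l : List ℕ) (hn : l.Nodup) (a : ℕ) (ha : a < l.length) :
    l.idxOf (l.getD a 0) = a := by
  rw [List.getD_eq_getElem _ _ ha]
  exact hn.idxOf_getElem a ha

private theorem sm2_get (l : List ℕ) (x : ℕ) (hx : x ∈ l) : l.getD (l.idxOf x) 0 = x := by
  have h := List.idxOf_lt_length_of_mem hx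
  rw [List.getD_eq_getElem _ _ h]
  exact List.getElem_idxOf h

private theorem sm2_mem (l : List ℕ) (a : ℕ) (ha : a < l.length) : l.getD a 0 ∈ l := by
  rw [List.getD_eq_getElem _ _ ha]
  exact List.getElem_mem ha

private theorem sm2_ml (I : Inst) {i j : ℕ} (h : j ∈ I.ml i) : i < I.n1 ∧ j < I.n2 := by
  constructor
  · by_contra hc
    rw [I.hm i (not_lt.1 hc)] at h
    exact List.not_mem_nil h
  · by_contra hc
    have h' := (I.sym i j).1 h
    rw [I.hw j (not_lt.1 hc)] at h'
    exact List.not_mem_nil h'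

private theorem sm2_Mof (I : Inst) (p : ℕ → ℕ) (x : ℕ × ℕ) : x ∈ I.Mof p ↔
    p x.1 < (I.ml x.1).length ∧ (I.ml x.1).getD (p x.1) 0 = x.2 := by
  unfold Inst.Mof
  rw [mem_filter]
  constructor
  · exact fun h => h.2
  · intro h
    refine ⟨?_, h⟩
    have h1 : x.2 ∈ I.ml x.1 := by
      rw [← h.2]
      exact sm2_mem _ _ h.1
    have h2 := sm2_ml I h1
    exact mem_product.2 ⟨mem_range.2 h2.1, mem_range.2 h2.2⟩

theorem good_cost (I : Inst) (p q : ℕ → ℕ) (hp : ∀ i < I.n1, p i ≤ (I.ml i).length)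
    (hq : ∀ j < I.n2, q j ≤ (I.wl j).length) (h : I.Good p q) : I.cost (I.Mof p) = I.cpq p q := by
  unfold Inst.cost Inst.cpq
  rw [sum_add_distrib]
  congr 1
  · rw [← sum_filter]
    refine sum_bij' (fun x _ => x.1) (fun i _ => (i, (I.ml i).getD (p i) 0)) ?_ ?_ ?_ ?_ ?_
    · intro x hx
      have h1 := (sm2_Mof I p x).1 hx
      rw [mem_filter, mem_range]
      have h2 : x.2 ∈ I.ml x.1 := by
        rw [← h1.2]
        exact sm2_mem _ _ h1.1
      exact ⟨(sm2_ml I h2).1, h1.1⟩
    · intro i hi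
      rw [mem_filter] at hi
      rw [sm2_Mof]
      exact ⟨hi.2, rfl⟩
    · intro x hx
      have h1 := (sm2_Mof I p x).1 hx
      exact Prod.ext rfl h1.2
    · intro i _
      rfl
    · intro x hx
      have h1 := (sm2_Mof I p x).1 hx
      unfold Inst.rM
      rw [← h1.2, sm2_idx _ (I.ndm _) _ h1.1]
  · rw [← sum_filter]
    have key : ∀ x ∈ I.Mof p, x.1 ∈ I.wl x.2 ∧ q x.2 = (I.wl x.2).idxOf x.1 := by
      intro x hx
      have h1 := (sm2_Mof I p x).1 hx
      have h2 : x.2 ∈ I.ml x.1 := by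
        rw [← h1.2]
        exact sm2_mem _ _ h1.1
      have h3 : p x.1 = (I.ml x.1).idxOf x.2 := by
        rw [← h1.2, sm2_idx _ (I.ndm _) _ h1.1]
      refine ⟨(I.sym _ _).1 h2, ?_⟩
      rcases h x.1 x.2 h2 with h4 | h4
      · exact h4.2
      · exact absurd h3 h4.1
    refine sum_bij' (fun x _ => x.2) (fun j _ => ((I.wl j).getD (q j) 0, j)) ?_ ?_ ?_ ?_ ?_
    · intro x hx
      have h1 := key x hx
      rw [mem_filter, mem_range, h1.2]
      exact ⟨(sm2_ml I ((I.sym _ _).2 h1.1)).2, List.idxOf_lt_length_of_mem h1.1⟩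
    · intro j hj
      rw [mem_filter] at hj
      have h1 : (I.wl j).getD (q j) 0 ∈ I.wl j := sm2_mem _ _ hj.2
      have h2 : j ∈ I.ml ((I.wl j).getD (q j) 0) := (I.sym _ _).2 h1
      have h3 : q j = (I.wl j).idxOf ((I.wl j).getD (q j) 0) := by
        rw [sm2_idx _ (I.ndw _) _ hj.2]
      rw [sm2_Mof]
      rcases h _ j h2 with h4 | h4
      · change p ((I.wl j).getD (q j) 0) < (I.ml ((I.wl j).getD (q j) 0)).length ∧
          (I.ml ((I.wl j).getD (q j) 0)).getD (p ((I.wl j).getD (q j) 0)) 0 = j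
        rw [h4.1]
        exact ⟨List.idxOf_lt_length_of_mem h2, sm2_get _ _ h2⟩
      · exact absurd h3 h4.2.1
    · intro x hx
      have h1 := key x hx
      refine Prod.ext ?_ rfl
      change (I.wl x.2).getD (q x.2) 0 = x.1
      rw [h1.2, sm2_get _ _ h1.1]
    · intro j _
      rfl
    · intro x hx
      have h1 := key x hx
      unfold Inst.rW
      rw [h1.2]

end Pool.Agent.ESM
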