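import Pool.Agent.ESM.Core

/-!
# Egalitarian stable matchings: a stable matching gives good states
-/

set_option autoImplicit false

open Finset

namespace Pool.Agent.ESM

private theorem sm3_mem (I : Inst) (p : ℕ → ℕ) (i j : ℕ) : (i, j) ∈ I.Mof p ↔
    (i < I.n1 ∧ j < I.n2) ∧ p i < (I.ml i).length ∧ (I.ml i).getD (p i) 0 = j := by
  unfold Inst.Mof
  rw [mem_filter, mem_product, mem_range, mem_range]

private theorem sm3_idx (I : Inst) (p : ℕ → ℕ) {i j : ℕ} (h : (i, j) ∈ I.Mof p) :
    (I.ml i).idxOf j = p i := by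
  rw [sm3_mem] at h
  obtain ⟨_, h1, h2⟩ := h
  rw [List.getD_eq_getElem _ _ h1] at h2
  rw [← h2]
  exact List.Nodup.idxOf_getElem (I.ndm i) _ h1

private theorem sm3_acc (I : Inst) (p : ℕ → ℕ) {i j : ℕ} (h : (i, j) ∈ I.Mof p) :
    i ∈ I.wl j := by
  rw [sm3_mem] at h
  obtain ⟨_, h1, h2⟩ := h
  rw [List.getD_eq_getElem _ _ h1] at h2
  rw [← I.sym, ← h2]
  exact List.getElem_mem h1

theorem stable_good (I : Inst) (p : ℕ → ℕ) (hp : ∀ i < I.n1, p i ≤ (I.ml i).length)
    (h : I.Stable (I.Mof p)) : ∃ q : ℕ → ℕ, (∀ j < I.n2, q j ≤ (I.wl j).length) ∧ I.Good p q := by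
  classical
  let q : ℕ → ℕ := fun j => if hj : ∃ i, (i, j) ∈ I.Mof p then (I.wl j).idxOf hj.choose
    else (I.wl j).length
  have q1 : ∀ i j, (i, j) ∈ I.Mof p → q j = (I.wl j).idxOf i := by
    intro i j hij
    have hj : ∃ i, (i, j) ∈ I.Mof p := ⟨i, hij⟩
    have e : q j = (I.wl j).idxOf hj.choose := dif_pos hj
    have e2 := h.1.inj _ hj.choose_spec _ hij (Or.inr rfl)
    rw [e, (Prod.mk.inj e2).1]
  have q2 : ∀ j, (¬ ∃ i, (i, j) ∈ I.Mof p) → q j = (I.wl j).length := fun j hj => dif_neg hj
  refine ⟨q, ?_, ?_⟩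
  · intro j _
    by_cases hj : ∃ i, (i, j) ∈ I.Mof p
    · obtain ⟨i, hi⟩ := hj
      rw [q1 i j hi]
      exact List.idxOf_le_length
    · rw [q2 j hj]
  · intro i j hij
    have hwi : i ∈ I.wl j := (I.sym i j).mp hij
    have hi : i < I.n1 := by
      by_contra hc
      rw [I.hm i (Nat.le_of_not_lt hc)] at hij
      exact absurd hij List.not_mem_nil
    have hj : j < I.n2 := by
      by_contra hc
      rw [I.hw j (Nat.le_of_not_lt hc)] at hwi
      exact absurd hwi List.not_mem_nil
    by_cases hM : (i, j) ∈ I.Mof p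
    · left
      exact ⟨(sm3_idx I p hM).symm, q1 i j hM⟩
    · right
      have hlt : (I.ml i).idxOf j < (I.ml i).length := List.idxOf_lt_length_of_mem hij
      have hltw : (I.wl j).idxOf i < (I.wl j).length := List.idxOf_lt_length_of_mem hwi
      have a1 : p i ≠ (I.ml i).idxOf j := by
        intro hpi
        apply hM
        rw [sm3_mem, hpi]
        refine ⟨⟨hi, hj⟩, hlt, ?_⟩
        rw [List.getD_eq_getElem _ _ hlt]
        exact List.getElem_idxOf hlt
      have a2 : q j ≠ (I.wl j).idxOf i := by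
        intro hq
        by_cases hj' : ∃ i, (i, j) ∈ I.Mof p
        · obtain ⟨i', hi'⟩ := hj'
          rw [q1 i' j hi'] at hq
          have : i' = i := (List.idxOf_inj (sm3_acc I p hi')).mp hq
          rw [this] at hi'
          exact hM hi'
        · rw [q2 j hj'] at hq
          omega
      refine ⟨a1, a2, ?_⟩
      have hb := h.2 i j
      unfold Inst.Blocks at hb
      by_contra hc
      push Not at hc
      apply hb
      refine ⟨hij, ?_, ?_⟩
      · intro j' hj'
        have e := sm3_idx I p hj'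
        unfold Inst.rM
        rw [e]
        have := hc.1
        omega
      · intro i' hi'
        have e := q1 i' j hi'
        unfold Inst.rW
        rw [← e]
        have := hc.2
        omega

end Pool.Agent.ESM
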