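import Pool.Agent.ESM.Tot
import Pool.Agent.ESM.Dig
import Pool.Agent.ESM.Num
import Pool.Agent.ESM.Rei
import Pool.Agent.ESM.Sm1
import Pool.Agent.ESM.Sm2
import Pool.Agent.ESM.Sm3

/-!
# ESM / Soi: total exponents and stable matchings
-/

set_option autoImplicit false

open Finset

namespace Pool.Agent.ESM

/-- sums over the acceptable pairs as sums over the numbers -/
private theorem soi_sum (I : Inst) (f : ℕ → ℕ → ℕ) (d : ℕ → ℕ)
    (h : ∀ i j, j ∈ I.ml i → f i j = d (I.num i j)) :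
    ∑ x ∈ I.AP, 16 ^ I.num x.1 x.2 * f x.1 x.2 = ∑ e ∈ range I.m, 16 ^ e * d e := by
  refine Finset.sum_bij (fun x _ => I.num x.1 x.2) ?_ ?_ ?_ ?_
  · intro x hx
    exact mem_range.2 (num_lt I ((mem_AP I x).1 hx))
  · intro x hx y hy hxy
    obtain ⟨h1, h2⟩ := num_inj I ((mem_AP I x).1 hx) ((mem_AP I y).1 hy) hxy
    exact Prod.ext h1 h2
  · intro e he
    obtain ⟨i, j, hij, rfl⟩ := num_surj I (mem_range.1 he)
    exact ⟨(i, j), (mem_AP I (i, j)).2 hij, rfl⟩
  · intro x hx
    rw [h x.1 x.2 ((mem_AP I x).1 hx)]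

private theorem soi_cpq (I : Inst) (p q : ℕ → ℕ) : I.cpq p q ≤ 2 * I.m := by
  have h1 : ∑ i ∈ range I.n1, (if p i < (I.ml i).length then p i + 1 else 0) ≤ I.m := by
    unfold Inst.m
    refine sum_le_sum fun i _ => ?_
    split_ifs with h
    · exact h
    · exact Nat.zero_le _
  have h2 : ∑ j ∈ range I.n2, (if q j < (I.wl j).length then q j + 1 else 0) ≤ I.m := by
    rw [← size_wl I]
    refine sum_le_sum fun i _ => ?_
    split_ifs with h
    · exact h
    · exact Nat.zero_le _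
  unfold Inst.cpq
  omega

private theorem soi_split {K a b c d : ℕ} (ha : a < K) (hc : c < K)
    (h : a + K * b = K * d + c) : a = c ∧ b = d := by
  have hK : 0 < K := by omega
  have h1 : a = c := by
    have e := congrArg (· % K) h
    simp only [Nat.add_mul_mod_self_left, Nat.mul_add_mod] at e
    rwa [Nat.mod_eq_of_lt ha, Nat.mod_eq_of_lt hc] at e
  subst h1
  refine ⟨rfl, ?_⟩
  have h2 : K * b = K * d := by omega
  exact Nat.eq_of_mul_eq_mul_left hK h2

private theorem soi_TGT (I : Inst) : I.TGT = I.K * ∑ e ∈ range I.m, 16 ^ e * 7 := by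
  unfold Inst.TGT
  congr 1
  exact sum_congr rfl fun e _ => by ring

theorem sol_iff (I : Inst) (t : ℕ → Finset ℕ) (ht : ∀ i < I.n1, t i ⊆ I.full i) (c : ℕ)
    (hc : c < I.K) : I.Sol t (I.TGT + c) ↔
      ∃ p : ℕ → ℕ, (∀ i < I.n1, p i ∈ t i) ∧ I.Stable (I.Mof p) ∧ I.cost (I.Mof p) = c := by
  classical
  have hfull : ∀ p : ℕ → ℕ, (∀ i < I.n1, p i ∈ t i) → ∀ i < I.n1, p i ≤ (I.ml i).length := by
    intro p hp i hi
    have := ht i hi (hp i hi)
    unfold Inst.full at this
    exact Nat.lt_succ_iff.1 (mem_range.1 this)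
  constructor
  · rintro ⟨p, q, z, hp, hq, hz, hs⟩
    have hpl := hfull p hp
    rw [total, soi_TGT] at hs
    have hcpq : I.cpq p q < I.K := by
      have := soi_cpq I p q
      unfold Inst.K
      omega
    obtain ⟨h1, h2⟩ := soi_split hcpq hc hs
    -- the digit of the pair with number `e`
    obtain ⟨d, hd⟩ : ∃ d : ℕ → ℕ, ∀ i j, j ∈ I.ml i →
        dig 3 (p i) ((I.ml i).idxOf j) + dig 4 (q j) ((I.wl j).idxOf i) + z (I.num i j) =
          d (I.num i j) := by
      refine ⟨fun e => if h : ∃ x : ℕ × ℕ, x.2 ∈ I.ml x.1 ∧ I.num x.1 x.2 = e then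
        dig 3 (p h.choose.1) ((I.ml h.choose.1).idxOf h.choose.2) +
          dig 4 (q h.choose.2) ((I.wl h.choose.2).idxOf h.choose.1) + z e else 0, ?_⟩
      intro i j hij
      have h : ∃ x : ℕ × ℕ, x.2 ∈ I.ml x.1 ∧ I.num x.1 x.2 = I.num i j := ⟨(i, j), hij, rfl⟩
      simp only [dif_pos h]
      obtain ⟨e1, e2⟩ := num_inj I h.choose_spec.1 hij h.choose_spec.2
      rw [e1, e2]
    have h3 := soi_sum I (fun i j => dig 3 (p i) ((I.ml i).idxOf j) +
      dig 4 (q j) ((I.wl j).idxOf i) + z (I.num i j)) d hd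
    have hz' : ∀ e < I.m, z e ≤ 6 := by
      intro e he
      rcases hz e he with h | h | h <;> omega
    have hd16 : ∀ e < I.m, d e < 16 := by
      intro e he
      obtain ⟨i, j, hij, rfl⟩ := num_surj I he
      rw [← hd i j hij]
      have := hz' _ he
      unfold dig
      split_ifs <;> omega
    have h4 := digits_unique I.m d (fun _ => 7) hd16 (fun _ _ => by norm_num)
      (by rw [← h3]; exact h2)
    have hgood : I.Good p q := by
      intro i j hij
      have hn := num_lt I hij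
      have e1 := hd i j hij
      rw [h4 _ hn] at e1
      have e2 := hz _ hn
      unfold dig at e1
      split_ifs at e1 <;> omega
    exact ⟨p, hp, good_stable I p q hpl hq hgood, by rw [good_cost I p q hpl hq hgood]; exact h1⟩
  · rintro ⟨p, hp, hst, hcost⟩
    have hpl := hfull p hp
    obtain ⟨q, hq, hgood⟩ := stable_good I p hpl hst
    obtain ⟨z, hz⟩ : ∃ z : ℕ → ℕ, ∀ i j, j ∈ I.ml i → z (I.num i j) =
        7 - (dig 3 (p i) ((I.ml i).idxOf j) + dig 4 (q j) ((I.wl j).idxOf i)) := by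
      refine ⟨fun e => if h : ∃ x : ℕ × ℕ, x.2 ∈ I.ml x.1 ∧ I.num x.1 x.2 = e then
        7 - (dig 3 (p h.choose.1) ((I.ml h.choose.1).idxOf h.choose.2) +
          dig 4 (q h.choose.2) ((I.wl h.choose.2).idxOf h.choose.1)) else 0, ?_⟩
      intro i j hij
      have h : ∃ x : ℕ × ℕ, x.2 ∈ I.ml x.1 ∧ I.num x.1 x.2 = I.num i j := ⟨(i, j), hij, rfl⟩
      simp only [dif_pos h]
      obtain ⟨e1, e2⟩ := num_inj I h.choose_spec.1 hij h.choose_spec.2
      rw [e1, e2]
    refine ⟨p, q, z, hp, hq, ?_, ?_⟩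
    · intro e he
      obtain ⟨i, j, hij, rfl⟩ := num_surj I he
      rw [hz i j hij]
      have := hgood i j hij
      unfold dig
      split_ifs <;> omega
    · rw [total, soi_TGT]
      have h3 := soi_sum I (fun i j => dig 3 (p i) ((I.ml i).idxOf j) +
        dig 4 (q j) ((I.wl j).idxOf i) + z (I.num i j)) (fun _ => 7) (by
          intro i j hij
          show dig 3 (p i) ((I.ml i).idxOf j) + dig 4 (q j) ((I.wl j).idxOf i) +
            z (I.num i j) = 7
          rw [hz i j hij]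
          have := hgood i j hij
          unfold dig
          split_ifs <;> omega)
      have h5 : I.cpq p q = c := by rw [← good_cost I p q hpl hq hgood]; exact hcost
      rw [h5]
      have h6 : ∑ x ∈ I.AP, 16 ^ I.num x.1 x.2 *
          (dig 3 (p x.1) ((I.ml x.1).idxOf x.2) + dig 4 (q x.2) ((I.wl x.2).idxOf x.1) +
            z (I.num x.1 x.2)) = ∑ e ∈ range I.m, 16 ^ e * 7 := h3
      rw [h6, add_comm]

end Pool.Agent.ESM
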