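import Pool.Agent.ESM.Core
import Pool.Agent.ESM.Rei
import Pool.Agent.ESM.Tst
import Pool.Agent.ESM.Soi
import Pool.Agent.ESM.Pof
import Pool.Agent.ESM.Cbd
import Pool.Agent.ESM.Exi
import Pool.Agent.ESM.Pga
import Pool.Agent.ESM.Pgb
import Pool.Agent.ESM.Pgc
import Pool.Agent.ESM.Pgd
import Pool.Agent.ESM.Pge
import Pool.Agent.ESM.Pgf
import Pool.Agent.ESM.Pgg

/-!
# Egalitarian stable matchings on a random access machine: assembly
-/

set_option autoImplicit false

open Finset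

namespace Pool.Agent.ESM

theorem input_B (I : Inst) : I.B I.input where
  n1 := by simp [Inst.input]
  n2 := by simp [Inst.input]
  ml0 i := by simp [Inst.input]
  ml1 i a := by simp [Inst.input]
  wl0 i := by simp [Inst.input]
  wl1 i a := by simp [Inst.input]

theorem PT_full (I : Inst) : I.PT I.full =
    ((∏ e ∈ range I.m, I.FH e) * ∏ i ∈ range I.n1, I.FM i) * ∏ j ∈ range I.n2, I.FW j := by
  have h : ∏ i ∈ range I.n1, ∑ a ∈ I.full i, I.Z ^ ex 3 (I.lM i) a = ∏ i ∈ range I.n1, I.FM i := rfl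
  unfold Inst.PT Inst.CW
  rw [h]
  ring

theorem main (I : Inst) : prog.cost I.input ≤ 7000 * (I.n1 + I.n2 + I.m + 1) ∧
    I.Egal (I.out (prog.run I.input)) := by
  obtain ⟨M0, hM0, hmin⟩ : ∃ M, I.Stable M ∧ ∀ M', I.Stable M' → I.cost M ≤ I.cost M' := by
    have hex : ∃ c, ∃ M, I.Stable M ∧ I.cost M = c := by
      obtain ⟨M, hM⟩ := exists_stable I
      exact ⟨_, M, hM, rfl⟩
    classical
    obtain ⟨M, hM, hc⟩ := Nat.find_spec hex
    exact ⟨M, hM, fun M' hM' => hc ▸ Nat.find_min' hex ⟨M', hM', rfl⟩⟩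
  set c0 := I.cost M0 with hc0
  have hc0m : c0 ≤ 2 * I.m := cost_le I M0 hM0.1
  have hfull : ∀ i < I.n1, I.full i ⊆ I.full i := fun _ _ => Finset.Subset.refl _
  have hK : ∀ c ≤ c0, c < I.K := fun c hc => by unfold Inst.K; omega
  have h2 : I.Sol I.full (I.TGT + c0) := by
    rw [sol_iff I _ hfull c0 (hK c0 le_rfl)]
    obtain ⟨p, hp, hpM⟩ := exists_pos I M0 hM0.1
    refine ⟨p, fun i _ => ?_, by rw [hpM]; exact hM0, by rw [hpM]⟩
    unfold Inst.full
    rw [mem_range]
    exact Nat.lt_succ_of_le (hp i)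
  have h1 : ∀ c < c0, I.PT I.full / I.Z ^ (I.TGT + c) % I.Z = 0 := by
    intro c hc
    by_contra hcon
    have h3 := (test I I.full hfull (I.TGT + c)).mp (Nat.pos_of_ne_zero hcon)
    rw [sol_iff I _ hfull c (hK c hc.le)] at h3
    obtain ⟨p, _, hst, hcc⟩ := h3
    have := hmin _ hst
    omega
  have hA := triA I
  have hB := triB I
  have hC := triC I
  have hD := triD I (I.Z ^ I.TGT) (∏ e ∈ range I.m, I.FH e)
  have hE := triE I (I.Z ^ I.TGT) ((∏ e ∈ range I.m, I.FH e) * ∏ i ∈ range I.n1, I.FM i)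
  have hF := triF I (I.PT I.full) c0 hc0m h1 ((test I I.full hfull _).mpr h2)
  have hG := triG I (I.TGT + c0) h2
  rw [← PT_full] at hE
  have hall := tri_seq hA (tri_seq hB (tri_seq hC (tri_seq hD (tri_seq hE (tri_seq hF hG)))))
  obtain ⟨⟨p, hp1, hp2, hp3⟩, hcost⟩ := hall I.input (input_B I)
  constructor
  · refine le_trans hcost ?_
    unfold Inst.bd
    omega
  · have ht : ∀ i < I.n1, ({p i} : Finset ℕ) ⊆ I.full i := by
      intro i hi x hx
      rw [mem_singleton.mp hx]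
      unfold Inst.full
      rw [mem_range]
      exact Nat.lt_succ_of_le (hp1 i hi)
    rw [sol_iff I _ ht c0 (hK c0 le_rfl)] at hp3
    obtain ⟨p', hp', hst, hcc⟩ := hp3
    have hout : I.out (Cmd.run prog I.input) = I.Mof p' := by
      ext x
      unfold Inst.out Inst.Mof
      rw [mem_filter, mem_filter]
      constructor
      · rintro ⟨hx, he⟩
        refine ⟨hx, ?_⟩
        have hx1 : x.1 < I.n1 := mem_range.mp (mem_product.mp hx).1
        have h4 : p' x.1 = p x.1 := mem_singleton.mp (hp' x.1 hx1)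
        have h5 := hp2 x.1 hx1
        have h6 : (Cmd.run prog I.input) 4 x.1 0 = x.2 + 1 := he
        rw [h4]
        change (Cmd.run prog I.input) 4 x.1 0 = _ at h5
        rw [h6] at h5
        split_ifs at h5 with h7
        exact ⟨h7, by omega⟩
      · rintro ⟨hx, h7, he⟩
        refine ⟨hx, ?_⟩
        have hx1 : x.1 < I.n1 := mem_range.mp (mem_product.mp hx).1
        have h4 : p' x.1 = p x.1 := mem_singleton.mp (hp' x.1 hx1)
        have h5 := hp2 x.1 hx1
        change (Cmd.run prog I.input) 4 x.1 0 = _ at h5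
        rw [h4] at h7 he
        rw [if_pos h7, he] at h5
        exact h5
    rw [hout]
    exact ⟨hst, fun M' hM' => by rw [hcc]; exact hmin M' hM'⟩

theorem le_m_of_ne (I : Inst) (h1 : ∀ i < I.n1, I.ml i ≠ []) : I.n1 ≤ I.m := by
  have h : ∑ _i ∈ range I.n1, 1 ≤ ∑ i ∈ range I.n1, (I.ml i).length := by
    apply Finset.sum_le_sum
    intro i hi
    exact List.length_pos_iff.mpr (h1 i (mem_range.mp hi))
  rw [Finset.sum_const, card_range, smul_eq_mul, mul_one] at h
  exact h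

theorem le_m_of_ne' (I : Inst) (h1 : ∀ j < I.n2, I.wl j ≠ []) : I.n2 ≤ I.m := by
  rw [← size_wl I]
  have h : ∑ _i ∈ range I.n2, 1 ≤ ∑ i ∈ range I.n2, (I.wl i).length := by
    apply Finset.sum_le_sum
    intro i hi
    exact List.length_pos_iff.mpr (h1 i (mem_range.mp hi))
  rw [Finset.sum_const, card_range, smul_eq_mul, mul_one] at h
  exact h

theorem final : ∃ (P : Cmd) (C : ℕ), ∀ I : Inst,
    P.cost I.input ≤ C * (I.n1 + I.n2 + I.m + 1) ∧
    (1 ≤ I.m → (∀ i < I.n1, I.ml i ≠ []) → (∀ j < I.n2, I.wl j ≠ []) →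
      P.cost I.input ≤ C * I.m) ∧
    I.Egal (I.out (P.run I.input)) := by
  refine ⟨prog, 28000, fun I => ?_⟩
  obtain ⟨h1, h2⟩ := main I
  refine ⟨by omega, fun h3 h4 h5 => ?_, h2⟩
  have h6 := le_m_of_ne I h4
  have h7 := le_m_of_ne' I h5
  omega

end Pool.Agent.ESM
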