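import Pool.Agent.ESM.Exq
import Pool.Agent.ESM.Rei
import Pool.Agent.ESM.Num

/-!
# Egalitarian stable matchings on a random access machine: the total exponent
-/

set_option autoImplicit false

open Finset

namespace Pool.Agent.ESM

private theorem tot_num (I : Inst) (g : ℕ → ℕ) :
    ∑ e ∈ range I.m, g e = ∑ x ∈ I.AP, g (I.num x.1 x.2) := by
  symm
  refine Finset.sum_bij (fun x _ => I.num x.1 x.2) ?_ ?_ ?_ ?_
  · intro x hx
    exact mem_range.2 (num_lt I ((mem_AP I x).1 hx))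
  · intro x hx y hy h
    obtain ⟨h1, h2⟩ := num_inj I ((mem_AP I x).1 hx) ((mem_AP I y).1 hy) h
    exact Prod.ext h1 h2
  · intro e he
    obtain ⟨i, j, hj, hn⟩ := num_surj I (mem_range.1 he)
    exact ⟨(i, j), (mem_AP I (i, j)).2 hj, hn⟩
  · intro x _
    rfl

private theorem tot_map (f : ℕ → ℕ) (l : List ℕ) (b : ℕ) (hb : b < l.length) :
    (l.map f).getD b 0 = f (l.getD b 0) := by
  rw [List.getD_eq_getElem _ _ (by simpa using hb), List.getD_eq_getElem _ _ hb, List.getElem_map]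

theorem total (I : Inst) (p q z : ℕ → ℕ) :
    ∑ i ∈ range I.n1, ex 3 (I.lM i) (p i) + ∑ j ∈ range I.n2, ex 4 (I.lW j) (q j)
      + ∑ e ∈ range I.m, z e * (I.K * 16 ^ e) =
    I.cpq p q + I.K * ∑ x ∈ I.AP, 16 ^ I.num x.1 x.2 *
      (dig 3 (p x.1) ((I.ml x.1).idxOf x.2) + dig 4 (q x.2) ((I.wl x.2).idxOf x.1) +
        z (I.num x.1 x.2)) := by
  have h1 : ∑ i ∈ range I.n1, ex 3 (I.lM i) (p i) =
      ∑ i ∈ range I.n1, (if p i < (I.ml i).length then p i + 1 else 0) +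
        ∑ x ∈ I.AP, I.wt x.1 x.2 * dig 3 (p x.1) ((I.ml x.1).idxOf x.2) := by
    rw [← sum_M I (fun i j a => I.wt i j * dig 3 (p i) a), ← Finset.sum_add_distrib]
    refine Finset.sum_congr rfl fun i _ => ?_
    rw [ex_eq]
    have h2 : (I.lM i).length = (I.ml i).length := List.length_map _
    rw [h2]
    congr 1
    refine Finset.sum_congr rfl fun a ha => ?_
    unfold Inst.lM
    rw [tot_map _ _ _ (mem_range.1 ha)]
  have h3 : ∑ j ∈ range I.n2, ex 4 (I.lW j) (q j) =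
      ∑ j ∈ range I.n2, (if q j < (I.wl j).length then q j + 1 else 0) +
        ∑ x ∈ I.AP, I.wt x.1 x.2 * dig 4 (q x.2) ((I.wl x.2).idxOf x.1) := by
    rw [← sum_W I (fun i j b => I.wt i j * dig 4 (q j) b), ← Finset.sum_add_distrib]
    refine Finset.sum_congr rfl fun j _ => ?_
    rw [ex_eq]
    have h2 : (I.lW j).length = (I.wl j).length := List.length_map _
    rw [h2]
    congr 1
    refine Finset.sum_congr rfl fun a ha => ?_
    unfold Inst.lW
    rw [tot_map _ _ _ (mem_range.1 ha)]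
  rw [h1, h3, tot_num I (fun e => z e * (I.K * 16 ^ e)), Finset.mul_sum]
  have h4 : ∑ x ∈ I.AP, I.K * (16 ^ I.num x.1 x.2 *
      (dig 3 (p x.1) ((I.ml x.1).idxOf x.2) + dig 4 (q x.2) ((I.wl x.2).idxOf x.1) +
        z (I.num x.1 x.2))) =
      ∑ x ∈ I.AP, I.wt x.1 x.2 * dig 3 (p x.1) ((I.ml x.1).idxOf x.2) +
      ∑ x ∈ I.AP, I.wt x.1 x.2 * dig 4 (q x.2) ((I.wl x.2).idxOf x.1) +
      ∑ x ∈ I.AP, z (I.num x.1 x.2) * (I.K * 16 ^ I.num x.1 x.2) := by
    rw [← Finset.sum_add_distrib, ← Finset.sum_add_distrib]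
    refine Finset.sum_congr rfl fun x _ => ?_
    unfold Inst.wt
    ring
  rw [h4]
  unfold Inst.cpq
  ring

end Pool.Agent.ESM
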